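import Pool.Agent.H65.G4.Ears
import Pool.Agent.H72.G4.Low

/-!
# The ring of a vertex with indices in `ℕ`

`RN` : the rotation at `u` with spokes `X 0, .., X (m - 1)`; `Rot.rn` : from `Rot`;
arcs, paths and directions are computed from the word.
-/

set_option autoImplicit false

namespace Pool.Agent.H65.G4

open Relation Pool.Agent.H13.DA Pool.Agent.H72.G4 Pool.Agent.H21.G4 Pool.Agent.H13.G4
  Pool.Agent.H55.G4

variable {V : Type*} [DecidableEq V] {T : Finset (V × V × V)} {D : V → V → Prop} {a b c : V}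

omit [DecidableEq V] in
/-- the successor in a directed quad -/
theorem quad_nxt (hT : Ts T D a b c) {x1 x2 x3 x4 p : V} (h1 : D x1 x2) (h2 : D x2 x3)
    (h3 : D x3 x4) (h4 : D x4 x1) (hp : D x1 p) (h : p = x1 ∨ p = x2 ∨ p = x3 ∨ p = x4) :
    p = x2 := by
  have as := hT.pl.asymm
  rcases h with rfl | rfl | rfl | rfl
  · exact absurd hp (as _ _ hp)
  · rfl
  · exact absurd h4 (hT.pl.tri _ _ _ hp h3)
  · exact absurd h4 (as _ _ hp)

omit [DecidableEq V] in
/-- the predecessor in a directed quad -/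
theorem quad_prv (hT : Ts T D a b c) {x1 x2 x3 x4 p : V} (h1 : D x1 x2) (h2 : D x2 x3)
    (h3 : D x3 x4) (h4 : D x4 x1) (hp : D p x1) (h : p = x1 ∨ p = x2 ∨ p = x3 ∨ p = x4) :
    p = x4 := by
  have as := hT.pl.asymm
  rcases h with rfl | rfl | rfl | rfl
  · exact absurd hp (as _ _ hp)
  · exact absurd h1 (as _ _ hp)
  · exact absurd h2 (hT.pl.tri _ _ _ hp h1)
  · rfl

omit [DecidableEq V] in
/-- the quad around a dummy adjacent to `u`, with `u` first -/
theorem quad_at (hT : Ts T D a b c) {e u : V} (he : ¬ Re D e) (h : Adj T e u) :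
    ∃ x2 x3 x4, D u x2 ∧ D x2 x3 ∧ D x3 x4 ∧ D x4 u ∧
      ∀ y, Adj T e y ↔ y = u ∨ y = x2 ∨ y = x3 ∨ y = x4 := by
  classical
  obtain ⟨x1, x2, x3, x4, f1, f2, f3, f4, f5⟩ :=
    hT.du e ((verts_adj hT.pl.disc.cx).2 ⟨u, h⟩) he
  rcases (f5 u).1 h with rfl | rfl | rfl | rfl
  · exact ⟨x2, x3, x4, f1, f2, f3, f4, f5⟩
  · exact ⟨x3, x4, x1, f2, f3, f4, f1, fun y => by rw [f5]; tauto⟩
  · exact ⟨x4, x1, x2, f3, f4, f1, f2, fun y => by rw [f5]; tauto⟩
  · exact ⟨x1, x2, x3, f4, f1, f2, f3, fun y => by rw [f5]; tauto⟩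

omit [DecidableEq V] in
/-- at most two neighbours of `u` on a quad through `u` -/
theorem quad_two (hT : Ts T D a b c) {e u p q r : V} (he : ¬ Re D e) (h : Adj T e u)
    (hp : Adj T e p) (hq : Adj T e q) (hr : Adj T e r) (kp : Ar D u p) (kq : Ar D u q)
    (kr : Ar D u r) : p = q ∨ q = r ∨ p = r := by
  obtain ⟨x2, x3, x4, f1, f2, f3, f4, f5⟩ := quad_at hT he h
  have key : ∀ y, Adj T e y → Ar D u y → y = x2 ∨ y = x4 := by
    rintro y h1 (h2 | h2)
    · exact Or.inl (quad_nxt hT f1 f2 f3 f4 h2 ((f5 y).1 h1))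
    · exact Or.inr (quad_prv hT f1 f2 f3 f4 h2 ((f5 y).1 h1))
  rcases key p hp kp with rfl | rfl <;> rcases key q hq kq with rfl | rfl <;>
    rcases key r hr kr with rfl | rfl <;> tauto

omit [DecidableEq V] in
/-- the far vertex -/
theorem quad_far (hT : Ts T D a b c) {e u p q : V} (he : ¬ Re D e) (h : Adj T e u)
    (hp : Adj T e p) (hq : Adj T e q) (kp : D u p) (kq : D q u) :
    ∃ f, D p f ∧ D f q ∧ ¬ Ar D u f ∧ f ≠ u ∧ Adj T e f := by
  obtain ⟨x2, x3, x4, f1, f2, f3, f4, f5⟩ := quad_at hT he h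
  have e1 := quad_nxt hT f1 f2 f3 f4 kp ((f5 p).1 hp)
  have e2 := quad_prv hT f1 f2 f3 f4 kq ((f5 q).1 hq)
  subst e1 e2
  refine ⟨x3, f2, f3, ?_, ?_, (f5 _).2 (Or.inr (Or.inr (Or.inl rfl)))⟩
  · rintro (k | k)
    · exact hT.pl.tri _ _ _ k f3 f4
    · exact hT.pl.tri _ _ _ f1 f2 k
  · rintro rfl
    exact hT.pl.asymm _ _ f1 f2

/-- the ring of `u` with `m` spokes -/
structure RN (T : Finset (V × V × V)) (D : V → V → Prop) (u : V) (m : ℕ) (X : ℕ → V)
    (W : ℕ → CT) : Prop where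
  inj : ∀ k l, k < m → l < m → X k = X l → k = l
  nb : ∀ v, Ar D u v ↔ ∃ k, k < m ∧ v = X k
  cor : ∀ k, k < m → Cor T D u (X k) (X ((k + 1) % m)) (W k)
  adj : ∀ k l, k < m → l < m → Ar D (X k) (X l) →
    (l = (k + 1) % m ∧ W k ≠ CT.q) ∨ (k = (l + 1) % m ∧ W l ≠ CT.q)
  du : ∀ k l e, k < m → l < m → k ≠ l → ¬ Re D e → Adj T e u → Adj T e (X k) → Adj T e (X l) →
    (l = (k + 1) % m ∧ W k = CT.q) ∨ (k = (l + 1) % m ∧ W l = CT.q)

theorem rot_dummy2 (hT : Ts T D a b c) {v : V} (hv : ¬ Tr a b c v) {n : ℕ}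
    {x : Fin (n + 1) → V} {w : Fin (n + 1) → CT} (h : Rot T D v n x w) (hn : 2 ≤ n)
    {i j : Fin (n + 1)} (hij : i ≠ j) {d : V} (hd : ¬ Re D d) (hdv : Adj T d v)
    (hi : Adj T d (x i)) (hj : Adj T d (x j)) :
    (j = i + 1 ∧ w i = CT.q) ∨ (i = j + 1 ∧ w j = CT.q) := by
  obtain ⟨i', rfl⟩ : ∃ i', i = i' + 1 := ⟨i - 1, by simp⟩
  have ar : ∀ k, Ar D v (x k) := fun k => (h.nb _).2 ⟨k, rfl⟩
  have ne1 : ∀ k : Fin (n + 1), k ≠ k + 1 := by
    intro k e
    have e1 := congrArg Fin.val e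
    rw [Fin.val_add] at e1
    have hk := k.2
    have h1 : ((1 : Fin (n + 1)) : ℕ) = 1 := by
      rw [Fin.val_one']
      exact Nat.mod_eq_of_lt (by omega)
    rw [h1] at e1
    rcases Nat.lt_or_ge (k.val + 1) (n + 1) with h2 | h2
    · rw [Nat.mod_eq_of_lt h2] at e1
      omega
    · rw [show k.val + 1 = n + 1 by omega, Nat.mod_self] at e1
      omega
  rcases h.dummy_at hT hv hd hdv hi with ⟨k1, k2⟩ | ⟨k1, k2⟩
  · rcases quad_two hT hd hdv hi hj k2 (ar _) (ar _) (ar _) with e | e | e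
    · exact absurd (h.inj e) hij
    · right
      have := h.inj e
      subst this
      exact ⟨rfl, k1⟩
    · exact absurd (h.inj e).symm (ne1 _)
  · rcases quad_two hT hd hdv hi hj k2 (ar _) (ar _) (ar _) with e | e | e
    · exact absurd (h.inj e) hij
    · left
      exact ⟨h.inj e, k1⟩
    · exact absurd (h.inj e) (ne1 _)

/-- from `Rot` -/
theorem rot_rn (hT : Ts T D a b c) {v : V} (hv : ¬ Tr a b c v) {n : ℕ}
    {x : Fin (n + 1) → V} {w : Fin (n + 1) → CT} (h : Rot T D v n x w) (hn : 2 ≤ n) :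
    RN T D v (n + 1) (fun k => x (Fin.ofNat (n + 1) k)) (fun k => w (Fin.ofNat (n + 1) k)) := by
  have suc : ∀ k : ℕ, Fin.ofNat (n + 1) k + 1 = Fin.ofNat (n + 1) ((k + 1) % (n + 1)) := by
    intro k
    apply Fin.ext
    rw [Fin.val_add]
    simp [Fin.ofNat]
  have vv : ∀ k, k < n + 1 → (Fin.ofNat (n + 1) k).val = k := by
    intro k hk
    simp [Fin.ofNat, Nat.mod_eq_of_lt hk]
  have back : ∀ k l, k < n + 1 → Fin.ofNat (n + 1) l + 1 = Fin.ofNat (n + 1) k →
      k = (l + 1) % (n + 1) := by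
    intro k l hk e
    rw [suc] at e
    have := congrArg Fin.val e
    rw [vv _ hk, vv _ (Nat.mod_lt _ (by omega))] at this
    exact this.symm
  refine ⟨?_, ?_, ?_, ?_, ?_⟩
  · intro k l hk hl e
    have := congrArg Fin.val (h.inj e)
    rwa [vv _ hk, vv _ hl] at this
  · intro u
    rw [h.nb]
    constructor
    · rintro ⟨i, rfl⟩
      refine ⟨i.val, i.2, ?_⟩
      congr 1
      apply Fin.ext
      rw [vv _ i.2]
    · rintro ⟨k, _, rfl⟩
      exact ⟨_, rfl⟩
  · intro k hk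
    have := h.cor (Fin.ofNat (n + 1) k)
    rw [suc] at this
    exact this
  · intro k l hk hl e
    rcases h.adj hT hv e with ⟨e1, e2⟩ | ⟨e1, e2⟩
    · exact Or.inl ⟨back l k hl e1.symm, e2⟩
    · exact Or.inr ⟨back k l hk e1.symm, e2⟩
  · intro k l e hk hl hkl he h1 h2 h3
    have hne : Fin.ofNat (n + 1) k ≠ Fin.ofNat (n + 1) l := by
      intro e'
      have := congrArg Fin.val e'
      rw [vv _ hk, vv _ hl] at this
      exact hkl this
    rcases rot_dummy2 hT hv h hn hne he h1 h2 h3 with ⟨e1, e2⟩ | ⟨e1, e2⟩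
    · exact Or.inl ⟨back l k hl e1.symm, e2⟩
    · exact Or.inr ⟨back k l hk e1.symm, e2⟩

/-- the arc of a corner from the left to the right spoke, `dx` = the left spoke goes out -/
def car (t : CT) (dx : Bool) : Bool :=
  match t with
  | CT.q => false
  | CT.s1 => !dx
  | CT.s2 => dx
  | CT.m => !dx

/-- the arc of a corner from the right to the left spoke, `dy` = the right spoke goes out -/
def cal (t : CT) (dy : Bool) : Bool :=
  match t with
  | CT.q => false
  | CT.s1 => dy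
  | CT.s2 => !dy
  | CT.m => !dy

/-- arc from spoke `k` to spoke `l` -/
def rarc (m : ℕ) (W : ℕ → CT) (dl : ℕ → Bool) (k l : ℕ) : Bool :=
  (Nat.beq l ((k + 1) % m) && car (W k) (dl k)) ||
    (Nat.beq k ((l + 1) % m) && cal (W l) (dl k))

/-- directions of the spokes -/
def Dir (D : V → V → Prop) (u : V) (m : ℕ) (X : ℕ → V) (dl : ℕ → Bool) : Prop :=
  ∀ k, k < m → (dl k = true → D u (X k)) ∧ (dl k = false → D (X k) u)

omit [DecidableEq V] in
/-- the directions from the word -/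
theorem dir_of (hT : Ts T D a b c) {u : V} {m : ℕ} {X : ℕ → V} {W : ℕ → CT}
    (R : RN T D u m X W) {dl : ℕ → Bool}
    (h0 : (dl 0 = true → D u (X 0)) ∧ (dl 0 = false → D (X 0) u))
    (hs : ∀ k, k + 1 < m → dl (k + 1) = xor (dl k) (W k).ch) : Dir D u m X dl := by
  intro k
  induction k with
  | zero => intro _; exact h0
  | succ k ih =>
    intro hk
    have i1 := ih (by omega)
    have c := R.cor k (by omega)
    rw [Nat.mod_eq_of_lt hk] at c
    rw [hs k hk]
    have as := hT.pl.asymm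
    cases hd : dl k
    · have g := i1.2 hd
      cases hw : W k <;> rw [hw] at c
      · obtain ⟨_, ⟨h1, h2⟩ | ⟨h1, h2⟩⟩ := c
        · exact ⟨fun _ => h2, fun k => absurd k (by decide)⟩
        · exact absurd h1 (as _ _ g)
      · obtain ⟨_, ⟨h1, h2, _⟩ | ⟨h1, h2, _⟩⟩ := c
        · exact absurd h1 (as _ _ g)
        · exact ⟨fun k => absurd k (by decide), fun _ => h2⟩
      · obtain ⟨_, ⟨h1, h2, _⟩ | ⟨h1, h2, _⟩⟩ := c
        · exact absurd h1 (as _ _ g)
        · exact ⟨fun k => absurd k (by decide), fun _ => h2⟩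
      · obtain ⟨_, ⟨h1, h2, _⟩ | ⟨h1, h2, _⟩⟩ := c
        · exact ⟨fun _ => h2, fun k => absurd k (by decide)⟩
        · exact absurd h1 (as _ _ g)
    · have g := i1.1 hd
      cases hw : W k <;> rw [hw] at c
      · obtain ⟨_, ⟨h1, h2⟩ | ⟨h1, h2⟩⟩ := c
        · exact absurd h1 (as _ _ g)
        · exact ⟨fun k => absurd k (by decide), fun _ => h2⟩
      · obtain ⟨_, ⟨h1, h2, _⟩ | ⟨h1, h2, _⟩⟩ := c
        · exact ⟨fun _ => h2, fun k => absurd k (by decide)⟩
        · exact absurd h1 (as _ _ g)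
      · obtain ⟨_, ⟨h1, h2, _⟩ | ⟨h1, h2, _⟩⟩ := c
        · exact ⟨fun _ => h2, fun k => absurd k (by decide)⟩
        · exact absurd h1 (as _ _ g)
      · obtain ⟨_, ⟨h1, h2, _⟩ | ⟨h1, h2, _⟩⟩ := c
        · exact absurd h1 (as _ _ g)
        · exact ⟨fun k => absurd k (by decide), fun _ => h2⟩

omit [DecidableEq V] in
/-- a corner, from left to right -/
theorem cor_car (hT : Ts T D a b c) {u x y : V} {t : CT} (h : Cor T D u x y t) {dx : Bool}
    (h1 : dx = true → D u x) (h2 : dx = false → D x u) (ht : t ≠ CT.q) :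
    (D x y ↔ car t dx = true) := by
  have as := hT.pl.asymm
  cases t
  · exact absurd rfl ht
  all_goals
    obtain ⟨_, ⟨k1, k2, k3⟩ | ⟨k1, k2, k3⟩⟩ := h
    all_goals
      cases dx
      · have g := h2 rfl
        first
          | exact absurd k1 (as _ _ g)
          | (exact ⟨fun _ => rfl, fun _ => k3⟩)
          | (exact ⟨fun k => absurd k (as _ _ k3), fun k => absurd k (by decide)⟩)
      · have g := h1 rfl
        first
          | exact absurd k1 (as _ _ g)
          | (exact ⟨fun _ => rfl, fun _ => k3⟩)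
          | (exact ⟨fun k => absurd k (as _ _ k3), fun k => absurd k (by decide)⟩)

omit [DecidableEq V] in
/-- a corner, from right to left -/
theorem cor_cal (hT : Ts T D a b c) {u x y : V} {t : CT} (h : Cor T D u x y t) {dy : Bool}
    (h1 : dy = true → D u y) (h2 : dy = false → D y u) (ht : t ≠ CT.q) :
    (D y x ↔ cal t dy = true) := by
  have as := hT.pl.asymm
  cases t
  · exact absurd rfl ht
  all_goals
    obtain ⟨_, ⟨k1, k2, k3⟩ | ⟨k1, k2, k3⟩⟩ := h
    all_goals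
      cases dy
      · have g := h2 rfl
        first
          | exact absurd k2 (as _ _ g)
          | (exact ⟨fun _ => rfl, fun _ => k3⟩)
          | (exact ⟨fun k => absurd k (as _ _ k3), fun k => absurd k (by decide)⟩)
      · have g := h1 rfl
        first
          | exact absurd k2 (as _ _ g)
          | (exact ⟨fun _ => rfl, fun _ => k3⟩)
          | (exact ⟨fun k => absurd k (as _ _ k3), fun k => absurd k (by decide)⟩)

section

variable {u : V} {m : ℕ} {X : ℕ → V} {W : ℕ → CT} {dl : ℕ → Bool}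

omit [DecidableEq V] in
theorem RN.arc (hT : Ts T D a b c) (R : RN T D u m X W) (hd : Dir D u m X dl) {k l : ℕ}
    (hk : k < m) (hl : l < m) : D (X k) (X l) ↔ rarc m W dl k l = true := by
  have ne : ∀ {t dx}, car t dx = true → t ≠ CT.q := by
    rintro t dx h rfl
    exact absurd h (by cases dx <;> decide)
  have ne' : ∀ {t dx}, cal t dx = true → t ≠ CT.q := by
    rintro t dx h rfl
    exact absurd h (by cases dx <;> decide)
  constructor
  · intro h
    unfold rarc
    rw [Bool.or_eq_true, Bool.and_eq_true, Bool.and_eq_true, Nat.beq_eq, Nat.beq_eq]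
    rcases R.adj k l hk hl (Or.inl h) with ⟨e1, e2⟩ | ⟨e1, e2⟩
    · left
      have c := R.cor k hk
      rw [← e1] at c
      exact ⟨e1, (cor_car hT c (hd k hk).1 (hd k hk).2 e2).1 h⟩
    · right
      have c := R.cor l hl
      rw [← e1] at c
      exact ⟨e1, (cor_cal hT c (hd k hk).1 (hd k hk).2 e2).1 h⟩
  · intro h
    unfold rarc at h
    rw [Bool.or_eq_true, Bool.and_eq_true, Bool.and_eq_true, Nat.beq_eq, Nat.beq_eq] at h
    rcases h with ⟨e1, e2⟩ | ⟨e1, e2⟩
    · have c := R.cor k hk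
      rw [← e1] at c
      exact (cor_car hT c (hd k hk).1 (hd k hk).2 (ne e2)).2 e2
    · have c := R.cor l hl
      rw [← e1] at c
      exact (cor_cal hT c (hd k hk).1 (hd k hk).2 (ne' e2)).2 e2

end

end Pool.Agent.H65.G4
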