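import Pool.Agent.H72.G4.Jordan
import Pool.Agent.H21.G4.Glue
import Pool.Agent.H13.G4.Count

/-!
# Rows M1, M2: first properties of a minimal counterexample

* `no_source`, `no_sink` (M2): every real vertex off the outer triangle has an in- and an out-arc.
* `real_tri` (M1): the inside of a real 3-cycle (different from the outer one) contains no real
  vertex; `real_face`: it is a face if every vertex of the carrier is real.
-/

set_option autoImplicit false

namespace Pool.Agent.H65.G4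

open Relation Pool.Agent.H13.DA Pool.Agent.H72.G4 Pool.Agent.H21.G4 Pool.Agent.H13.G4

variable {V : Type*} [DecidableEq V] {T : Finset (V × V × V)} {D D' : V → V → Prop} {a b c : V}

omit [DecidableEq V] in
theorem re_mono (h : ∀ x y, D' x y → D x y) {x : V} (hx : Re D' x) : Re D x := by
  obtain ⟨y, hy | hy⟩ := hx
  · exact ⟨y, Or.inl (h _ _ hy)⟩
  · exact ⟨y, Or.inr (h _ _ hy)⟩

omit [DecidableEq V] in
theorem nr_lt (hfin : {x | Re D x}.Finite) (h : ∀ x y, D' x y → D x y) {v : V} (hv : Re D v)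
    (hv' : ¬ Re D' v) : nr D' < nr D := by
  refine Set.ncard_lt_ncard ?_ hfin
  refine ⟨fun x hx => re_mono h hx, fun hsub => hv' (hsub hv)⟩

theorem pl_sub {l : List V} (h : Pl T D l) (hD : ∀ x y, D' x y → D x y) : Pl T D' l where
  disc := h.disc
  bd := h.bd
  adj := fun x y hxy => h.adj x y (hD x y hxy)
  asymm := fun x y hxy hyx => h.asymm x y (hD x y hxy) (hD y x hyx)
  tri := fun x y z h1 h2 h3 => h.tri x y z (hD _ _ h1) (hD _ _ h2) (hD _ _ h3)

omit [DecidableEq V] in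
theorem out_on {S : V → Prop} (h : Out D a b c) (ha : S a) (hb : S b) (hc : S c) :
    Out (On D S) a b c := by
  obtain ⟨h1, h2, h3⟩ := h
  refine ⟨?_, ?_, ?_⟩
  · exact h1.imp (fun h => ⟨h, ha, hb⟩) fun h => ⟨h, hb, ha⟩
  · exact h2.imp (fun h => ⟨h, hb, hc⟩) fun h => ⟨h, hc, hb⟩
  · exact h3.imp (fun h => ⟨h, hc, ha⟩) fun h => ⟨h, ha, hc⟩

theorem del_solv (h : MC T D a b c) {v : V} (hv : Re D v) (hva : v ≠ a) (hvb : v ≠ b)
    (hvc : v ≠ c) : Solv (Del D v) (Tr a b c) := by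
  refine h.min1 T (Del D v) a b c (pl_sub h.pl fun x y hxy => hxy.1) ?_
    (nr_lt h.pl.re_fin (fun x y hxy => hxy.1) hv ?_)
  · obtain ⟨h1, h2, h3⟩ := h.out
    refine ⟨?_, ?_, ?_⟩
    · exact h1.imp (fun h => ⟨h, hva.symm, hvb.symm⟩) fun h => ⟨h, hvb.symm, hva.symm⟩
    · exact h2.imp (fun h => ⟨h, hvb.symm, hvc.symm⟩) fun h => ⟨h, hvc.symm, hvb.symm⟩
    · exact h3.imp (fun h => ⟨h, hvc.symm, hva.symm⟩) fun h => ⟨h, hva.symm, hvc.symm⟩
  · rintro ⟨y, hy | hy⟩
    · exact hy.2.1 rfl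
    · exact hy.2.2 rfl

/-- **M2**: no inner source -/
theorem no_source (h : MC T D a b c) {v : V} (hv : Re D v) (hva : v ≠ a) (hvb : v ≠ b)
    (hvc : v ≠ c) : ∃ x, D x v := by
  by_contra hcon
  push Not at hcon
  refine h.bad (solv_source ?_ hcon (del_solv h hv hva hvb hvc))
  rintro (rfl | rfl | rfl) <;> simp_all

/-- **M2**: no inner sink -/
theorem no_sink (h : MC T D a b c) {v : V} (hv : Re D v) (hva : v ≠ a) (hvb : v ≠ b)
    (hvc : v ≠ c) : ∃ x, D v x := by
  by_contra hcon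
  push Not at hcon
  refine h.bad (solv_sink ?_ hcon (del_solv h hv hva hvb hvc))
  rintro (rfl | rfl | rfl) <;> simp_all

omit [DecidableEq V] in
theorem cyc3 {x y z p q : V} (hp : p ∈ [x, y, z]) (hq : q ∈ [x, y, z]) (hpq : p ≠ q) :
    Cyc [x, y, z] p q ∨ Cyc [x, y, z] q p := by
  simp only [List.mem_cons, List.not_mem_nil, or_false] at hp hq
  simp only [Cyc, Nx, List.cons_append, List.nil_append]
  rcases hp with rfl | rfl | rfl <;> rcases hq with rfl | rfl | rfl <;> simp_all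

omit [DecidableEq V] in
theorem cyc3r {x y z p q : V} : Cyc [x, y, z].reverse p q ↔ Cyc [x, y, z] q p := cyc_reverse _ _ _

/-- **M1**: the inside of a real 3-cycle different from the outer triangle contains no real
vertex -/
theorem real_tri (h : MC T D a b c) {x y z : V} (hxy : Ar D x y) (hyz : Ar D y z)
    (hzx : Ar D z x) (hout : ∃ v ∈ [a, b, c], v ∉ [x, y, z]) :
    ∃ X, X ⊆ T ∧ Disc X ∧ (IsBd X [x, y, z] ∨ IsBd X [z, y, x]) ∧
      (∀ v, v ∈ verts X → v ∈ verts (T \ X) → v ∈ [x, y, z]) ∧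
      ∀ v, v ∈ verts X → Re D v → v ∈ [x, y, z] := by
  have hirr : ∀ x, ¬ D x x := fun x hx => h.pl.asymm x x hx hx
  have ne : ∀ {x y : V}, Ar D x y → x ≠ y := by
    rintro x y (h1 | h1) rfl
    · exact hirr _ h1
    · exact hirr _ h1
  have adjT : ∀ {x y : V}, Ar D x y → Adj T x y := by
    rintro x y (h1 | h1)
    · exact h.pl.adj _ _ h1
    · exact (h.pl.adj _ _ h1).symm
  have n1 := ne hxy
  have n2 := ne hyz
  have n3 := ne hzx
  have hnd : [x, y, z].Nodup := by
    simp [n1, n2, n3.symm]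
  have hZ : ∀ p q, Cyc [x, y, z] p q → Adj T p q := by
    intro p q hpq
    simp only [Cyc, Nx, List.cons_append, List.nil_append] at hpq
    rcases hpq with ⟨rfl, rfl⟩ | ⟨rfl, rfl⟩ | ⟨rfl, rfl⟩ | hpq
    · exact adjT hxy
    · exact adjT hyz
    · exact adjT hzx
    · exact absurd hpq id
  obtain ⟨X, hXT, hX, hb, hm⟩ := jordan h.pl.disc hnd (by simp) hZ
  refine ⟨X, hXT, hX, ?_, hm, ?_⟩
  · exact hb.imp id fun hb => by simpa using hb
  intro w hw hwr
  by_contra hwZ
  have hT := h.pl.disc.cx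
  have hTX := sdiff_isCx hT hX.cx
  -- directed edges on the boundary of `X` are on the cycle
  have bdX : ∀ p q, Bd X p q → p ∈ [x, y, z] ∧ q ∈ [x, y, z] := by
    intro p q hpq
    rcases hb with hb | hb
    · exact cyc_mem ((hb.iff p q).1 hpq)
    · have := cyc_mem (cyc3r.1 ((hb.iff p q).1 hpq))
      exact ⟨this.2, this.1⟩
  -- edges between vertices of the cycle are edges of `X`
  have adjZ : ∀ p q, p ∈ [x, y, z] → q ∈ [x, y, z] → p ≠ q → Adj X p q := by
    intro p q hp hq hpq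
    have h1 : ∀ p q, Cyc [x, y, z] p q → Adj X p q := by
      intro p q hpq
      rcases hb with hb | hb
      · exact Or.inl ((hb.iff p q).2 hpq).1
      · exact Or.inr ((hb.iff q p).2 (cyc3r.2 hpq)).1
    rcases cyc3 hp hq hpq with h2 | h2
    · exact h1 _ _ h2
    · exact (h1 _ _ h2).symm
  -- the outer vertices are not strictly inside
  have hS1 : ∀ v, v ∈ [a, b, c] → v ∈ verts (T \ X) ∨ v ∈ [x, y, z] := by
    intro v hv
    obtain ⟨⟨u, hu⟩, _⟩ := mem_cyc hv
    have hbd := (h.pl.bd.iff v u).2 hu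
    obtain ⟨⟨t, ht⟩, hno⟩ := hbd
    by_cases htX : (v, u, t) ∈ X
    · exact Or.inr (bdX v u ⟨⟨t, htX⟩, fun s hs => hno s (hXT hs)⟩).1
    · exact Or.inl (vert1 (Finset.mem_sdiff.2 ⟨ht, htX⟩))
  -- arcs
  have arcs : ∀ p q, Adj T p q → (p ∈ verts (T \ X) ∧ q ∈ verts (T \ X)) ∨ Adj X p q := by
    rintro p q (⟨r, hr⟩ | ⟨r, hr⟩)
    · by_cases hrX : (p, q, r) ∈ X
      · exact Or.inr (Or.inl ⟨r, hrX⟩)
      · have := Finset.mem_sdiff.2 ⟨hr, hrX⟩
        exact Or.inl ⟨vert1 this, vert2 hTX this⟩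
    · by_cases hrX : (q, p, r) ∈ X
      · exact Or.inr (Or.inr ⟨r, hrX⟩)
      · have := Finset.mem_sdiff.2 ⟨hr, hrX⟩
        exact Or.inl ⟨vert2 hTX this, vert1 this⟩
  have adjv : ∀ p q, Adj X p q → p ∈ verts X ∧ q ∈ verts X := by
    rintro p q (⟨r, hr⟩ | ⟨r, hr⟩)
    · exact ⟨vert1 hr, vert2 hX.cx hr⟩
    · exact ⟨vert2 hX.cx hr, vert1 hr⟩
  let S1 : V → Prop := fun v => v ∈ verts (T \ X) ∨ v ∈ [x, y, z]
  let S2 : V → Prop := fun v => v ∈ verts X
  have hs1 : Solv (On D S1) (Tr a b c) := by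
    refine h.min1 T (On D S1) a b c (pl_sub h.pl fun x y hxy => hxy.1)
      (out_on h.out (hS1 a (by simp)) (hS1 b (by simp)) (hS1 c (by simp)))
      (nr_lt h.pl.re_fin (fun x y hxy => hxy.1) hwr ?_)
    rintro ⟨u, hu | hu⟩
    · rcases hu.2.1 with h1 | h1
      · exact hwZ (hm w hw h1)
      · exact hwZ h1
    · rcases hu.2.2 with h1 | h1
      · exact hwZ (hm w hw h1)
      · exact hwZ h1
  have hZX : ∀ v, v ∈ [x, y, z] → v ∈ verts X := by
    intro v hv
    simp only [List.mem_cons, List.not_mem_nil, or_false] at hv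
    rcases hv with rfl | rfl | rfl
    · exact (adjv _ _ (adjZ v y (by simp) (by simp) n1)).1
    · exact (adjv _ _ (adjZ v z (by simp) (by simp) n2)).1
    · exact (adjv _ _ (adjZ v x (by simp) (by simp) n3)).1
  have hadj2 : ∀ p q, On D S2 p q → Adj X p q := by
    intro p q hpq
    rcases arcs p q (h.pl.adj p q hpq.1) with h1 | h1
    · exact adjZ p q (hm p hpq.2.1 h1.1) (hm q hpq.2.2 h1.2) (ne (Or.inl hpq.1))
    · exact h1
  have hlt : nr (On D S2) < nr D := by
    obtain ⟨v, hv, hvZ⟩ := hout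
    have hvr : Re D v := by
      obtain ⟨h1, h2, h3⟩ := h.out
      simp only [List.mem_cons, List.not_mem_nil, or_false] at hv
      rcases hv with rfl | rfl | rfl
      · exact ⟨b, h1⟩
      · exact ⟨c, h2⟩
      · exact ⟨a, h3⟩
    refine nr_lt h.pl.re_fin (fun x y hxy => hxy.1) hvr ?_
    have hvX : v ∉ verts X := by
      intro hvX
      rcases hS1 v hv with h1 | h1
      · exact hvZ (hm v hvX h1)
      · exact hvZ h1
    rintro ⟨u, hu | hu⟩
    · exact hvX hu.2.1
    · exact hvX hu.2.2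
  have hs2 : Solv (On D S2) (Tr x y z) := by
    have has : ∀ x y, On D S2 x y → ¬ On D S2 y x := fun x y h1 h2 => h.pl.asymm x y h1.1 h2.1
    have htr : ∀ x y z, On D S2 x y → On D S2 y z → ¬ On D S2 z x := fun x y z h1 h2 h3 =>
      h.pl.tri x y z h1.1 h2.1 h3.1
    rcases hb with hb | hb
    · exact h.min1 X (On D S2) x y z ⟨hX, hb, hadj2, has, htr⟩
        (out_on ⟨hxy, hyz, hzx⟩ (hZX x (by simp)) (hZX y (by simp)) (hZX z (by simp))) hlt
    · have := h.min1 X (On D S2) z y x ⟨hX, by simpa using hb, hadj2, has, htr⟩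
        (out_on ⟨hyz.symm, hxy.symm, hzx.symm⟩ (hZX z (by simp)) (hZX y (by simp))
          (hZX x (by simp))) hlt
      have e : (Tr z y x : V → Prop) = Tr x y z := by
        funext v
        simp only [Tr]
        exact propext ⟨fun h => by tauto, fun h => by tauto⟩
      rwa [e] at this
  refine h.bad (glue (S1 := S1) (S2 := S2) (S' := Tr x y z) ?_ ?_ ?_ ?_ hs1 hs2)
  · intro p q hpq
    rcases arcs p q (h.pl.adj p q hpq) with h1 | h1
    · exact Or.inl ⟨Or.inl h1.1, Or.inl h1.2⟩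
    · exact Or.inr (adjv p q h1)
  · rintro v (rfl | rfl | rfl)
    · exact hS1 _ (by simp)
    · exact hS1 _ (by simp)
    · exact hS1 _ (by simp)
  · rintro v (rfl | rfl | rfl)
    · exact Or.inr (by simp)
    · exact Or.inr (by simp)
    · exact Or.inr (by simp)
  · intro v h1 h2
    have h3 : v ∈ [x, y, z] := by
      rcases h1 with h1 | h1
      · exact hm v h2 h1
      · exact h1
    simpa [Tr] using h3

/-- **M1** if every vertex of the carrier is real, a real 3-cycle different from the outer one is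
a face -/
theorem real_face (h : MC T D a b c) (hre : ∀ v ∈ verts T, Re D v) {x y z : V} (hxy : Ar D x y)
    (hyz : Ar D y z) (hzx : Ar D z x) (hout : ∃ v ∈ [a, b, c], v ∉ [x, y, z]) :
    (x, y, z) ∈ T ∨ (y, x, z) ∈ T := by
  obtain ⟨X, hXT, hX, hb, -, hv⟩ := real_tri h hxy hyz hzx hout
  have hcx := hX.cx
  have hsub : verts X ⊆ {x, y, z} := by
    intro v hv1
    have := hv v hv1 (hre v (verts_mono hXT hv1))
    simpa using this
  have key : ∀ p q r : V, IsBd X [p, q, r] → verts X ⊆ {p, q, r} → (p, q, r) ∈ X := by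
    intro p q r hb hs
    have h1 : Bd X p q := (hb.iff p q).2 (Or.inl ⟨rfl, rfl⟩)
    obtain ⟨⟨t, ht⟩, hno⟩ := h1
    have h2 : Bd X q r := (hb.iff q r).2 (Or.inr (Or.inl ⟨rfl, rfl⟩))
    have ht3 := vert3 hcx ht
    obtain ⟨e1, e2, e3⟩ := cx_ne hcx ht
    have := hs ht3
    simp only [Finset.mem_insert, Finset.mem_singleton] at this
    rcases this with e | e | e
    · exact absurd e e3
    · exact absurd e.symm e2
    · rw [← e]
      exact ht
  rcases hb with hb | hb
  · exact Or.inl (hXT (key x y z hb hsub))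
  · have h1 : (z, y, x) ∈ X := key z y x hb fun v hv1 => by
      have := hsub hv1
      simp only [Finset.mem_insert, Finset.mem_singleton] at this ⊢
      tauto
    exact Or.inr (hXT (hcx.rot h1))

end Pool.Agent.H65.G4
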