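import Pool.Agent.H65.G4.X1o

/-!
# The reduction of X1

`v` of degree 4 with in-neighbours `x1`, `x2`, out-neighbours `x3`, `x4`, arcs `x2 → x1`, `x2 → x3`,
`x4 → x3`.  If the arc `x2 → x3` is short on its other side, then delete `v`, contract `x2 x3` and
add `x4 → x1`.
-/

set_option autoImplicit false

namespace Pool.Agent.H65.G4

open Relation Pool.Agent.H13.DA Pool.Agent.H72.G4 Pool.Agent.H21.G4 Pool.Agent.H13.G4

variable {V : Type*} [DecidableEq V] {T : Finset (V × V × V)} {D : V → V → Prop} {a b c : V}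

omit [DecidableEq V] in
theorem ex_move {O O' : Fin 3 → V → V → Prop} {x y x' y' : V}
    (h1 : ∀ i, O' i x' y' ↔ O i x y) (h2 : ∀ i, O' i y' x' ↔ O i y x) (h : Ex O x y) :
    Ex O' x' y' := by
  obtain ⟨i, hi, hj⟩ := h
  exact ⟨i, (h2 i).2 hi, fun j hji => (h1 j).2 (hj j hji)⟩

/-- **X1 is reducible** unless its arc `x2 → x3` is special. -/
theorem red_X1 [Infinite V] (hM : MCw T D a b c) (hT : Ts T D a b c) {v x1 x2 x3 x4 : V}
    (hv : ¬ Tr a b c v) (hg : Good T D v)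
    (hN : ∀ u, Ar D v u ↔ u = x1 ∨ u = x2 ∨ u = x3 ∨ u = x4)
    (h1 : D x1 v) (h2 : D x2 v) (h3 : D v x3) (h4 : D v x4)
    (h21 : D x2 x1) (h23 : D x2 x3) (h43 : D x4 x3)
    (n13 : ¬ Ar D x1 x3) (n24 : ¬ Ar D x2 x4) (n14 : ¬ Ar D x1 x4)
    {x y r : V} (hxy : (y = x2 ∧ x = x3) ∨ (y = x3 ∧ x = x2)) (hy : ¬ Tr a b c y)
    (hgy : Good T D y)
    (hf : ((x, y, v) ∈ T ∧ (y, x, r) ∈ T) ∨ ((x, y, r) ∈ T ∧ (y, x, v) ∈ T))
    (hr : Re D r) (sr : D r x ↔ D r y) : False := by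
  have cx := hT.pl.disc.cx
  have has := hT.pl.asymm
  have htr := hT.pl.tri
  have irr : ∀ u, ¬ D u u := fun u h => has u u h h
  have hvr : Re D v := ⟨x3, Or.inl h3⟩
  have e1v : x1 ≠ v := by rintro rfl; exact irr _ h1
  have e2v : x2 ≠ v := by rintro rfl; exact irr _ h2
  have e3v : x3 ≠ v := by rintro rfl; exact irr _ h3
  have e4v : x4 ≠ v := by rintro rfl; exact irr _ h4
  have e12 : x1 ≠ x2 := by rintro rfl; exact irr _ h21
  have e13 : x1 ≠ x3 := by rintro rfl; exact has _ _ h1 h3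
  have e14 : x1 ≠ x4 := by rintro rfl; exact has _ _ h1 h4
  have e23 : x2 ≠ x3 := by rintro rfl; exact irr _ h23
  have e24 : x2 ≠ x4 := by rintro rfl; exact has _ _ h2 h4
  have e34 : x3 ≠ x4 := by rintro rfl; exact irr _ h43
  -- facts on x and y
  have hxv : x ≠ v := by rcases hxy with ⟨_, rfl⟩ | ⟨_, rfl⟩ <;> assumption
  have hyv : y ≠ v := by rcases hxy with ⟨rfl, _⟩ | ⟨rfl, _⟩ <;> assumption
  have hyx : y ≠ x := by
    rcases hxy with ⟨rfl, rfl⟩ | ⟨rfl, rfl⟩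
    · exact e23
    · exact e23.symm
  have hx1 : x ≠ x1 := by
    rcases hxy with ⟨_, rfl⟩ | ⟨_, rfl⟩
    · exact e13.symm
    · exact e12.symm
  have hx4 : x ≠ x4 := by
    rcases hxy with ⟨_, rfl⟩ | ⟨_, rfl⟩
    · exact e34
    · exact e24
  have hy1 : y ≠ x1 := by
    rcases hxy with ⟨rfl, _⟩ | ⟨rfl, _⟩
    · exact e12.symm
    · exact e13.symm
  have hy4 : y ≠ x4 := by
    rcases hxy with ⟨rfl, _⟩ | ⟨rfl, _⟩
    · exact e24
    · exact e34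
  have hyxa : Ar D y x := by
    rcases hxy with ⟨rfl, rfl⟩ | ⟨rfl, rfl⟩
    · exact Or.inl h23
    · exact Or.inr h23
  have hvx : Ar D v x := by
    rcases hxy with ⟨_, rfl⟩ | ⟨_, rfl⟩
    · exact Or.inl h3
    · exact Or.inr h2
  have hvy : Ar D v y := by
    rcases hxy with ⟨rfl, _⟩ | ⟨rfl, _⟩
    · exact Or.inr h2
    · exact Or.inl h3
  have hvTr : ∀ u, Tr a b c u → u ≠ v := fun u hu h => hv (h ▸ hu)
  have hyTr : ∀ u, Tr a b c u → u ≠ y := fun u hu h => hy (h ▸ hu)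
  -- common neighbours of x and y
  have comT : ∀ u, Adj T x u → Adj T y u → u = v ∨ u = r := by
    intro u hu1 hu2
    rcases hf with ⟨f1, f2⟩ | ⟨f1, f2⟩
    · exact hT.common hy f1 f2 hu1 hu2
    · exact (hT.common hy f1 f2 hu1 hu2).symm
  have com : ∀ u, u ≠ v → Ar D x u → Ar D y u → (D u x ↔ D u y) := by
    intro u hu hu1 hu2
    rcases comT u (hT.pl.ar_adj hu1) (hT.pl.ar_adj hu2) with h | rfl
    · exact absurd h hu
    · exact sr
  have com' : ∀ u, u ≠ v → Ar D x u → Ar D y u → (D x u ↔ D y u) := by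
    intro u hu hu1 hu2
    have h := com u hu hu1 hu2
    constructor
    · intro h3
      rcases hu2 with h4 | h4
      · exact h4
      · exact absurd (h.2 h4) (has _ _ h3)
    · intro h3
      rcases hu1 with h4 | h4
      · exact h4
      · exact absurd (h.1 h4) (has _ _ h3)
  have nod : ∀ d, ¬ Re D d → Adj T d x → Adj T d y → False := by
    intro d hd hdx hdy
    rcases comT d hdx.symm hdy.symm with rfl | rfl
    · exact hd hvr
    · exact hd hr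
  -- the digraph with `v` deleted and the arc x4 → x1
  obtain ⟨A, hA⟩ : ∃ A : V → V → Prop, ∀ u w, A u w ↔ u = x4 ∧ w = x1 :=
    ⟨fun u w => u = x4 ∧ w = x1, fun _ _ => Iff.rfl⟩
  have f1 : ∀ u w, Fil D v A u w ↔ (D u w ∧ u ≠ v ∧ w ≠ v) ∨ (u = x4 ∧ w = x1) := by
    intro u w
    unfold Fil H21.G4.Del
    rw [hA]
  have fx : ∀ u, Fil D v A x u ↔ D x u ∧ u ≠ v := by
    intro u
    rw [f1]
    constructor
    · rintro (⟨h, _, h'⟩ | ⟨h, _⟩)
      · exact ⟨h, h'⟩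
      · exact absurd h hx4
    · rintro ⟨h, h'⟩
      exact Or.inl ⟨h, hxv, h'⟩
  have fy : ∀ u, Fil D v A y u ↔ D y u ∧ u ≠ v := by
    intro u
    rw [f1]
    constructor
    · rintro (⟨h, _, h'⟩ | ⟨h, _⟩)
      · exact ⟨h, h'⟩
      · exact absurd h hy4
    · rintro ⟨h, h'⟩
      exact Or.inl ⟨h, hyv, h'⟩
  have gx : ∀ u, Fil D v A u x ↔ D u x ∧ u ≠ v := by
    intro u
    rw [f1]
    constructor
    · rintro (⟨h, h', _⟩ | ⟨_, h⟩)
      · exact ⟨h, h'⟩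
      · exact absurd h hx1
    · rintro ⟨h, h'⟩
      exact Or.inl ⟨h, h', hxv⟩
  have gy : ∀ u, Fil D v A u y ↔ D u y ∧ u ≠ v := by
    intro u
    rw [f1]
    constructor
    · rintro (⟨h, h', _⟩ | ⟨_, h⟩)
      · exact ⟨h, h'⟩
      · exact absurd h hy1
    · rintro ⟨h, h'⟩
      exact Or.inl ⟨h, h', hyv⟩
  have has1 : ∀ u w, Fil D v A u w → ¬ Fil D v A w u := by
    intro u w
    rw [f1, f1]
    rintro (⟨h, _⟩ | ⟨rfl, rfl⟩) (⟨h', _⟩ | ⟨h5, h6⟩)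
    · exact has _ _ h h'
    · subst h5 h6
      exact n14 (Or.inl h)
    · exact n14 (Or.inl h')
    · exact e14 h5
  have tri0 : ∀ o, o ≠ v → D x1 o → D o x4 → False := by
    intro o ho k1 k2
    rcases good_common hT hg (Or.inr h1) (Or.inl h4) e14 n14 ho (Or.inl k1) (Or.inr k2) with
      h | ⟨_, _, h, _⟩ | ⟨h, _⟩
    · rcases (hN o).1 h with rfl | rfl | rfl | rfl
      · exact irr _ k1
      · exact has _ _ k1 h21
      · exact n13 (Or.inl k1)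
      · exact irr _ k2
    · exact has _ _ h k2
    · exact has _ _ h h4
  have htr1 : ∀ u w z, Fil D v A u w → Fil D v A w z → ¬ Fil D v A z u := by
    intro u w z
    rw [f1, f1, f1]
    rintro (⟨p1, p2, p3⟩ | ⟨p1, p2⟩) (⟨q1, q2, q3⟩ | ⟨q1, q2⟩) (⟨r1, r2, r3⟩ | ⟨r1, r2⟩)
    · exact htr _ _ _ p1 q1 r1
    · subst r1 r2
      exact tri0 w p3 p1 q1
    · subst q1 q2
      exact tri0 u r3 r1 p1
    · subst q1 q2
      exact e14 r1
    · subst p1 p2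
      exact tri0 z q3 q1 r1
    · subst p1 p2
      exact e14 r2.symm
    · subst p1 p2
      exact e14 q1
    · subst p1 p2
      exact e14 q1
  have com1 : ∀ u, Ar (Fil D v A) x u → Ar (Fil D v A) y u →
      (Fil D v A u x ↔ Fil D v A u y) := by
    intro u hu1 hu2
    have k1 : Ar D x u ∧ u ≠ v := by
      rcases hu1 with h | h
      · have := (fx u).1 h
        exact ⟨Or.inl this.1, this.2⟩
      · have := (gx u).1 h
        exact ⟨Or.inr this.1, this.2⟩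
    have k2 : Ar D y u := by
      rcases hu2 with h | h
      · exact Or.inl ((fy u).1 h).1
      · exact Or.inr ((gy u).1 h).1
    rw [gx, gy, com u k1.2 k1.1 k2]
  have k1 : ∀ w z, w ≠ y → z ≠ y → w ≠ x → z ≠ x → Fil D v A x w → Fil D v A w z →
      Fil D v A z y → False := by
    intro w z hw hz hw' hz' p1 p2 p3
    obtain ⟨p1, p1'⟩ := (fx w).1 p1
    obtain ⟨p3, p3'⟩ := (gy z).1 p3
    rcases (f1 w z).1 p2 with ⟨p2, _⟩ | ⟨rfl, rfl⟩
    · by_cases hxz : Ar D x z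
      · have := (com z p3' hxz (Or.inr p3)).2 p3
        exact htr _ _ _ p1 p2 this
      · rcases hgy x z w hyxa (Or.inr p3) hz'.symm hxz hw (Or.inl p1) (Or.inr p2) with
          h5 | ⟨d, g1, g2, g3, g4, g5⟩
        · have := (com' w p1' (Or.inl p1) h5).1 p1
          exact htr _ _ _ this p2 p3
        · exact nod d g1 g3 g2
    · rcases hxy with ⟨rfl, rfl⟩ | ⟨rfl, rfl⟩
      · exact has _ _ p1 h43
      · exact n24 (Or.inl p1)
  have k2 : ∀ w z, w ≠ y → z ≠ y → w ≠ x → z ≠ x → Fil D v A y w → Fil D v A w z →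
      Fil D v A z x → False := by
    intro w z hw hz hw' hz' p1 p2 p3
    obtain ⟨p1, p1'⟩ := (fy w).1 p1
    obtain ⟨p3, p3'⟩ := (gx z).1 p3
    rcases (f1 w z).1 p2 with ⟨p2, _⟩ | ⟨rfl, rfl⟩
    · by_cases hxw : Ar D x w
      · have := (com' w p1' hxw (Or.inl p1)).2 p1
        exact htr _ _ _ this p2 p3
      · rcases hgy x w z hyxa (Or.inl p1) hw'.symm hxw hz (Or.inr p3) (Or.inl p2) with
          h5 | ⟨d, g1, g2, g3, g4, g5⟩
        · have := (com z p3' (Or.inr p3) h5).1 p3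
          exact htr _ _ _ p1 p2 this
        · exact nod d g1 g3 g2
    · rcases hxy with ⟨rfl, rfl⟩ | ⟨rfl, rfl⟩
      · exact n24 (Or.inl p1)
      · exact has _ _ p1 h43
  -- first fan: y into x
  have hyl : y ∉ [a, b, c] := by
    intro h
    apply hy
    simpa [Tr] using h
  have hvl : v ∉ [a, b, c] := by
    intro h
    apply hv
    simpa [Tr] using h
  obtain ⟨T1, d1, d2, d3, d4, d5, _⟩ := fan_disc hT.pl.disc hT.pl.bd hyl (hT.pl.ar_adj hyxa) (by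
    intro q hq1 hq2
    rcases hT.fc y x q (hT.pl.ar_adj hyxa) hq2 hq1.symm with h | ⟨h, _⟩
    · exact h
    · exact absurd h hy)
  -- second fan: v into p0
  obtain ⟨p0, q0, hpq, hnp⟩ : ∃ p0 q0, ((p0 = x4 ∧ q0 = x1) ∨ (p0 = x1 ∧ q0 = x4)) ∧
      ¬ Ar D y p0 := by
    rcases hxy with ⟨rfl, _⟩ | ⟨rfl, _⟩
    · exact ⟨x4, x1, Or.inl ⟨rfl, rfl⟩, n24⟩
    · exact ⟨x1, x4, Or.inr ⟨rfl, rfl⟩, fun h => n13 (ar_symm h)⟩
  have hp0 : Ar D v p0 ∧ Ar D v q0 ∧ p0 ≠ v ∧ q0 ≠ v ∧ y ≠ p0 ∧ y ≠ q0 ∧ x ≠ p0 ∧ p0 ≠ q0 := by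
    rcases hpq with ⟨rfl, rfl⟩ | ⟨rfl, rfl⟩
    · exact ⟨Or.inl h4, Or.inr h1, e4v, e1v, hy4, hy1, hx4, e14.symm⟩
    · exact ⟨Or.inr h1, Or.inl h4, e1v, e4v, hy1, hy4, hx1, e14⟩
  obtain ⟨i1, i2, i3, i4, i5, i6, i7, i8⟩ := hp0
  have adv : ∀ q, Adj T1 v q → Adj T v q ∧ q ≠ y := by
    intro q hq
    obtain ⟨_, m2, m3⟩ := (d4 v q).1 hq
    rcases m3 with m3 | ⟨m3, _⟩ | ⟨rfl, _⟩
    · exact ⟨m3, m2⟩
    · exact absurd m3.symm hxv
    · exact ⟨hT.pl.ar_adj hvx, m2⟩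
  have adv' : ∀ q, Adj T v q → q ≠ y → Adj T1 v q := fun q h h' =>
    (d4 v q).2 ⟨hyv.symm, h', Or.inl h⟩
  obtain ⟨T2, g1, g2, g3, g4, _, _⟩ := fan_disc d1 (d2 _ hT.pl.bd) hvl
    (adv' p0 (hT.pl.ar_adj i1) i5.symm) (by
    intro q hq1 hq2
    obtain ⟨m1, m2⟩ := adv q hq1
    obtain ⟨_, _, m3⟩ := (d4 p0 q).1 hq2
    have hpq' : Adj T p0 q := by
      rcases m3 with m3 | ⟨m3, _⟩ | ⟨_, _, m4⟩
      · exact m3
      · exact absurd m3.symm i7
      · exact absurd (hT.re _ _ m4 (ar_re hyxa).1 (ar_re i1).2) hnp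
    rcases hT.fc v p0 q (hT.pl.ar_adj i1) hpq' m1.symm with (h | h) | ⟨h, _⟩
    · exact Or.inl (d5 _ _ _ h hyv.symm i5.symm m2)
    · exact Or.inr (d5 _ _ _ h hyv.symm m2 i5.symm)
    · exact absurd h hv)
  -- the new digraph
  have hD1 : ∀ u w, D u w → u ≠ v → w ≠ v → Fil D v A u w := fun u w h h' h'' =>
    (f1 u w).2 (Or.inl ⟨h, h', h''⟩)
  have hadj1 : ∀ u w, Adj T u w → u ≠ y → w ≠ y → u ≠ v → w ≠ v → Adj T2 u w :=
    fun u w h m1 m2 m3 m4 => (g4 u w).2 ⟨m3, m4, Or.inl ((d4 u w).2 ⟨m1, m2, Or.inl h⟩)⟩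
  have hadjx : ∀ w, Adj T y w → w ≠ x → w ≠ v → Adj T2 x w := by
    intro w h m1 m2
    have hwy : w ≠ y := (adj_ne cx h).symm
    exact (g4 x w).2 ⟨hxv, m2, Or.inl ((d4 x w).2 ⟨hyx.symm, hwy, Or.inr (Or.inl ⟨rfl, m1, h⟩)⟩)⟩
  have hP : Pl T2 (Ct (Fil D v A) y x) [a, b, c] := by
    refine ⟨g1, g2 _ (d2 _ hT.pl.bd), ?_, ct_asymm has1 com1, ct_tri htr1 k1 k2⟩
    rintro u w ⟨hu, hw, huw, h | ⟨rfl, h⟩ | ⟨rfl, h⟩⟩
    · rcases (f1 u w).1 h with ⟨m1, m2, m3⟩ | ⟨rfl, rfl⟩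
      · exact hadj1 u w (hT.pl.adj _ _ m1) hu hw m2 m3
      · rcases hpq with ⟨rfl, rfl⟩ | ⟨rfl, rfl⟩
        · exact (g4 _ _).2 ⟨e4v, e1v, Or.inr (Or.inl ⟨rfl, e14, adv' _ (hT.pl.ar_adj i2) hw⟩)⟩
        · exact (g4 _ _).2 ⟨e4v, e1v,
            Or.inr (Or.inr ⟨rfl, e14.symm, adv' _ (hT.pl.ar_adj i2) hu⟩)⟩
    · obtain ⟨m1, m2⟩ := (fy w).1 h
      exact hadjx w (hT.pl.adj _ _ m1) huw.symm m2
    · obtain ⟨m1, m2⟩ := (gy u).1 h
      exact (hadjx u (hT.pl.adj _ _ m1).symm huw m2).symm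
  have direct : ∀ u w, D u w → u ≠ v → w ≠ v → u ≠ y → w ≠ y → Ct (Fil D v A) y x u w := by
    intro u w h m1 m2 m3 m4
    refine ⟨m3, m4, ?_, Or.inl (hD1 u w h m1 m2)⟩
    rintro rfl
    exact irr _ h
  have dfrom : ∀ w, D y w → w ≠ v → w ≠ x → Ct (Fil D v A) y x x w := by
    intro w h m1 m2
    refine ⟨hyx.symm, ?_, m2.symm, Or.inr (Or.inl ⟨rfl, (fy w).2 ⟨h, m1⟩⟩)⟩
    rintro rfl
    exact irr _ h
  have dto : ∀ u, D u y → u ≠ v → u ≠ x → Ct (Fil D v A) y x u x := by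
    intro u h m1 m2
    refine ⟨?_, hyx.symm, m2, Or.inr (Or.inr ⟨rfl, (gy u).2 ⟨h, m1⟩⟩)⟩
    rintro rfl
    exact irr _ h
  refine reduce hM hP ?_ ?_ ?_
  · intro u w hu hw h
    exact direct u w h (hvTr u hu) (hvTr w hw) (hyTr u hu) (hyTr w hw)
  · refine Set.ncard_lt_ncard ?_ hT.pl.re_fin
    refine ⟨?_, fun h => ?_⟩
    · have key : ∀ u w, Ct (Fil D v A) y x u w → Re D u ∧ Re D w := by
        rintro u w ⟨_, _, _, h | ⟨rfl, h⟩ | ⟨rfl, h⟩⟩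
        · rcases (f1 u w).1 h with ⟨m1, _⟩ | ⟨rfl, rfl⟩
          · exact ⟨⟨w, Or.inl m1⟩, ⟨u, Or.inr m1⟩⟩
          · exact ⟨⟨v, Or.inr h4⟩, ⟨v, Or.inl h1⟩⟩
        · exact ⟨(ar_re hyxa).2, ⟨y, Or.inr ((fy w).1 h).1⟩⟩
        · exact ⟨⟨y, Or.inl ((gy u).1 h).1⟩, (ar_re hyxa).2⟩
      rintro u ⟨w, h | h⟩
      · exact (key u w h).1
      · exact (key w u h).2
    · obtain ⟨w, k | k⟩ := h (ar_re hyxa).1
      · exact k.1 rfl
      · exact k.2.1 rfl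
  · intro O hO hE
    have hmp : Ex O x x1 := by
      rcases hxy with ⟨rfl, rfl⟩ | ⟨rfl, rfl⟩
      · exact hE _ _ (dfrom x1 h21 e1v hx1.symm)
      · exact hE _ _ (direct _ _ h21 e2v e1v e23 e13)
    have ham : Ex O x4 x := by
      rcases hxy with ⟨rfl, rfl⟩ | ⟨rfl, rfl⟩
      · exact hE _ _ (direct _ _ h43 e4v e3v e24.symm e23.symm)
      · exact hE _ _ (dto x4 h43 e4v hx4.symm)
    have hap : Ex O x4 x1 := hE _ _ ⟨hy4.symm, hy1.symm, e14.symm, Or.inl ((f1 _ _).2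
      (Or.inr ⟨rfl, rfl⟩))⟩
    have hin : ∀ u, D u v → u = x1 ∨ u = x2 := by
      intro u hu
      rcases (hN u).1 (Or.inr hu) with rfl | rfl | rfl | rfl
      · exact Or.inl rfl
      · exact Or.inr rfl
      · exact absurd h3 (has _ _ hu)
      · exact absurd h4 (has _ _ hu)
    have hout : ∀ u, D v u → u = x3 ∨ u = x4 := by
      intro u hu
      rcases (hN u).1 (Or.inl hu) with rfl | rfl | rfl | rfl
      · exact absurd h1 (has _ _ hu)
      · exact absurd h2 (has _ _ hu)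
      · exact Or.inl rfl
      · exact Or.inr rfl
    obtain ⟨e, he⟩ := x1_ord (q := x2) (b := x3) hO hmp ham hap hin hout
    -- the twin
    obtain ⟨O', o1, o2, o3, o4⟩ : ∃ O' : Fin 3 → V → V → Prop, (∀ i, STO (O' i)) ∧
        (∀ i u w, u ≠ y → w ≠ y → (O' i u w ↔ O i u w)) ∧
        (∀ i z, z ≠ y → z ≠ x → (O' i z y ↔ O i z x) ∧ (O' i y z ↔ O i x z)) ∧
        (∀ i, (O' i x3 x2 ↔ i = e) ∧ (O' i x2 x3 ↔ i ≠ e)) := by
      rcases hxy with ⟨rfl, rfl⟩ | ⟨rfl, rfl⟩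
      · obtain ⟨O', o1, o2, o3, o4⟩ := twin hO hyx (fun i => i = e)
        exact ⟨O', o1, o2, o3, o4⟩
      · obtain ⟨O', o1, o2, o3, o4⟩ := twin hO hyx (fun i => i ≠ e)
        refine ⟨O', o1, o2, o3, fun i => ⟨?_, (o4 i).1⟩⟩
        rw [(o4 i).2, not_not]
    have rel : ∀ z, z ≠ y → z ≠ x → ∀ u, (u = x2 ∨ u = x3) → ∀ i,
        (O' i z u ↔ O i z x) ∧ (O' i u z ↔ O i x z) := by
      intro z hz1 hz2 u hu i
      have hu' : u = y ∨ u = x := by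
        rcases hxy with ⟨rfl, rfl⟩ | ⟨rfl, rfl⟩
        · exact hu
        · exact hu.symm
      rcases hu' with rfl | rfl
      · exact o3 i z hz1 hz2
      · exact ⟨o2 i z _ hz1 hyx.symm, o2 i _ z hyx.symm hz1⟩
    obtain ⟨P, c1, c2, c3⟩ := he O' o1
      (fun i => ⟨o2 i x1 x4 hy1.symm hy4.symm, o2 i x4 x1 hy4.symm hy1.symm⟩)
      (rel x1 hy1.symm hx1.symm x2 (Or.inl rfl)) (rel x1 hy1.symm hx1.symm x3 (Or.inr rfl))
      (rel x4 hy4.symm hx4.symm x2 (Or.inl rfl)) (rel x4 hy4.symm hx4.symm x3 (Or.inr rfl)) o4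
    have hE' : ∀ u w, H21.G4.Del D v u w → Ex O' u w := by
      rintro u w ⟨h, hu, hw⟩
      have huw : u ≠ w := by rintro rfl; exact irr _ h
      by_cases e1 : u = y
      · subst e1
        by_cases e2 : w = x
        · subst e2
          rcases hxy with ⟨rfl, rfl⟩ | ⟨rfl, rfl⟩
          · exact ⟨e, (o4 e).1.2 rfl, fun j hj => (o4 j).2.2 hj⟩
          · exact absurd h (has _ _ h23)
        · exact ex_move (fun i => (o3 i w huw.symm e2).2) (fun i => (o3 i w huw.symm e2).1)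
            (hE _ _ (dfrom w h hw e2))
      · by_cases e2 : w = y
        · subst e2
          by_cases e3 : u = x
          · subst e3
            rcases hxy with ⟨rfl, rfl⟩ | ⟨rfl, rfl⟩
            · exact absurd h (has _ _ h23)
            · exact ⟨e, (o4 e).1.2 rfl, fun j hj => (o4 j).2.2 hj⟩
          · exact ex_move (fun i => (o3 i u e1 e3).1) (fun i => (o3 i u e1 e3).2)
              (hE _ _ (dto u h hu e3))
        · exact Ex.congr (fun i => ⟨o2 i u w e1 e2, o2 i w u e2 e1⟩)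
            (hE _ _ (direct u w h hu hw e1 e2))
    obtain ⟨O2, b1, b2, b3⟩ := insert_ex (D := D) (S := Tr a b c) o1 (irr v) hE' hv P c1 c2 c3
    exact ⟨O2, b1, b2, fun i u w hu hw =>
      (b3 i u w hu hw).trans (o2 i u w (hyTr u hu) (hyTr w hw))⟩

end Pool.Agent.H65.G4
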