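import Pool.Agent.H65.G4.Pc2
import Pool.Agent.H55.G4.Ext

/-!
# Path contraction: the order side

`pc_lift` : the hypothesis `hlift` of `pc_fill` for `w = s` from one finite check.
`pre_of` : the hypothesis `Pre` of the check from a list of arcs and a list of 2-paths.
-/

set_option autoImplicit false

namespace Pool.Agent.H65.G4

open Relation Pool.Agent.H13.DA Pool.Agent.H72.G4 Pool.Agent.H21.G4 Pool.Agent.H13.G4
  Pool.Agent.H55.G4

variable {V : Type*} {T : Finset (V × V × V)} {D : V → V → Prop} {a b c : V}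

/-- the masks of the survivors only use the arcs `E` and the pairs `F` -/
def okE (E F : List (ℕ × ℕ)) : ℕ → List (ℕ × ℕ × ℕ × ℕ) → Bool
  | _, [] => true
  | N, (I, O, U, W) :: L =>
    Nat.blt I (2 ^ N) && Nat.blt O (2 ^ N) && Nat.blt U (2 ^ N) && Nat.blt W (2 ^ N) &&
    ((List.range N).all fun x =>
      (!(I.testBit x) || E.contains (x, N)) && (!(O.testBit x) || E.contains (N, x)) &&
      (!(U.testBit x) || F.contains (x, N)) && (!(W.testBit x) || F.contains (N, x))) &&
    okE E F (N + 1) L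

theorem pre_of {n : ℕ → V} {Q : Fin 3 → V → V → Prop} {E F : List (ℕ × ℕ)}
    (hE : ∀ p ∈ E, Ex Q (n p.1) (n p.2)) (hF : ∀ p ∈ F, ∃ i, Q i (n p.1) (n p.2))
    (L : List (ℕ × ℕ × ℕ × ℕ)) : ∀ N, okE E F N L = true → Pre n N L Q := by
  induction L with
  | nil => intro N _; trivial
  | cons t L ih =>
    obtain ⟨I, O, U, W⟩ := t
    intro N h
    unfold okE at h
    simp only [Bool.and_eq_true, List.all_eq_true, List.mem_range, Bool.or_eq_true,
      Bool.not_eq_true', List.contains_iff_mem] at h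
    obtain ⟨⟨⟨⟨⟨h1, h2⟩, h3⟩, h4⟩, h5⟩, h6⟩ := h
    have lt : ∀ {m x : ℕ}, Nat.blt m (2 ^ N) = true → m.testBit x = true → x < N := by
      intro m x k1 k2
      have k1' : m < 2 ^ N := by
        rw [Nat.blt_eq] at k1
        exact k1
      exact tb_lt k1' k2
    refine ⟨fun x hx => ?_, fun x hx => ?_, fun x hx => ?_, fun x hx => ?_, ih (N + 1) h6⟩
    · have k := lt h1 hx
      refine ⟨k, hE (x, N) ?_⟩
      rcases (h5 x k).1.1.1 with k' | k'
      · rw [hx] at k'; exact absurd k' (by decide)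
      · exact k'
    · have k := lt h2 hx
      refine ⟨k, hE (N, x) ?_⟩
      rcases (h5 x k).1.1.2 with k' | k'
      · rw [hx] at k'; exact absurd k' (by decide)
      · exact k'
    · have k := lt h3 hx
      refine ⟨k, hF (x, N) ?_⟩
      rcases (h5 x k).1.2 with k' | k'
      · rw [hx] at k'; exact absurd k' (by decide)
      · exact k'
    · have k := lt h4 hx
      refine ⟨k, hF (N, x) ?_⟩
      rcases (h5 x k).2 with k' | k'
      · rw [hx] at k'; exact absurd k' (by decide)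
      · exact k'

/-- **The order side of a path contraction** with `w = s`. Names: `n 0 = s`, then the other
survivors, then `o`, `i`, `u`. -/
theorem pc_lift {u o s i d : V} (hT : Ts T D a b c) (h : Qd T D u o s i d)
    {L : List (ℕ × ℕ × ℕ × ℕ)} {I J : ℕ}
    (hc : chk L [St.twin 0 true, St.twin 0 false, St.free I J] = true) (hL : 0 < L.length)
    {n : ℕ → V} (hn : ∀ x y, x < L.length + 3 → y < L.length + 3 → n x = n y → x = y)
    (n0 : n 0 = s) (no : n L.length = o) (ni : n (L.length + 1) = i) (nu : n (L.length + 2) = u)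
    (hI : ∀ x, D x u → ∃ j, j < L.length + 2 ∧ n j = x ∧ I.testBit j = true)
    (hJ : ∀ x, D u x → ∃ j, j < L.length + 2 ∧ n j = x ∧ J.testBit j = true)
    {A : V → V → Prop} {O : Fin 3 → V → V → Prop} (hO : ∀ i, STO (O i))
    (hE : ∀ x y, Imd (rp (Wq o s i d) s) (Fil D u A) x y → Ex O x y) (hp : Pre n 0 L O) :
    ∃ O' : Fin 3 → V → V → Prop, (∀ i, STO (O' i)) ∧ (∀ x y, D x y → Ex O' x y) ∧
      ∀ j x y, x ≠ u → y ≠ u → x ≠ o → y ≠ o → x ≠ i → y ≠ i → (O' j x y ↔ O j x y) := by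
  obtain ⟨e1, e2, e3, e4, e5, e6, e7, e8, e9, e10⟩ := h.ne hT
  obtain ⟨Q, q1, q2, q3⟩ := conf L _ hc n hn ⟨hL, by omega, trivial⟩ O hO hp
  obtain ⟨a1, a2, b1, b2, c1, c2, -⟩ := q3
  simp only [cond_true, cond_false, List.length_cons, List.length_nil] at a1 a2 b1 b2 c1 c2
  rw [n0, no] at a1
  rw [n0, ni] at b1
  -- equality off the three vertices
  have same : ∀ j x y, x ≠ u → y ≠ u → x ≠ o → y ≠ o → x ≠ i → y ≠ i → (Q j x y ↔ O j x y) := by
    intro j x y h1 h2 h3 h4 h5 h6
    refine q2 j x y fun k k1 k2 => ?_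
    have k3 : k = L.length ∨ k = L.length + 1 ∨ k = L.length + 2 := by
      simp only [List.length_cons, List.length_nil] at k2
      omega
    rcases k3 with rfl | rfl | rfl
    · rw [no]; exact ⟨h3, h4⟩
    · rw [ni]; exact ⟨h5, h6⟩
    · rw [nu]; exact ⟨h1, h2⟩
  -- twins
  have tw : ∀ j z, z ≠ s → z ≠ o → z ≠ i → z ≠ u →
      (Q j z o ↔ Q j z s) ∧ (Q j o z ↔ Q j s z) := by
    intro j z h1 h2 h3 h4
    have := a2 j z (by rw [n0]; exact h1) (fun k k1 k2 => by
      have k3 : k = L.length ∨ k = L.length + 1 ∨ k = L.length + 2 := by omega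
      rcases k3 with rfl | rfl | rfl
      · rw [no]; exact h2
      · rw [ni]; exact h3
      · rw [nu]; exact h4)
    rwa [n0, no] at this
  have ti : ∀ j z, z ≠ s → z ≠ i → z ≠ u →
      (Q j z i ↔ Q j z s) ∧ (Q j i z ↔ Q j s z) := by
    intro j z h1 h3 h4
    have := b2 j z (by rw [n0]; exact h1) (fun k k1 k2 => by
      have k3 : k = L.length + 1 ∨ k = L.length + 2 := by omega
      rcases k3 with rfl | rfl
      · rw [ni]; exact h3
      · rw [nu]; exact h4)
    rwa [n0, ni] at this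
  have has := hT.pl.asymm
  have htr := hT.pl.tri
  have nre : ∀ {x y}, D x y → x ≠ d ∧ y ≠ d := by
    intro x y k
    exact ⟨fun e => h.nd ⟨y, Or.inl (e ▸ k)⟩, fun e => h.nd ⟨x, Or.inr (e ▸ k)⟩⟩
  have fix : ∀ {x}, x ≠ d → x ≠ o → x ≠ i → rp (Wq o s i d) s x = x := by
    intro x h1 h2 h3
    by_cases k : x = s
    · rw [k]
      exact rp_in (Or.inr (Or.inl rfl))
    · apply rp_out
      rintro (k' | k' | k' | k')
      · exact h2 k'
      · exact k k'
      · exact h3 k'
      · exact h1 k'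
  have Fi : ∀ {x y}, D x y → x ≠ u → y ≠ u → Fil D u A x y := fun k h1 h2 => Or.inl ⟨k, h1, h2⟩
  have fo : rp (Wq o s i d) s o = s := rp_in (Or.inl rfl)
  have fi : rp (Wq o s i d) s i = s := rp_in (Or.inr (Or.inr (Or.inl rfl)))
  have exi : ∀ {x y x' y'}, (∀ j, (Q j x y ↔ O j x' y') ∧ (Q j y x ↔ O j y' x')) →
      Ex O x' y' → Ex Q x y := by
    intro x y x' y' k1 k2
    obtain ⟨j, j1, j2⟩ := k2
    exact ⟨j, (k1 j).2.2 j1, fun j' hj => (k1 j').1.2 (j2 j' hj)⟩
  have s2 : ∀ {x y}, x ≠ u → y ≠ u → x ≠ o → y ≠ o → x ≠ i → y ≠ i → ∀ j,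
      (Q j x y ↔ O j x y) ∧ (Q j y x ↔ O j y x) := fun h1 h2 h3 h4 h5 h6 j =>
    ⟨same j _ _ h1 h2 h3 h4 h5 h6, same j _ _ h2 h1 h4 h3 h6 h5⟩
  refine ⟨Q, q1, ?_, same⟩
  intro x y hxy
  obtain ⟨dx, dy⟩ := nre hxy
  have irr : ∀ x, ¬ D x x := fun x k => has x x k k
  by_cases xu : x = u
  · subst xu
    obtain ⟨j, j1, j2, j3⟩ := hJ y hxy
    have := c2 j j1 j3
    rwa [show L.length + 1 + 1 = L.length + 2 from rfl, nu, j2] at this
  by_cases yu : y = u
  · subst yu
    obtain ⟨j, j1, j2, j3⟩ := hI x hxy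
    have := c1 j j1 j3
    rwa [show L.length + 1 + 1 = L.length + 2 from rfl, nu, j2] at this
  by_cases xo : x = o
  · subst xo
    by_cases ys : y = s
    · subst ys; exact a1
    · by_cases yi : y = i
      · subst yi
        exact absurd h.iu (fun k => htr _ _ _ h.uo hxy k)
      · have yo : y ≠ x := fun e => irr x (e ▸ hxy)
        have k := hE s y ⟨fun e => ys e.symm, x, y, fo, fix dy yo yi, Fi hxy xu yu⟩
        refine exi (fun j => ?_) k
        rw [(tw j y ys yo yi yu).2, (tw j y ys yo yi yu).1]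
        exact s2 (fun e => e2 e.symm) yu e5.symm yo e8 yi j
  by_cases xi : x = i
  · subst xi
    by_cases ys : y = s
    · subst ys; exact absurd hxy (has _ _ h.si)
    · by_cases yo : y = o
      · subst yo
        exact absurd hxy (fun k => htr _ _ _ h.os h.si k)
      · have yi : y ≠ x := fun e => irr x (e ▸ hxy)
        have k := hE s y ⟨fun e => ys e.symm, x, y, fi, fix dy yo yi, Fi hxy xu yu⟩
        refine exi (fun j => ?_) k
        rw [(ti j y ys yi yu).2, (ti j y ys yi yu).1]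
        exact s2 (fun e => e2 e.symm) yu e5.symm yo e8 yi j
  by_cases yo : y = o
  · subst yo
    by_cases xs : x = s
    · subst xs; exact absurd hxy (has _ _ h.os)
    · have k := hE x s ⟨xs, x, y, fix dx xo xi, fo, Fi hxy xu yu⟩
      refine exi (fun j => ?_) k
      rw [(tw j x xs xo xi xu).1, (tw j x xs xo xi xu).2]
      exact s2 xu (fun e => e2 e.symm) xo e5.symm xi e8 j
  by_cases yi : y = i
  · subst yi
    by_cases xs : x = s
    · subst xs; exact b1
    · have k := hE x s ⟨xs, x, y, fix dx xo xi, fi, Fi hxy xu yu⟩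
      refine exi (fun j => ?_) k
      rw [(ti j x xs xi xu).1, (ti j x xs xi xu).2]
      exact s2 xu (fun e => e2 e.symm) xo e5.symm xi e8 j
  · have hne : x ≠ y := fun e => irr x (e ▸ hxy)
    have k := hE x y ⟨hne, x, y, fix dx xo xi, fix dy yo yi, Fi hxy xu yu⟩
    exact exi (s2 xu yu xo yo xi yi) k

end Pool.Agent.H65.G4
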