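import Pool.Agent.H65.G4.Lift
import Pool.Agent.H72.G4.Fill

/-!
# Path contraction: the new digraph has no directed cycle of length two or three

`Pcb` : the facts of the old digraph; `ears` : the conditions on the new arcs reduce to facts on
named vertices.
-/

set_option autoImplicit false

namespace Pool.Agent.H65.G4

open Relation Pool.Agent.H13.DA Pool.Agent.H72.G4 Pool.Agent.H21.G4 Pool.Agent.H13.G4
  Pool.Agent.H55.G4

variable {V : Type*} [DecidableEq V] {T : Finset (V × V × V)} {D : V → V → Prop} {a b c : V}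

/-- the facts of the old digraph -/
structure Pcb (T : Finset (V × V × V)) (D : V → V → Prop) (u o s i d : V) : Prop where
  n1 : ∀ q, Adj T o q → Adj T i q → q = u ∨ q = s ∨ q = d
  n2 : ∀ q, Adj T u q → Adj T s q → q = o ∨ q = i ∨ q = d
  e2 : ∀ x y z, (x = o ∨ x = s ∨ x = i) → (z = o ∨ z = s ∨ z = i) → ¬ Wq o s i d y → y ≠ u →
    D x y → D y z → False
  e3 : ∀ x y z t, (x = o ∨ x = s ∨ x = i) → (t = o ∨ t = s ∨ t = i) → ¬ Wq o s i d y →
    ¬ Wq o s i d z → y ≠ u → z ≠ u → D x y → D y z → D z t → False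

/-- `x'` is in the fibre of the name `x` -/
def Fb (o s i : V) (x x' : V) : Prop := x' = x ∨ (x = s ∧ (x' = o ∨ x' = i))

/-- the names: `s` and the neighbours of `u` except `o, i` -/
def Nm (D : V → V → Prop) (u o s i : V) (x : V) : Prop := x = s ∨ (Ar D u x ∧ x ≠ o ∧ x ≠ i)

/-- an arc between the names `x` and `y` in the new digraph -/
def Mm (D : V → V → Prop) (o s i : V) (A : V → V → Prop) (x y : V) : Prop :=
  A x y ∨ ∃ x' y', Fb o s i x x' ∧ Fb o s i y y' ∧ D x' y'

section

variable {u o s i d : V}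

/-- **The new digraph has no directed cycle of length two or three.** -/
theorem ears (hT : Ts T D a b c) (h : Qd T D u o s i d) (hg : Good T D u) (hb : Pcb T D u o s i d)
    {A : V → V → Prop}
    (hA0 : ∀ x y, A x y → Nm D u o s i x ∧ Nm D u o s i y ∧ x ≠ y)
    (hA1 : ∀ x y, A x y → ¬ A y x ∧ ∀ x' y', Fb o s i x x' → Fb o s i y y' → ¬ D y' x')
    (hA2 : ∀ x y m, A x y → Nm D u o s i m → m ≠ x → m ≠ y → Mm D o s i A y m →
      Mm D o s i A m x → False)
    (hA3 : ∀ x y, A x y → ∀ x' y', Fb o s i x x' → Fb o s i y y' → D x' u → D u y' →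
      ¬ ∃ e, ¬ Re D e ∧ Adj T e u ∧ Adj T e x' ∧ Adj T e y')
    (hA4 : ∀ x m, A s x → ¬ Wq o s i d m → m ≠ u → D x m → D m s → False)
    (hA5 : ∀ x m, A x s → ¬ Wq o s i d m → m ≠ u → D s m → D m x → False) :
    (∀ x y, Imd (rp (Wq o s i d) s) (Fil D u A) x y →
      ¬ Imd (rp (Wq o s i d) s) (Fil D u A) y x) ∧
    ∀ x y z, Imd (rp (Wq o s i d) s) (Fil D u A) x y →
      Imd (rp (Wq o s i d) s) (Fil D u A) y z → ¬ Imd (rp (Wq o s i d) s) (Fil D u A) z x := by
  have has := hT.pl.asymm
  have htr := hT.pl.tri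
  have irr : ∀ x, ¬ D x x := fun x k => has x x k k
  obtain ⟨e1, e2, e3, e4, e5, e6, e7, e8, e9, e10⟩ := h.ne hT
  have hsW : Wq o s i d s := Or.inr (Or.inl rfl)
  have nre : ∀ {x y}, D x y → x ≠ d ∧ y ≠ d := by
    intro x y k
    exact ⟨fun e => h.nd ⟨y, Or.inl (e ▸ k)⟩, fun e => h.nd ⟨x, Or.inr (e ▸ k)⟩⟩
  -- real vertices of `W`
  have wr : ∀ {x}, Wq o s i d x → x ≠ d → x = o ∨ x = s ∨ x = i := by
    rintro x (k | k | k | k) hx
    · exact Or.inl k
    · exact Or.inr (Or.inl k)
    · exact Or.inr (Or.inr k)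
    · exact absurd k hx
  have wf : ∀ {x}, Wq o s i d x → x ≠ d → Fb o s i s x := by
    intro x hx hx2
    rcases wr hx hx2 with k | k | k
    · exact Or.inr ⟨rfl, Or.inl k⟩
    · exact Or.inl k
    · exact Or.inr ⟨rfl, Or.inr k⟩
  -- names in `W`
  have nw : ∀ {x}, Nm D u o s i x → Wq o s i d x → x = s := by
    rintro x (k | ⟨k, k1, k2⟩) (g | g | g | g)
    · exact k
    · exact k
    · exact k
    · exact k
    · exact absurd g k1
    · exact g
    · exact absurd g k2
    · subst g
      exact absurd ⟨u, k.symm⟩ h.nd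
  have nn : ∀ {x}, Nm D u o s i x → x ≠ s → Ar D u x ∧ x ≠ o ∧ x ≠ i := by
    rintro x (k | k) hx
    · exact absurd k hx
    · exact k
  have nW : ∀ {x}, Nm D u o s i x → ¬ Wq o s i d x → Ar D u x ∧ x ≠ o ∧ x ≠ i := by
    intro x hx hx2
    exact nn hx (fun e => hx2 (e ▸ hsW))
  have fr : ∀ x, Fb o s i x x := fun x => Or.inl rfl
  have Auo : Ar D u o := Or.inl h.uo
  have Aui : Ar D u i := Or.inr h.iu
  -- a directed path of length two between neighbours of `u`
  have path : ∀ {p q z}, Ar D u p → Ar D u q → p ≠ q → ¬ Ar D p q → z ≠ u → D p z → D z q →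
      Ar D u z ∨ (D q u ∧ D u p ∧ ∃ e, ¬ Re D e ∧ Adj T e u ∧ Adj T e q ∧ Adj T e p) := by
    intro p q z h1 h2 h3 h4 h5 h6 h7
    rcases hg p q z h1 h2 h3 h4 h5 (Or.inl h6) (Or.inr h7) with k | ⟨e, k1, k2, k3, k4, -⟩
    · exact Or.inl k
    · rcases good_common hT hg h1 h2 h3 h4 h5 (Or.inl h6) (Or.inr h7) with k | k | k
      · exact Or.inl k
      · exact absurd k.2.2.2 (has _ _ h6)
      · exact Or.inr ⟨k.1, k.2.1, e, k1, k2, k4, k3⟩
  constructor
  · refine imd_asymm hsW ?_ ?_
    · rintro x y (h1 | h1) (h2 | h2)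
      · exact has _ _ h1.1 h2.1
      · exact (hA1 _ _ h2).2 _ _ (fr _) (fr _) h1.1
      · exact (hA1 _ _ h1).2 _ _ (fr _) (fr _) h2.1
      · exact (hA1 _ _ h1).1 h2
    · rintro x y z hx hy hz (h1 | h1) (h2 | h2)
      · exact hb.e2 x y z (wr hx (nre h1.1).1) (wr hz (nre h2.1).2) hy h1.2.2 h1.1 h2.1
      · obtain ⟨k1, k2, k3⟩ := hA0 _ _ h2
        have ez := nw k2 hz
        subst ez
        exact (hA1 _ _ h2).2 _ _ (fr _) (wf hx (nre h1.1).1) h1.1
      · obtain ⟨k1, k2, k3⟩ := hA0 _ _ h1
        have ex := nw k1 hx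
        subst ex
        exact (hA1 _ _ h1).2 _ _ (wf hz (nre h2.1).2) (fr _) h2.1
      · obtain ⟨k1, k2, k3⟩ := hA0 _ _ h1
        obtain ⟨k4, k5, k6⟩ := hA0 _ _ h2
        have ex := nw k1 hx
        have ez := nw k5 hz
        subst ex
        subst ez
        exact (hA1 _ _ h1).1 h2
  · refine imd_tri hsW ?_ ?_
    · -- a triangle with the new arc `x y`
      have key : ∀ x y z, A x y → Fil D u A y z → Fil D u A z x → False := by
        intro x y z h1 h2 h3
        obtain ⟨k1, k2, k3⟩ := hA0 _ _ h1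
        have m2 : Mm D o s i A y z := by
          rcases h2 with h2 | h2
          · exact Or.inr ⟨y, z, fr _, fr _, h2.1⟩
          · exact Or.inl h2
        have m3 : Mm D o s i A z x := by
          rcases h3 with h3 | h3
          · exact Or.inr ⟨z, x, fr _, fr _, h3.1⟩
          · exact Or.inl h3
        have nzx : z ≠ x := by
          rintro rfl
          rcases h3 with h3 | h3
          · exact irr _ h3.1
          · exact (hA1 _ _ h3).1 h3
        have nzy : z ≠ y := by
          rintro rfl
          rcases h2 with h2 | h2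
          · exact irr _ h2.1
          · exact (hA1 _ _ h2).1 h2
        by_cases hz : Nm D u o s i z
        · exact hA2 x y z h1 hz nzx nzy m2 m3
        · rcases h2 with h2 | h2
          swap
          · exact hz (hA0 _ _ h2).2.1
          rcases h3 with h3 | h3
          swap
          · exact hz (hA0 _ _ h3).1
          obtain ⟨h2, -, zu⟩ := h2
          obtain ⟨h3, -, -⟩ := h3
          have zs : z ≠ s := fun e => hz (Or.inl e)
          by_cases zo : z = o
          · subst zo
            by_cases ys : y = s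
            · subst ys; exact has _ _ h2 h.os
            by_cases xs : x = s
            · subst xs
              exact (hA1 _ _ h1).2 z y (Or.inr ⟨rfl, Or.inl rfl⟩) (fr _) h2
            · exact hA2 x y s h1 (Or.inl rfl) (Ne.symm xs) (Ne.symm ys)
                (Or.inr ⟨y, z, fr _, Or.inr ⟨rfl, Or.inl rfl⟩, h2⟩)
                (Or.inr ⟨z, x, Or.inr ⟨rfl, Or.inl rfl⟩, fr _, h3⟩)
          by_cases zi : z = i
          · subst zi
            by_cases xs : x = s
            · subst xs; exact has _ _ h3 h.si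
            by_cases ys : y = s
            · subst ys
              exact (hA1 _ _ h1).2 x z (fr _) (Or.inr ⟨rfl, Or.inr rfl⟩) h3
            · exact hA2 x y s h1 (Or.inl rfl) (Ne.symm xs) (Ne.symm ys)
                (Or.inr ⟨y, z, fr _, Or.inr ⟨rfl, Or.inr rfl⟩, h2⟩)
                (Or.inr ⟨z, x, Or.inr ⟨rfl, Or.inr rfl⟩, fr _, h3⟩)
          have zW : ¬ Wq o s i d z := by
            rintro (k | k | k | k)
            · exact zo k
            · exact zs k
            · exact zi k
            · exact (nre h2).2 k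
          by_cases ys : y = s
          · subst ys
            exact hA5 x z h1 zW zu h2 h3
          by_cases xs : x = s
          · subst xs
            exact hA4 y z h1 zW zu h2 h3
          have gy := nn k2 ys
          have gx := nn k1 xs
          have nxy : ¬ Ar D y x := by
            rintro (k | k)
            · exact (hA1 _ _ h1).2 _ _ (fr _) (fr _) k
            · exact htr _ _ _ k h2 h3
          rcases path gy.1 gx.1 (Ne.symm k3) nxy zu h2 h3 with k | ⟨g1, g2, g3⟩
          · exact hz (Or.inr ⟨k, zo, zi⟩)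
          · exact hA3 x y h1 x y (fr _) (fr _) g1 g2 g3
      intro x y z h1 h2 h3
      rcases h1 with h1 | h1
      · rcases h2 with h2 | h2
        · rcases h3 with h3 | h3
          · exact htr _ _ _ h1.1 h2.1 h3.1
          · exact key z x y h3 (Or.inl h1) (Or.inl h2)
        · exact key y z x h2 h3 (Or.inl h1)
      · exact key x y z h1 h2 h3
    · intro x y z t hx hy hz ht h1 h2 h3
      have yu : y ≠ u := by
        rintro rfl
        rcases h1 with h1 | h1
        · exact h1.2.2 rfl
        · rcases (hA0 _ _ h1).2.1 with k | ⟨k, _⟩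
          · exact e2 k
          · exact (ar_ne hT.pl.disc.cx hT.pl k) rfl
      have zu : z ≠ u := by
        rintro rfl
        rcases h3 with h3 | h3
        · exact h3.2.1 rfl
        · rcases (hA0 _ _ h3).1 with k | ⟨k, _⟩
          · exact e2 k
          · exact (ar_ne hT.pl.disc.cx hT.pl k) rfl
      have ys : y ≠ s := fun e => hy (e ▸ hsW)
      have zs : z ≠ s := fun e => hz (e ▸ hsW)
      have yo : y ≠ o := fun e => hy (e ▸ Or.inl rfl)
      have zo : z ≠ o := fun e => hz (e ▸ Or.inl rfl)
      have yi : y ≠ i := fun e => hy (e ▸ Or.inr (Or.inr (Or.inl rfl)))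
      have zi : z ≠ i := fun e => hz (e ▸ Or.inr (Or.inr (Or.inl rfl)))
      have m2 : Mm D o s i A y z := by
        rcases h2 with h2 | h2
        · exact Or.inr ⟨y, z, fr _, fr _, h2.1⟩
        · exact Or.inl h2
      have m1 : Mm D o s i A s y := by
        rcases h1 with h1 | h1
        · exact Or.inr ⟨x, y, wf hx (nre h1.1).1, fr _, h1.1⟩
        · have ex := nw (hA0 _ _ h1).1 hx
          subst ex
          exact Or.inl h1
      have m3 : Mm D o s i A z s := by
        rcases h3 with h3 | h3
        · exact Or.inr ⟨z, t, fr _, wf ht (nre h3.1).2, h3.1⟩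
        · have et := nw (hA0 _ _ h3).2.1 ht
          subst et
          exact Or.inl h3
      have nyz : y ≠ z := by
        rintro rfl
        rcases h2 with h2 | h2
        · exact irr _ h2.1
        · exact (hA1 _ _ h2).1 h2
      rcases h2 with h2 | h2
      swap
      · exact hA2 y z s h2 (Or.inl rfl) ys.symm zs.symm m3 m1
      obtain ⟨h2, -, -⟩ := h2
      rcases h1 with h1 | h1
      swap
      · -- the first arc is new
        have ex := nw (hA0 _ _ h1).1 hx
        subst ex
        by_cases hzn : Nm D u o x i z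
        · exact hA2 x y z h1 hzn zs nyz.symm m2 m3
        rcases h3 with h3 | h3
        swap
        · exact hzn (hA0 _ _ h3).1
        obtain ⟨h3, -, -⟩ := h3
        have gy := nn (hA0 _ _ h1).2.1 ys
        rcases wr ht (nre h3).2 with rfl | rfl | rfl
        · have nyo : ¬ Ar D y t := by
            rintro (k | k)
            · exact (hA1 _ _ h1).2 t y (Or.inr ⟨rfl, Or.inl rfl⟩) (fr _) k
            · exact htr _ _ _ k h2 h3
          rcases path gy.1 Auo yo nyo zu h2 h3 with k | ⟨g1, -, -⟩
          · exact hzn (Or.inr ⟨k, zo, zi⟩)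
          · exact has _ _ g1 h.uo
        · exact hA4 y z h1 hz zu h2 h3
        · have nyo : ¬ Ar D y t := by
            rintro (k | k)
            · exact (hA1 _ _ h1).2 t y (Or.inr ⟨rfl, Or.inr rfl⟩) (fr _) k
            · exact htr _ _ _ k h2 h3
          rcases path gy.1 Aui yi nyo zu h2 h3 with k | ⟨g1, g2, g3⟩
          · exact hzn (Or.inr ⟨k, zo, zi⟩)
          · exact hA3 x y h1 t y (Or.inr ⟨rfl, Or.inr rfl⟩) (fr _) g1 g2 g3
      obtain ⟨h1, -, -⟩ := h1
      rcases h3 with h3 | h3
      · exact hb.e3 x y z t (wr hx (nre h1).1) (wr ht (nre h3.1).2) hy hz yu zu h1 h2 h3.1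
      · -- the last arc is new
        have et := nw (hA0 _ _ h3).2.1 ht
        subst et
        by_cases hyn : Nm D u o t i y
        · exact hA2 z t y h3 hyn nyz ys m1 m2
        have gz := nn (hA0 _ _ h3).1 zs
        rcases wr hx (nre h1).1 with rfl | rfl | rfl
        · have nxz : ¬ Ar D x z := by
            rintro (k | k)
            · exact (hA1 _ _ h3).2 z x (fr _) (Or.inr ⟨rfl, Or.inl rfl⟩) k
            · exact htr _ _ _ k h1 h2
          rcases path Auo gz.1 zo.symm nxz yu h1 h2 with k | ⟨g1, g2, g3⟩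
          · exact hyn (Or.inr ⟨k, yo, yi⟩)
          · exact hA3 z t h3 z x (fr _) (Or.inr ⟨rfl, Or.inl rfl⟩) g1 g2 g3
        · exact hA5 z y h3 hy yu h1 h2
        · have nxz : ¬ Ar D x z := by
            rintro (k | k)
            · exact (hA1 _ _ h3).2 z x (fr _) (Or.inr ⟨rfl, Or.inr rfl⟩) k
            · exact htr _ _ _ k h1 h2
          rcases path Aui gz.1 zi.symm nxz yu h1 h2 with k | ⟨-, g2, -⟩
          · exact hyn (Or.inr ⟨k, yo, yi⟩)
          · exact has _ _ g2 h.iu

end

end Pool.Agent.H65.G4
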