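import Pool.Agent.H65.G4.Row
import Pool.Agent.H32.G4.Pcb
import Pool.Agent.H91.G4.Sym

/-!
# The rows from the engine
-/

set_option autoImplicit false

namespace Pool.Agent.H65.G4

open Relation Pool.Agent.H13.DA Pool.Agent.H72.G4 Pool.Agent.H21.G4 Pool.Agent.H13.G4
  Pool.Agent.H55.G4 Pool.Agent.H96.G4 Pool.Agent.H32.G4 Pool.Agent.H91.G4
  Pool.Agent.H80.G4

variable {V : Type*} {T X : Finset (V × V × V)} {D : V → V → Prop} {a b c : V} {Z : List V}

/-- the word -/
def wf (l : List CT) (k : ℕ) : CT := l.getD k CT.q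

/-- the directions, `b` = spoke `0` goes out -/
def dlf (l : List CT) (b : Bool) : ℕ → Bool
  | 0 => b
  | k + 1 => xor (dlf l b k) (wf l k).ch

/-- the check without the orders -/
def rowQ (m : ℕ) (W : ℕ → CT) (dl : ℕ → Bool) (A : List (ℕ × ℕ)) (md : Bool × ℕ)
    (L : List (ℕ × ℕ × ℕ × ℕ)) (I J : ℕ) : Bool :=
  Nat.ble 4 m && (mdwf m W md && (A.all (arcOK m W dl A md) && (Nat.beq (L.length + 1) m &&
    (uOK m dl I J && okF (ea m W dl A) (fa m W dl A) 0 L))))

theorem rowOK_of {m : ℕ} {W : ℕ → CT} {dl : ℕ → Bool} {A : List (ℕ × ℕ)} {md : Bool × ℕ}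
    {L : List (ℕ × ℕ × ℕ × ℕ)} {I J : ℕ} (h : rowQ m W dl A md L I J = true)
    (hc : chk L [St.twin 0 true, St.twin 0 false, St.free I J] = true) :
    rowOK m W dl A md L I J = true := by
  unfold rowQ at h
  unfold rowOK
  simp only [Bool.and_eq_true] at h ⊢
  obtain ⟨h1, h2, h3, h4, h5, h6⟩ := h
  exact ⟨h1, h2, h3, h4, h5, h6, hc⟩

theorem RN.congr {u : V} {m : ℕ} {Y : ℕ → V} {W W' : ℕ → CT} (h : RN T D u m Y W)
    (e : ∀ k, k < m → W k = W' k) : RN T D u m Y W' where
  inj := h.inj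
  nb := h.nb
  cor := fun k hk => e k hk ▸ h.cor k hk
  adj := by
    intro k l hk hl g
    rw [← e k hk, ← e l hl]
    exact h.adj k l hk hl g
  du := by
    intro k l d hk hl
    rw [← e k hk, ← e l hl]
    exact h.du k l d hk hl

variable [DecidableEq V]

/-- **A row from one check.** -/
theorem eng_row [Infinite V] {n : ℕ} {l : List CT} {bt : Bool} {A : List (ℕ × ℕ)} {md : Bool × ℕ}
    {L : List (ℕ × ℕ × ℕ × ℕ)} {I J : ℕ}
    (hOK : rowOK (n + 1) (wf l) (dlf l bt) A md L I J = true) {W : Fin (n + 1) → CT}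
    (hW : ∀ k : Fin (n + 1), W k = wf l k) : Row V n W 0 := by
  have hn : 3 ≤ n := by
    unfold rowOK at hOK
    rw [Bool.and_eq_true] at hOK
    have := Nat.le_of_ble_eq_true hOK.1
    omega
  have key : ∀ (T X : Finset (V × V × V)) (D : V → V → Prop) (a b c : V) (Z : List V) (u : V)
      (x : Fin (n + 1) → V), MCw T D a b c → Ts T D a b c → Ctx T X D a b c Z → In X D Z u →
      Rot T D u n x W → (bt = true → D u (x 0)) → (bt = false → D (x 0) u) →
      PCok T X D Z u x 0 := by
    intro T X D a b c Z u x hM hT hC hu R h0 h0' f d hd hadj hor i1 i2 i3 s1 s2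
    rw [zero_add] at hadj hor i3 s2
    have H := ctx_cx5 hM hT hC
    have huT := (in_inr hu).tr hT H
    have h1T := (in_inr i1).tr hT H
    have h3T := (in_inr i3).tr hT H
    have as := hT.pl.asymm
    have cx := hT.pl.disc.cx
    have R' : RN T D u (n + 1) (fun k => x (Fin.ofNat (n + 1) k)) (wf l) := by
      refine (rot_rn hT huT R (by omega)).congr fun k hk => ?_
      rw [hW]
      congr 1
      simp [Fin.ofNat, Nat.mod_eq_of_lt hk]
    have X0 : x (Fin.ofNat (n + 1) 0) = x 0 := rfl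
    have X1 : x (Fin.ofNat (n + 1) 1) = x 1 := by
      congr 1
    have hdir : Dir D u (n + 1) (fun k => x (Fin.ofNat (n + 1) k)) (dlf l bt) := by
      refine dir_of hT R' ⟨fun k => ?_, fun k => ?_⟩ fun k _ => rfl
      · exact h0 k
      · exact h0' k
    cases bt
    · have h0 := h0' rfl
      obtain ⟨g1, g2, g3, g4⟩ : D (x 0) u ∧ D f (x 0) ∧ D (x 1) f ∧ D u (x 1) := by
        rcases hor with g | g
        · exact absurd g.1 (as _ _ h0)
        · exact g
      have Q : Qd T D u (x 1) f (x 0) d := ⟨g4, g3, g2, g1, hd, fun y => by rw [hadj]; tauto⟩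
      have k1 : Sh T D (x 1) f := sh_symm cx s2
      have k2 : Sh T D f (x 0) := sh_symm cx s1
      refine engine (md := md) hM hT huT (hC.good u hu.1 hu.2.1 hu.2.2) R' Q hdir
        (Or.inl ⟨X0, X1⟩) h3T h1T (pcb hM hT hC hu i3 i2 i1 Q k1 k2) ?_ hOK
      intro r y hr ro ri nro nri yu yW hry hys
      exact yu (no_far hM hT hC hu i3 i2 i1 Q k1 k2 hr ro ri nro nri (ar_symm hys) (ar_symm hry))
    · have h0 := h0 rfl
      obtain ⟨g1, g2, g3, g4⟩ : D u (x 0) ∧ D (x 0) f ∧ D f (x 1) ∧ D (x 1) u := by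
        rcases hor with g | g
        · exact g
        · exact absurd g.1 (as _ _ h0)
      have Q : Qd T D u (x 0) f (x 1) d := ⟨g1, g2, g3, g4, hd, hadj⟩
      refine engine (md := md) hM hT huT (hC.good u hu.1 hu.2.1 hu.2.2) R' Q hdir
        (Or.inr ⟨X0, X1⟩) h1T h3T (pcb hM hT hC hu i1 i2 i3 Q s1 s2) ?_ hOK
      intro r y hr ro ri nro nri yu yW hry hys
      exact yu (no_far hM hT hC hu i1 i2 i3 Q s1 s2 hr ro ri nro nri (ar_symm hys) (ar_symm hry))
  cases bt
  · exact row_of_in fun T X D a b c Z u x hM hT hC hu R h0 =>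
      key T X D a b c Z u x hM hT hC hu R (fun k => absurd k (by decide)) (fun _ => h0)
  · exact row_of_out fun T X D a b c Z u x hM hT hC hu R h0 =>
      key T X D a b c Z u x hM hT hC hu R (fun _ => h0) (fun k => absurd k (by decide))

/-- the row of the mirrored word, started at the mirrored corner -/
theorem row_mir0 {n : ℕ} {W W' : Fin (n + 1) → CT} (h : Row V n W 0)
    (e : ∀ i, W' i = ctm (W (-i))) : Row V n W' 0 := by
  have h1 := h.mir
  have h2 : Row V n W' (1 + -(0 + 1)) := by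
    refine Row.shift (k := 1) ?_
    have e2 : (fun i => W' (1 + i)) = fun i => ctm (W (-(i + 1))) := by
      funext i
      rw [e]
      congr 3
      exact add_comm _ _
    rw [e2]
    exact h1
  simpa using h2

end Pool.Agent.H65.G4
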