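import Pool.Agent.H65.G4.Eng
import Pool.Agent.H55.G4.TabC
import Pool.Agent.H55.G4.TabD
import Pool.Agent.H55.G4.TabE
import Pool.Agent.H55.G4.TabF
import Pool.Agent.H55.G4.TabG
import Pool.Agent.H35.G4.DisX

/-!
# All path contractions of the list `PCL`
-/

set_option autoImplicit false

namespace Pool.Agent.H65.G4

open Relation Pool.Agent.H13.DA Pool.Agent.H72.G4 Pool.Agent.H21.G4 Pool.Agent.H13.G4
  Pool.Agent.H55.G4 Pool.Agent.H96.G4 Pool.Agent.H32.G4 Pool.Agent.H91.G4 Pool.Agent.H80.G4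
  Pool.Agent.H35.G4 CT

variable (V : Type*) [DecidableEq V] [Infinite V]

private theorem q_2q2q1 : rowQ 4 (wf [q, s2, q, s2]) (dlf [q, s2, q, s2] false) [(1, 2)] (false, 1)
    [(0, 0, 0, 0), (1, 0, 0, 0), (3, 0, 0, 0)] 20 10 = true := by decide +kernel

theorem row_2q2q1 : Row V 3 ![q, s2, q, s2] 0 :=
  eng_row (rowOK_of q_2q2q1 ck_s2q2q_1) (by decide)

private theorem q_2q1q1 : rowQ 4 (wf [q, s1, q, s2]) (dlf [q, s1, q, s2] false) [(1, 2)] (false, 1)
    [(0, 0, 0, 0), (0, 1, 0, 0), (3, 0, 0, 0)] 20 10 = true := by decide +kernel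

theorem row_2q1q1 : Row V 3 ![q, s1, q, s2] 0 :=
  eng_row (rowOK_of q_2q1q1 ck_s2q1q_1) (by decide)

private theorem q_qqqq0 : rowQ 4 (wf [q, q, q, q]) (dlf [q, q, q, q] false) [(0, 1), (2, 0), (2, 1)] (true, 2)
    [(0, 0, 0, 0), (1, 0, 0, 0), (0, 3, 0, 0)] 18 12 = true := by decide +kernel

theorem row_qqqq0 : Row V 3 ![q, q, q, q] 0 :=
  eng_row (rowOK_of q_qqqq0 ck_qqqq) (by decide)

private theorem q_2qqmq1 : rowQ 5 (wf [q, q, m, q, s2]) (dlf [q, q, m, q, s2] false) [(3, 1), (0, 1)] (false, 1)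
    [(0, 0, 0, 0), (1, 0, 0, 0), (2, 0, 0, 0), (1, 2, 0, 0)] 42 20 = true := by decide +kernel

theorem row_2qqmq1 : Row V 4 ![q, q, m, q, s2] 0 :=
  eng_row (rowOK_of q_2qqmq1 ck_s2qqmq_1) (by decide)

private theorem q_2qmqq4 : rowQ 5 (wf [q, s2, q, m, q]) (dlf [q, s2, q, m, q] true) [(0, 2), (0, 3)] (false, 0)
    [(0, 0, 0, 0), (0, 1, 0, 0), (1, 0, 0, 0), (1, 4, 0, 0)] 42 20 = true := by decide +kernel

theorem row_2qmqq4 : Row V 4 ![q, s2, q, m, q] 0 :=
  eng_row (rowOK_of q_2qmqq4 ck_s2qmqq_4) (by decide)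

private theorem q_2mqqq3 : rowQ 5 (wf [q, q, s2, m, q]) (dlf [q, q, s2, m, q] false) [(3, 0), (1, 3)] (false, 3)
    [(0, 0, 0, 0), (0, 0, 0, 0), (0, 2, 0, 0), (6, 1, 0, 0)] 38 24 = true := by decide +kernel

theorem row_2mqqq3 : Row V 4 ![q, q, s2, m, q] 0 :=
  eng_row (rowOK_of q_2mqqq3 ck_s2mqqq_3) (by decide)

private theorem q_2mqqq4 : rowQ 5 (wf [q, s2, m, q, q]) (dlf [q, s2, m, q, q] true) [(0, 2), (0, 3), (2, 3)] (true, 3)
    [(0, 0, 0, 0), (0, 1, 0, 0), (3, 0, 0, 0), (5, 0, 0, 0)] 42 20 = true := by decide +kernel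

theorem row_2mqqq4 : Row V 4 ![q, s2, m, q, q] 0 :=
  eng_row (rowOK_of q_2mqqq4 ck_s2mqqq_4) (by decide)

private theorem q_2qqqq4 : rowQ 5 (wf [q, s2, q, q, q]) (dlf [q, s2, q, q, q] true) [(0, 2), (0, 3), (2, 3)] (true, 3)
    [(0, 0, 0, 0), (0, 1, 0, 0), (1, 0, 0, 0), (5, 0, 0, 0)] 42 20 = true := by decide +kernel

theorem row_2qqqq4 : Row V 4 ![q, s2, q, q, q] 0 :=
  eng_row (rowOK_of q_2qqqq4 ck_s2qqqq_4) (by decide)

private theorem q_222qq4 : rowQ 5 (wf [q, s2, s2, s2, q]) (dlf [q, s2, s2, s2, q] true) [(0, 3)] (false, 0)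
    [(0, 0, 0, 0), (0, 1, 0, 0), (0, 2, 0, 0), (1, 4, 0, 0)] 46 16 = true := by decide +kernel

theorem row_222qq4 : Row V 4 ![q, s2, s2, s2, q] 0 :=
  eng_row (rowOK_of q_222qq4 ck_s222qq_4) (by decide)

private theorem q_22q2q4 : rowQ 5 (wf [q, s2, s2, q, s2]) (dlf [q, s2, s2, q, s2] true) [(1, 3)] (false, 1)
    [(0, 0, 0, 0), (0, 1, 0, 0), (0, 2, 0, 0), (2, 1, 0, 0)] 38 24 = true := by decide +kernel

theorem row_22q2q4 : Row V 4 ![q, s2, s2, q, s2] 0 :=
  eng_row (rowOK_of q_22q2q4 ck_s22q2q_4) (by decide)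

private theorem q_221qq4 : rowQ 5 (wf [q, s2, s2, s1, q]) (dlf [q, s2, s2, s1, q] true) [(0, 3)] (false, 0)
    [(0, 0, 0, 0), (0, 1, 0, 0), (0, 2, 0, 0), (5, 0, 0, 0)] 46 16 = true := by decide +kernel

theorem row_221qq4 : Row V 4 ![q, s2, s2, s1, q] 0 :=
  eng_row (rowOK_of q_221qq4 ck_s221qq_4) (by decide)

theorem row_2q2q1m : Row V 3 ![q, s1, q, s1] 0 := row_mir0 (row_2q2q1 V) (by decide)

theorem row_2qqmq1m : Row V 4 ![q, s1, q, m, q] 0 := row_mir0 (row_2qqmq1 V) (by decide)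

theorem row_2qmqq4m : Row V 4 ![q, q, m, q, s1] 0 := row_mir0 (row_2qmqq4 V) (by decide)

theorem row_2mqqq3m : Row V 4 ![q, q, m, s1, q] 0 := row_mir0 (row_2mqqq3 V) (by decide)

theorem row_2mqqq4m : Row V 4 ![q, q, q, m, s1] 0 := row_mir0 (row_2mqqq4 V) (by decide)

theorem row_2qqqq4m : Row V 4 ![q, q, q, q, s1] 0 := row_mir0 (row_2qqqq4 V) (by decide)

theorem row_222qq4m : Row V 4 ![q, q, s1, s1, s1] 0 := row_mir0 (row_222qq4 V) (by decide)

theorem row_22q2q4m : Row V 4 ![q, s1, q, s1, s1] 0 := row_mir0 (row_22q2q4 V) (by decide)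

theorem row_221qq4m : Row V 4 ![q, q, s2, s1, s1] 0 := row_mir0 (row_221qq4 V) (by decide)

variable {V} {T X : Finset (V × V × V)} {D : V → V → Prop} {a b c : V} {Z : List V}

omit [Infinite V] in
theorem use_row {n m : ℕ} {u : V} {x : Fin (n + 1) → V} {w : Fin (n + 1) → CT}
    (hM : MCw T D a b c) (hT : Ts T D a b c) (hC : Ctx T X D a b c Z) (hu : In X D Z u)
    (R : Rot T D u n x w) {W : Fin (m + 1) → CT} (hr : Row V m W 0)
    (e : List.ofFn w = List.ofFn W) : PCok T X D Z u x 0 := by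
  have hn : n = m := by simpa using congrArg List.length e
  subst hn
  have e2 := List.ofFn_injective e
  subst e2
  exact hr T X D a b c Z u x hM hT hC hu R

/-- **All path contractions of the list `PCL`.** -/
theorem pcl_ok (hM : MCw T D a b c) (hT : Ts T D a b c) (hC : Ctx T X D a b c Z) {u : V}
    (hu : In X D Z u) {n : ℕ} {x : Fin (n + 1) → V} {w : Fin (n + 1) → CT}
    (R : Rot T D u n x w) (h : List.ofFn w ∈ PCL) : PCok T X D Z u x 0 := by
  simp only [PCL, List.mem_cons, List.not_mem_nil, or_false] at h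
  rcases h with h | h | h | h | h | h | h | h | h | h | h | h | h | h | h | h | h | h | h | h
  · exact use_row hM hT hC hu R (row_2q2q1 V) (h.trans (by decide))
  · exact use_row hM hT hC hu R (row_2q2q1m V) (h.trans (by decide))
  · exact use_row hM hT hC hu R (row_2q1q1 V) (h.trans (by decide))
  · exact use_row hM hT hC hu R (row_qqqq0 V) (h.trans (by decide))
  · exact use_row hM hT hC hu R (row_2qqmq1 V) (h.trans (by decide))
  · exact use_row hM hT hC hu R (row_2qqmq1m V) (h.trans (by decide))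
  · exact use_row hM hT hC hu R (row_2qmqq4 V) (h.trans (by decide))
  · exact use_row hM hT hC hu R (row_2qmqq4m V) (h.trans (by decide))
  · exact use_row hM hT hC hu R (row_2mqqq3 V) (h.trans (by decide))
  · exact use_row hM hT hC hu R (row_2mqqq3m V) (h.trans (by decide))
  · exact use_row hM hT hC hu R (row_2mqqq4 V) (h.trans (by decide))
  · exact use_row hM hT hC hu R (row_2mqqq4m V) (h.trans (by decide))
  · exact use_row hM hT hC hu R (row_2qqqq4 V) (h.trans (by decide))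
  · exact use_row hM hT hC hu R (row_2qqqq4m V) (h.trans (by decide))
  · exact use_row hM hT hC hu R (row_222qq4 V) (h.trans (by decide))
  · exact use_row hM hT hC hu R (row_222qq4m V) (h.trans (by decide))
  · exact use_row hM hT hC hu R (row_22q2q4 V) (h.trans (by decide))
  · exact use_row hM hT hC hu R (row_22q2q4m V) (h.trans (by decide))
  · exact use_row hM hT hC hu R (row_221qq4 V) (h.trans (by decide))
  · exact use_row hM hT hC hu R (row_221qq4m V) (h.trans (by decide))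

end Pool.Agent.H65.G4
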