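import Pool.Agent.H72.G4.Fill
import Pool.Agent.H13.G4.FanT
import Pool.Agent.H21.G4.Ren

/-!
# General frame of a reduction; contraction together with new arcs

* `reduce` : any smaller digraph `D'` on a disc, with a lift of exact orders.
* `ct_asymm`, `ct_tri` : `Ct D y x` has no directed 2- and 3-cycles.
-/

set_option autoImplicit false

namespace Pool.Agent.H65.G4

open Relation Pool.Agent.H13.DA Pool.Agent.H72.G4 Pool.Agent.H21.G4

variable {V : Type*} [DecidableEq V] {T : Finset (V × V × V)} {D : V → V → Prop} {a b c : V}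

/-- two different outer vertices are joined by an arc -/
theorem out_ar {D : V → V → Prop} {a b c : V} (h : Out D a b c) {u w : V} (hu : Tr a b c u)
    (hw : Tr a b c w) (huw : u ≠ w) : Ar D u w := by
  obtain ⟨o1, o2, o3⟩ := h
  rcases hu with rfl | rfl | rfl <;> rcases hw with rfl | rfl | rfl
  · exact absurd rfl huw
  · exact o1
  · exact ar_symm o3
  · exact ar_symm o1
  · exact absurd rfl huw
  · exact o2
  · exact o3
  · exact ar_symm o2
  · exact absurd rfl huw

/-- **General reduction.** -/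
theorem reduce (hM : MCw T D a b c) {D' : V → V → Prop} {T' : Finset (V × V × V)}
    (hP : Pl T' D' [a, b, c])
    (hTr : ∀ u w, Tr a b c u → Tr a b c w → D u w → D' u w) (hlt : nr D' < nr D)
    (hlift : ∀ O : Fin 3 → V → V → Prop, (∀ i, STO (O i)) → (∀ u w, D' u w → Ex O u w) →
      ∃ O' : Fin 3 → V → V → Prop, (∀ i, STO (O' i)) ∧ (∀ u w, D u w → Ex O' u w) ∧
        ∀ i u w, Tr a b c u → Tr a b c w → (O' i u w ↔ O i u w)) : False := by
  have ta : Tr a b c a := Or.inl rfl
  have tb : Tr a b c b := Or.inr (Or.inl rfl)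
  have tc : Tr a b c c := Or.inr (Or.inr rfl)
  have hne : ∀ u w, Tr a b c u → Tr a b c w → Ar D u w → Ar D' u w := by
    rintro u w hu hw (h | h)
    · exact Or.inl (hTr u w hu hw h)
    · exact Or.inr (hTr w u hw hu h)
  have hO : Out D' a b c := ⟨hne _ _ ta tb hM.out.1, hne _ _ tb tc hM.out.2.1,
    hne _ _ tc ta hM.out.2.2⟩
  have hs := hM.min1 T' _ a b c hP hO hlt
  apply hM.bad
  intro O hOs hE
  obtain ⟨O1, b1, b2, b3⟩ := hs O hOs (by
    intro x y hx hy h
    rcases eq_or_ne x y with rfl | hxy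
    · exact absurd h (hP.asymm x x h)
    · rcases out_ar hM.out hx hy hxy with k | k
      · exact hE x y hx hy k
      · exact absurd (hTr y x hy hx k) (hP.asymm x y h))
  obtain ⟨O2, c1, c2, c3⟩ := hlift O1 b1 b2
  exact ⟨O2, c1, c2, fun i x y hx hy => (c3 i x y hx hy).trans (b3 i x y hx hy)⟩

section ct

variable {W : Type*} {E : W → W → Prop} {x y : W}

theorem com_symm (has : ∀ x y, E x y → ¬ E y x)
    (com : ∀ u, Ar E x u → Ar E y u → (E u x ↔ E u y)) :
    ∀ u, Ar E x u → Ar E y u → (E x u ↔ E y u) := by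
  intro u hu1 hu2
  have h := com u hu1 hu2
  constructor
  · intro h3
    rcases hu2 with h4 | h4
    · exact h4
    · exact absurd (h.2 h4) (has _ _ h3)
  · intro h3
    rcases hu1 with h4 | h4
    · exact h4
    · exact absurd (h.1 h4) (has _ _ h3)

theorem ct_asymm (has : ∀ x y, E x y → ¬ E y x)
    (com : ∀ u, Ar E x u → Ar E y u → (E u x ↔ E u y)) :
    ∀ u w, Ct E y x u w → ¬ Ct E y x w u := by
  rintro u w ⟨hu, hw, huw, h⟩ ⟨_, _, _, h'⟩
  rcases h with h | ⟨rfl, h⟩ | ⟨rfl, h⟩
  · rcases h' with h' | ⟨rfl, h'⟩ | ⟨rfl, h'⟩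
    · exact has _ _ h h'
    · have := (com u (Or.inr h) (Or.inl h')).1 h
      exact has _ _ h' this
    · have := (com w (Or.inl h) (Or.inr h')).2 h'
      exact has _ _ h this
  · rcases h' with h' | ⟨rfl, h'⟩ | ⟨_, h'⟩
    · have := (com w (Or.inr h') (Or.inl h)).1 h'
      exact has _ _ h this
    · exact huw rfl
    · exact has _ _ h h'
  · rcases h' with h' | ⟨_, h'⟩ | ⟨rfl, h'⟩
    · have := (com u (Or.inl h') (Or.inr h)).2 h
      exact has _ _ h' this
    · exact has _ _ h' h
    · exact huw rfl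

theorem ct_tri (htri : ∀ x y z, E x y → E y z → ¬ E z x)
    (k1 : ∀ w z, w ≠ y → z ≠ y → w ≠ x → z ≠ x → E x w → E w z → E z y → False)
    (k2 : ∀ w z, w ≠ y → z ≠ y → w ≠ x → z ≠ x → E y w → E w z → E z x → False) :
    ∀ u w z, Ct E y x u w → Ct E y x w z → ¬ Ct E y x z u := by
  have key : ∀ w z, w ≠ y → z ≠ y → w ≠ x → z ≠ x → (E x w ∨ E y w) → E w z →
      (E z x ∨ E z y) → False := by
    rintro w z hw hz hw' hz' (h1 | h1) h2 (h3 | h3)
    · exact htri _ _ _ h1 h2 h3
    · exact k1 w z hw hz hw' hz' h1 h2 h3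
    · exact k2 w z hw hz hw' hz' h1 h2 h3
    · exact htri _ _ _ h1 h2 h3
  rintro u w z ⟨hu, hw, huw, h⟩ ⟨_, hz, hwz, h'⟩ ⟨_, _, hzu, h''⟩
  by_cases e1 : u = x
  · subst e1
    refine key w z hw hz (fun e => huw e.symm) hzu ?_ ?_ ?_
    · rcases h with h | ⟨_, h⟩ | ⟨h, _⟩
      · exact Or.inl h
      · exact Or.inr h
      · exact absurd h.symm huw
    · rcases h' with h | ⟨h, _⟩ | ⟨h, _⟩
      · exact h
      · exact absurd h.symm huw
      · exact absurd h hzu
    · rcases h'' with h | ⟨h, _⟩ | ⟨_, h⟩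
      · exact Or.inl h
      · exact absurd h hzu
      · exact Or.inr h
  by_cases e2 : w = x
  · subst e2
    refine key z u hz hu (fun e => hwz e.symm) e1 ?_ ?_ ?_
    · rcases h' with h | ⟨_, h⟩ | ⟨h, _⟩
      · exact Or.inl h
      · exact Or.inr h
      · exact absurd h.symm hwz
    · rcases h'' with h | ⟨h, _⟩ | ⟨h, _⟩
      · exact h
      · exact absurd h.symm hwz
      · exact absurd h e1
    · rcases h with h | ⟨h, _⟩ | ⟨_, h⟩
      · exact Or.inl h
      · exact absurd h e1
      · exact Or.inr h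
  by_cases e3 : z = x
  · subst e3
    refine key u w hu hw e1 e2 ?_ ?_ ?_
    · rcases h'' with h | ⟨_, h⟩ | ⟨h, _⟩
      · exact Or.inl h
      · exact Or.inr h
      · exact absurd h e1
    · rcases h with h | ⟨h, _⟩ | ⟨h, _⟩
      · exact h
      · exact absurd h e1
      · exact absurd h e2
    · rcases h' with h | ⟨h, _⟩ | ⟨_, h⟩
      · exact Or.inl h
      · exact absurd h e2
      · exact Or.inr h
  have g1 : E u w := by
    rcases h with h | ⟨h, _⟩ | ⟨h, _⟩
    · exact h
    · exact absurd h e1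
    · exact absurd h e2
  have g2 : E w z := by
    rcases h' with h | ⟨h, _⟩ | ⟨h, _⟩
    · exact h
    · exact absurd h e2
    · exact absurd h e3
  have g3 : E z u := by
    rcases h'' with h | ⟨h, _⟩ | ⟨h, _⟩
    · exact h
    · exact absurd h e3
    · exact absurd h e1
  exact htri _ _ _ g1 g2 g3

end ct

end Pool.Agent.H65.G4
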