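import Pool.Agent.H65.G4.FanF
import Pool.Agent.H65.G4.Red

/-!
# Images of a disc and of a digraph under the contraction of a set

* `Im T T' f` : `T'` is a disc which is the image of `T` under `f`.
* `Im.step` : one more contraction.
* `rp W w` : the map which sends `W` to `w`; `con_step`.
* `Imd f E` : the image digraph, `imd_asymm`, `imd_tri`.
-/

set_option autoImplicit false

namespace Pool.Agent.H65.G4

open Relation Pool.Agent.H13.DA Pool.Agent.H72.G4 Pool.Agent.H21.G4 Pool.Agent.H13.G4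

variable {V : Type*} [DecidableEq V] {T T' : Finset (V × V × V)} {f : V → V}

/-- `T'` is a disc, the image of `T` under `f` -/
structure Im (T T' : Finset (V × V × V)) (f : V → V) : Prop where
  disc : Disc T'
  bd : ∀ l, IsBd T l → IsBd T' l
  adj : ∀ x y, Adj T' x y ↔ x ≠ y ∧ ∃ x' y', f x' = x ∧ f y' = y ∧ Adj T x' y'
  face : ∀ x y z, (x, y, z) ∈ T → f x ≠ f y → f y ≠ f z → f z ≠ f x → (f x, f y, f z) ∈ T'

omit [DecidableEq V] in
theorem Im.of_id (hD : Disc T) : Im T T (fun x => x) where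
  disc := hD
  bd := fun _ h => h
  adj := by
    intro x y
    constructor
    · intro h
      exact ⟨adj_ne hD.cx h, x, y, rfl, rfl, h⟩
    · rintro ⟨_, x', y', rfl, rfl, h⟩
      exact h
  face := fun x y z h _ _ _ => h

theorem Im.step [Infinite V] (h : Im T T' f) {l : List V} (hl : IsBd T l) {y p : V} (hyl : y ∉ l)
    (hyp : Adj T' y p)
    (hc : ∀ q, Adj T' y q → Adj T' p q → (y, p, q) ∈ T' ∨ (y, q, p) ∈ T') :
    ∃ T'', Im T T'' (fun x => if f x = y then p else f x) := by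
  have ynp : y ≠ p := adj_ne h.disc.cx hyp
  obtain ⟨T'', d1, d2, _, d4, d5, d6⟩ := fan_full h.disc (h.bd l hl) hyl hyp hc
  have cx := d1.cx
  refine ⟨T'', d1, fun l' h' => d2 l' (h.bd l' h'), ?_, ?_⟩
  · intro x z
    rw [d4]
    constructor
    · rintro ⟨hx, hz, k | ⟨rfl, k1, k2⟩ | ⟨rfl, k1, k2⟩⟩
      · obtain ⟨m, x', z', e1, e2, e3⟩ := (h.adj x z).1 k
        refine ⟨m, x', z', ?_, ?_, e3⟩
        · rw [if_neg (by rw [e1]; exact hx), e1]
        · rw [if_neg (by rw [e2]; exact hz), e2]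
      · obtain ⟨m, x', z', e1, e2, e3⟩ := (h.adj y z).1 k2
        refine ⟨k1.symm, x', z', ?_, ?_, e3⟩
        · rw [if_pos e1]
        · rw [if_neg (by rw [e2]; exact hz), e2]
      · obtain ⟨m, x', z', e1, e2, e3⟩ := (h.adj y x).1 k2
        refine ⟨k1, z', x', ?_, ?_, e3.symm⟩
        · rw [if_neg (by rw [e2]; exact hx), e2]
        · rw [if_pos e1]
    · rintro ⟨hxz, x', z', e1, e2, e3⟩
      by_cases hx : f x' = y
      · rw [if_pos hx] at e1
        subst e1
        by_cases hz : f z' = y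
        · rw [if_pos hz] at e2
          exact absurd e2 hxz
        · rw [if_neg hz] at e2
          subst e2
          exact ⟨ynp.symm, hz, Or.inr (Or.inl ⟨rfl, hxz.symm,
            (h.adj _ _).2 ⟨fun e => hz e.symm, x', z', hx, rfl, e3⟩⟩)⟩
      · rw [if_neg hx] at e1
        subst e1
        by_cases hz : f z' = y
        · rw [if_pos hz] at e2
          subst e2
          exact ⟨hx, ynp.symm, Or.inr (Or.inr ⟨rfl, hxz,
            (h.adj _ _).2 ⟨fun e => hx e.symm, z', x', hz, rfl, e3.symm⟩⟩)⟩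
        · rw [if_neg hz] at e2
          subst e2
          exact ⟨hx, hz, Or.inl ((h.adj _ _).2 ⟨hxz, x', z', rfl, rfl, e3⟩)⟩
  · intro x1 x2 x3 ht n12 n23 n31
    by_cases e1 : f x1 = y
    · rw [if_pos e1] at n12 n31 ⊢
      by_cases e2 : f x2 = y
      · rw [if_pos e2] at n12
        exact absurd rfl n12
      · by_cases e3 : f x3 = y
        · rw [if_pos e3] at n31
          exact absurd rfl n31
        · rw [if_neg e2] at n12 n23 ⊢
          rw [if_neg e3] at n23 n31 ⊢
          have k := h.face x1 x2 x3 ht (by rw [e1]; exact fun e => e2 e.symm) n23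
            (by rw [e1]; exact e3)
          rw [e1] at k
          exact d6 _ _ k n12.symm n31
    · rw [if_neg e1] at n12 n31 ⊢
      by_cases e2 : f x2 = y
      · rw [if_pos e2] at n12 n23 ⊢
        by_cases e3 : f x3 = y
        · rw [if_pos e3] at n23
          exact absurd rfl n23
        · rw [if_neg e3] at n23 n31 ⊢
          have k := h.face x1 x2 x3 ht (by rw [e2]; exact e1) (by rw [e2]; exact fun e => e3 e.symm)
            n31
          rw [e2] at k
          have k2 := d6 _ _ (h.disc.cx.rot k) n23.symm n12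
          exact cx.rot (cx.rot k2)
      · rw [if_neg e2] at n12 n23 ⊢
        by_cases e3 : f x3 = y
        · rw [if_pos e3] at n23 n31 ⊢
          have k := h.face x1 x2 x3 ht n12 (by rw [e3]; exact e2) (by rw [e3]; exact fun e => e1 e.symm)
          rw [e3] at k
          have k2 := d6 _ _ (h.disc.cx.rot (h.disc.cx.rot k)) n31.symm n23
          exact cx.rot k2
        · rw [if_neg e3] at n23 n31 ⊢
          exact d5 _ _ _ (h.face x1 x2 x3 ht n12 n23 n31) e1 e2 e3

open Classical in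
/-- the map which sends `W` to `w` -/
noncomputable def rp (W : V → Prop) (w : V) (x : V) : V := if W x then w else x

omit [DecidableEq V] in
theorem rp_in {W : V → Prop} {w x : V} (h : W x) : rp W w x = w := by
  classical
  unfold rp
  rw [if_pos h]

omit [DecidableEq V] in
theorem rp_out {W : V → Prop} {w x : V} (h : ¬ W x) : rp W w x = x := by
  classical
  unfold rp
  rw [if_neg h]

omit [DecidableEq V] in
/-- preimages of a vertex other than `w` -/
theorem rp_eq {W : V → Prop} {w x y : V} (h : rp W w x = y) (hy : y ≠ w) : x = y ∧ ¬ W x := by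
  by_cases hx : W x
  · rw [rp_in hx] at h
    exact absurd h.symm hy
  · rw [rp_out hx] at h
    exact ⟨h, hx⟩

omit [DecidableEq V] in
/-- preimages of `w` -/
theorem rp_eq_w {W : V → Prop} {w x : V} (hw : W w) (h : rp W w x = w) : W x := by
  by_cases hx : W x
  · exact hx
  · rw [rp_out hx] at h
    rw [h]
    exact hw

theorem rp_succ {W : V → Prop} {w y : V} (hyw : y ≠ w) :
    (fun x => rp (fun z => W z ∨ z = y) w x) = fun x => if rp W w x = y then w else rp W w x := by
  classical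
  funext x
  by_cases hx : W x
  · rw [rp_in (W := fun z => W z ∨ z = y) (Or.inl hx), rp_in hx]
    split_ifs
    · rfl
    · rfl
  · by_cases hxy : x = y
    · subst hxy
      rw [rp_in (W := fun z => W z ∨ z = x) (Or.inr rfl), rp_out hx, if_pos rfl]
    · rw [rp_out (W := fun z => W z ∨ z = y) (by rintro (h | h); exacts [hx h, hxy h]),
        rp_out hx, if_neg hxy]

theorem con_step [Infinite V] {W : V → Prop} {w : V} (hw : W w) (h : Im T T' (rp W w))
    {l : List V} (hl : IsBd T l) {y : V} (hyl : y ∉ l) (hyW : ¬ W y)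
    (hz : ∃ z, W z ∧ Adj T y z)
    (hc : ∀ q z, ¬ W q → q ≠ y → Adj T y q → W z → Adj T z q → ∃ z', W z' ∧ Face T y z' q) :
    ∃ T'', Im T T'' (rp (fun z => W z ∨ z = y) w) := by
  have hyw : y ≠ w := by
    rintro rfl
    exact hyW hw
  have e := rp_succ (W := W) hyw
  have e' : rp (fun z => W z ∨ z = y) w = fun x => if rp W w x = y then w else rp W w x := e
  rw [e']
  obtain ⟨z, hz1, hz2⟩ := hz
  refine h.step hl hyl ((h.adj y w).2 ⟨hyw, y, z, rp_out hyW, rp_in hz1, hz2⟩) ?_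
  intro q hq1 hq2
  obtain ⟨n1, y1, q1, f1, f2, f3⟩ := (h.adj y q).1 hq1
  obtain ⟨n2, w1, q2, g1, g2, g3⟩ := (h.adj w q).1 hq2
  obtain ⟨rfl, -⟩ := rp_eq f1 hyw
  obtain ⟨rfl, hq⟩ := rp_eq f2 n2.symm
  obtain ⟨rfl, -⟩ := rp_eq g2 n2.symm
  obtain ⟨z', z1, z2⟩ := hc q2 w1 hq n1.symm f3 (rp_eq_w hw g1) g3
  have a1 : rp W w y1 = y1 := rp_out hyW
  have a2 : rp W w z' = w := rp_in z1
  have a3 : rp W w q2 = q2 := rp_out hq
  rcases z2 with z2 | z2
  · left
    have := h.face _ _ _ z2 (by rw [a1, a2]; exact hyw) (by rw [a2, a3]; exact n2)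
      (by rw [a3, a1]; exact n1.symm)
    rwa [a1, a2, a3] at this
  · right
    have := h.face _ _ _ z2 (by rw [a1, a3]; exact n1) (by rw [a3, a2]; exact n2.symm)
      (by rw [a2, a1]; exact hyw.symm)
    rwa [a1, a2, a3] at this

section digraph

variable {E : V → V → Prop}

/-- the image digraph -/
def Imd (f : V → V) (E : V → V → Prop) (x y : V) : Prop :=
  x ≠ y ∧ ∃ x' y', f x' = x ∧ f y' = y ∧ E x' y'

omit [DecidableEq V] in
theorem imd_asymm {W : V → Prop} {w : V} (hw : W w) (has : ∀ x y, E x y → ¬ E y x)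
    (ear2 : ∀ x y z, W x → ¬ W y → W z → E x y → E y z → False) :
    ∀ x y, Imd (rp W w) E x y → ¬ Imd (rp W w) E y x := by
  rintro x y ⟨hxy, x', y', h1, h2, h3⟩ ⟨_, y'', x'', h4, h5, h6⟩
  by_cases hx : x = w
  · subst hx
    obtain ⟨rfl, h7⟩ := rp_eq h2 hxy.symm
    obtain ⟨rfl, -⟩ := rp_eq h4 hxy.symm
    exact ear2 _ _ _ (rp_eq_w hw h1) h7 (rp_eq_w hw h5) h3 h6
  · obtain ⟨rfl, h7⟩ := rp_eq h1 hx
    obtain ⟨rfl, -⟩ := rp_eq h5 hx
    by_cases hy : y = w
    · subst hy
      exact ear2 _ _ _ (rp_eq_w hw h4) h7 (rp_eq_w hw h2) h6 h3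
    · obtain ⟨rfl, -⟩ := rp_eq h2 hy
      obtain ⟨rfl, -⟩ := rp_eq h4 hy
      exact has _ _ h3 h6

omit [DecidableEq V] in
theorem imd_tri {W : V → Prop} {w : V} (hw : W w) (htr : ∀ x y z, E x y → E y z → ¬ E z x)
    (ear3 : ∀ x y z t, W x → ¬ W y → ¬ W z → W t → E x y → E y z → E z t → False) :
    ∀ x y z, Imd (rp W w) E x y → Imd (rp W w) E y z → ¬ Imd (rp W w) E z x := by
  -- the case of a triangle through `w`
  have key : ∀ y z, y ≠ w → z ≠ w → Imd (rp W w) E w y → Imd (rp W w) E y z →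
      Imd (rp W w) E z w → False := by
    rintro y z hy hz ⟨_, x1, y1, h1, h2, h3⟩ ⟨_, y2, z2, g1, g2, g3⟩ ⟨_, z3, x3, k1, k2, k3⟩
    obtain ⟨rfl, h7⟩ := rp_eq h2 hy
    obtain ⟨rfl, -⟩ := rp_eq g1 hy
    obtain ⟨rfl, h8⟩ := rp_eq g2 hz
    obtain ⟨rfl, -⟩ := rp_eq k1 hz
    exact ear3 _ _ _ _ (rp_eq_w hw h1) h7 h8 (rp_eq_w hw k2) h3 g3 k3
  intro x y z h1 h2 h3
  by_cases hx : x = w
  · subst hx
    exact key y z h1.1.symm h3.1 h1 h2 h3
  · by_cases hy : y = w
    · subst hy
      exact key z x h2.1.symm hx h2 h3 h1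
    · by_cases hz : z = w
      · subst hz
        exact key x y hx hy h3 h1 h2
      · obtain ⟨_, x1, y1, a1, a2, a3⟩ := h1
        obtain ⟨_, y2, z2, b1, b2, b3⟩ := h2
        obtain ⟨_, z3, x3, c1, c2, c3⟩ := h3
        obtain ⟨rfl, -⟩ := rp_eq a1 hx
        obtain ⟨rfl, -⟩ := rp_eq c2 hx
        obtain ⟨rfl, -⟩ := rp_eq a2 hy
        obtain ⟨rfl, -⟩ := rp_eq b1 hy
        obtain ⟨rfl, -⟩ := rp_eq b2 hz
        obtain ⟨rfl, -⟩ := rp_eq c1 hz
        exact htr _ _ _ a3 b3 c3

end digraph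

end Pool.Agent.H65.G4
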