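import Pool.Agent.H65.G4.EngP
import Pool.Agent.H35.G4.Dis2
import Pool.Agent.H94.G4.W6r
import Pool.Agent.H67.G4.Ctx

/-!
# There is no minimal counterexample
-/

set_option autoImplicit false

namespace Pool.Agent.H65.G4

open Relation Pool.Agent.H13.DA Pool.Agent.H72.G4 Pool.Agent.H13.G4 Pool.Agent.H35.G4
  Pool.Agent.H67.G4 Pool.Agent.H94.G4

/-- **There is no minimal counterexample.** -/
theorem no_mcw {V : Type*} [DecidableEq V] [Infinite V] {T : Finset (V × V × V)}
    {D : V → V → Prop} {a b c : V} (hM : MCw T D a b c) (hT : Ts T D a b c) : False := by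
  obtain ⟨X, Z, hC⟩ := exists_ctx fanT hM hT
  refine discharge hM hT hC ?_
  intro u hu n x w R h
  rcases List.mem_append.1 h with k | k
  · exact pcl_ok hM hT hC hu R k
  · exact row_W6_pca hM hT hC u hu n x w R k

end Pool.Agent.H65.G4
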