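import Pool.Agent.H72.G4.Model

/-!
# Operations on exact triples of orders (rows O1, O2, O3 of the blueprint, and insertion)

* `glue` : gluing along `S1 ∩ S2 ⊆ S'`.
* `insert_solv` : insertion of one vertex.
* `source_solv`, `sink_solv` : a source or sink outside `S` can be removed.
* `contract_solv`, `contract_solv'` : contraction of the arc `y → b` / `b → y`.
-/

set_option autoImplicit false

namespace Pool.Agent.H65.G4

open Pool.Agent.H72.G4

variable {V : Type*}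

/-- the arcs of `D` inside `S` -/
def On (D : V → V → Prop) (S : V → Prop) (x y : V) : Prop := D x y ∧ S x ∧ S y

/-- the arcs of `D` not at `v` -/
def Wo (D : V → V → Prop) (v : V) (x y : V) : Prop := D x y ∧ x ≠ v ∧ y ≠ v

/-- `y` renamed `b` (contraction of an arc between `y` and `b`) -/
def Ren (D : V → V → Prop) (y b : V) (x z : V) : Prop :=
  x ≠ y ∧ z ≠ y ∧ (D x z ∨ (x = b ∧ z ≠ b ∧ D y z) ∨ (z = b ∧ x ≠ b ∧ D x y))

theorem ex_congr {O O' : Fin 3 → V → V → Prop} {x y x' y' : V}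
    (h1 : ∀ i, O' i x' y' ↔ O i x y) (h2 : ∀ i, O' i y' x' ↔ O i y x) (h : Ex O x y) :
    Ex O' x' y' := by
  obtain ⟨i, hi, hj⟩ := h
  exact ⟨i, (h2 i).2 hi, fun j hji => (h1 j).2 (hj j hji)⟩

/-- a solution restricted to fewer arcs -/
theorem solv_mono {D D' : V → V → Prop} {S : V → Prop} (h : ∀ x y, D x y → D' x y)
    (hS : ∀ x y, S x → S y → D' x y → D x y) (hs : Solv D' S) : Solv D S := by
  intro O hO hex
  obtain ⟨O', h1, h2, h3⟩ := hs O hO fun x y hx hy hxy => hex x y hx hy (hS x y hx hy hxy)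
  exact ⟨O', h1, fun x y hxy => h2 x y (h x y hxy), h3⟩

/-- **O1**: gluing. -/
theorem glue {D : V → V → Prop} {S S' S1 S2 : V → Prop}
    (hD : ∀ x y, D x y → (S1 x ∧ S1 y) ∨ (S2 x ∧ S2 y)) (hS : ∀ x, S x → S1 x)
    (hS' : ∀ x, S1 x → S2 x → S' x) (hS'1 : ∀ x, S' x → S1 x)
    (h1 : Solv (On D S1) S) (h2 : Solv (On D S2) S') : Solv D S := by
  classical
  intro O hO hex
  obtain ⟨O1, a1, a2, a3⟩ := h1 O hO fun x y hx hy hxy => hex x y hx hy hxy.1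
  obtain ⟨O2, b1, b2, b3⟩ := h2 O1 a1 fun x y hx hy hxy => a2 x y ⟨hxy.1, hS'1 x hx, hS'1 y hy⟩
  have hA := fun i => amal (a1 i) (b1 i) S1 S2 fun x y hx hx' hy hy' =>
    (b3 i x y (hS' x hx hx') (hS' y hy hy')).symm
  choose O3 c1 c2 c3 using hA
  refine ⟨O3, c1, ?_, ?_⟩
  · intro x y hxy
    rcases hD x y hxy with ⟨hx, hy⟩ | ⟨hx, hy⟩
    · exact ex_congr (fun i => c2 i x y hx hy) (fun i => c2 i y x hy hx) (a2 x y ⟨hxy, hx, hy⟩)
    · exact ex_congr (fun i => c3 i x y hx hy) (fun i => c3 i y x hy hx) (b2 x y ⟨hxy, hx, hy⟩)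
  · intro i x y hx hy
    rw [c2 i x y (hS x hx) (hS y hy)]
    exact a3 i x y hx hy

/-- insertion of one vertex: `P i` is a lower set of the order `i`, every in-neighbour of `v` is
in exactly two of them and every out-neighbour in exactly one. -/
theorem insert_orders {D : V → V → Prop} {v : V} (hirr : ¬ D v v) {O : Fin 3 → V → V → Prop}
    (hO : ∀ i, STO (O i)) (hex : ∀ x y, Wo D v x y → Ex O x y) (P : Fin 3 → V → Prop)
    (hP : ∀ i x y, x ≠ v → y ≠ v → P i y → O i x y → P i x)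
    (hin : ∀ x, D x v → ∃ i, ¬ P i x ∧ ∀ j, j ≠ i → P j x)
    (hout : ∀ x, D v x → ∃ i, P i x ∧ ∀ j, j ≠ i → ¬ P j x) :
    ∃ O' : Fin 3 → V → V → Prop, (∀ i, STO (O' i)) ∧ (∀ x y, D x y → Ex O' x y) ∧
      ∀ i x y, x ≠ v → y ≠ v → (O' i x y ↔ O i x y) := by
  have hA := fun i => insert_at (hO i) v (P i) (hP i)
  choose O1 c1 c2 c3 c4 using hA
  refine ⟨O1, c1, ?_, c2⟩
  intro x y hxy
  by_cases hx : x = v
  · subst hx
    have hy : y ≠ x := by rintro rfl; exact hirr hxy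
    obtain ⟨i, h1, h2⟩ := hout y hxy
    exact ⟨i, (c3 i y hy).2 h1, fun j hj => (c4 j y hy).2 (h2 j hj)⟩
  · by_cases hy : y = v
    · subst hy
      obtain ⟨i, h1, h2⟩ := hin x hxy
      exact ⟨i, (c4 i x hx).2 h1, fun j hj => (c3 j x hx).2 (h2 j hj)⟩
    · exact ex_congr (fun i => c2 i x y hx hy) (fun i => c2 i y x hy hx) (hex x y ⟨hxy, hx, hy⟩)

/-- if every solution of `D'` (with prescribed orders on `S`) gives cuts for `v`, then `D` is
solvable. -/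
theorem insert_solv {D D' : V → V → Prop} {S : V → Prop} {v : V} (hv : ¬ S v) (hirr : ¬ D v v)
    (hsub : ∀ x y, D x y → x ≠ v → y ≠ v → D' x y)
    (hS : ∀ x y, S x → S y → D' x y → D x y) (hs : Solv D' S)
    (h : ∀ O : Fin 3 → V → V → Prop, (∀ i, STO (O i)) → (∀ x y, D' x y → Ex O x y) →
      ∃ P : Fin 3 → V → Prop, (∀ i x y, x ≠ v → y ≠ v → P i y → O i x y → P i x) ∧
        (∀ x, D x v → ∃ i, ¬ P i x ∧ ∀ j, j ≠ i → P j x) ∧
        (∀ x, D v x → ∃ i, P i x ∧ ∀ j, j ≠ i → ¬ P j x)) : Solv D S := by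
  intro O hO hex
  obtain ⟨O1, a1, a2, a3⟩ := hs O hO fun x y hx hy hxy => hex x y hx hy (hS x y hx hy hxy)
  obtain ⟨P, p1, p2, p3⟩ := h O1 a1 a2
  obtain ⟨O2, b1, b2, b3⟩ := insert_orders hirr a1
    (fun x y hxy => a2 x y (hsub x y hxy.1 hxy.2.1 hxy.2.2)) P p1 p2 p3
  refine ⟨O2, b1, b2, ?_⟩
  intro i x y hx hy
  have hx' : x ≠ v := by rintro rfl; exact hv hx
  have hy' : y ≠ v := by rintro rfl; exact hv hy
  rw [b3 i x y hx' hy']
  exact a3 i x y hx hy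

/-- **O2** (source). -/
theorem source_solv {D : V → V → Prop} {S : V → Prop} {v : V} (hv : ¬ S v)
    (hsrc : ∀ x, ¬ D x v) (hs : Solv (Wo D v) S) : Solv D S := by
  refine insert_solv hv (hsrc v) (fun x y h hx hy => ⟨h, hx, hy⟩) (fun x y _ _ h => h.1) hs ?_
  intro O hO hex
  refine ⟨fun i _ => i = 0, fun i x y _ _ h _ => h, fun x h => absurd h (hsrc x), ?_⟩
  intro x _
  exact ⟨0, rfl, fun j hj => hj⟩

/-- **O2** (sink). -/
theorem sink_solv {D : V → V → Prop} {S : V → Prop} {v : V} (hv : ¬ S v)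
    (hsnk : ∀ x, ¬ D v x) (hs : Solv (Wo D v) S) : Solv D S := by
  refine insert_solv hv (hsnk v) (fun x y h hx hy => ⟨h, hx, hy⟩) (fun x y _ _ h => h.1) hs ?_
  intro O hO hex
  refine ⟨fun i _ => i ≠ 0, fun i x y _ _ h _ => h, ?_, fun x h => absurd h (hsnk x)⟩
  intro x _
  exact ⟨0, fun h => h rfl, fun j hj => hj⟩

/-- **O3**: contraction of the arc `y → b`, `y ∉ S`. -/
theorem contract_solv {D : V → V → Prop} {S : V → Prop} {y b : V} (hy : ¬ S y) (hyb : y ≠ b)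
    (hirr : ∀ x, ¬ D x x) (hby : ¬ D b y)
    (hSb : ∀ x, S x → S b → x ≠ b → (D y x → D b x) ∧ (D x y → D x b))
    (hs : Solv (Ren D y b) S) : Solv D S := by
  intro O hO hex
  obtain ⟨O1, a1, a2, a3⟩ := hs O hO (by
    rintro x z hx hz ⟨h1, h2, h3 | ⟨rfl, h3, h4⟩ | ⟨rfl, h3, h4⟩⟩
    · exact hex x z hx hz h3
    · exact hex x z hx hz ((hSb z hz hx h3).1 h4)
    · exact hex x z hx hz ((hSb x hx hz h3).2 h4))
  have hP : ∀ i x z, x ≠ y → z ≠ y → (O1 i z b ∨ (z = b ∧ i = 0)) → O1 i x z →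
      (O1 i x b ∨ (x = b ∧ i = 0)) := by
    rintro i x z _ _ (h1 | ⟨rfl, h1⟩) h2
    · exact Or.inl ((a1 i).tr _ _ _ h2 h1)
    · exact Or.inl h2
  have hb : ∀ i, ¬ O1 i b b := fun i => (a1 i).irr b
  have key : ∀ x, x ≠ b → ∀ i, ((O1 i x b ∨ (x = b ∧ i = 0)) ↔ O1 i x b) := fun x hx i =>
    ⟨fun h => h.resolve_right fun h' => hx h'.1, Or.inl⟩
  obtain ⟨O2, b1, b2, b3⟩ := insert_orders (v := y) (hirr y) a1
    (fun x z hxz => a2 x z ⟨hxz.2.1, hxz.2.2, Or.inl hxz.1⟩)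
    (fun i x => O1 i x b ∨ (x = b ∧ i = 0)) hP (by
      intro x hx
      have hxb : x ≠ b := by rintro rfl; exact hby hx
      have hxy : x ≠ y := by rintro rfl; exact hirr _ hx
      obtain ⟨i, h1, h2⟩ := a2 x b ⟨hxy, hyb.symm, Or.inr (Or.inr ⟨rfl, hxb, hx⟩)⟩
      refine ⟨i, ?_, fun j hj => Or.inl (h2 j hj)⟩
      rw [key x hxb]
      exact (a1 i).asymm h1) (by
      intro x hx
      have hxy : x ≠ y := by rintro rfl; exact hirr _ hx
      by_cases hxb : x = b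
      · subst hxb
        exact ⟨0, Or.inr ⟨rfl, rfl⟩, fun j hj h => h.elim (hb j) fun h' => hj h'.2⟩
      · obtain ⟨i, h1, h2⟩ := a2 b x ⟨hyb.symm, hxy, Or.inr (Or.inl ⟨rfl, hxb, hx⟩)⟩
        refine ⟨i, Or.inl h1, fun j hj => ?_⟩
        rw [key x hxb]
        exact (a1 j).asymm (h2 j hj))
  refine ⟨O2, b1, b2, ?_⟩
  intro i x z hx hz
  have hx' : x ≠ y := by rintro rfl; exact hy hx
  have hz' : z ≠ y := by rintro rfl; exact hy hz
  rw [b3 i x z hx' hz']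
  exact a3 i x z hx hz

/-- **O3**: contraction of the arc `b → y`, `y ∉ S`. -/
theorem contract_solv' {D : V → V → Prop} {S : V → Prop} {y b : V} (hy : ¬ S y) (hyb : y ≠ b)
    (hirr : ∀ x, ¬ D x x) (hby : ¬ D y b)
    (hSb : ∀ x, S x → S b → x ≠ b → (D y x → D b x) ∧ (D x y → D x b))
    (hs : Solv (Ren D y b) S) : Solv D S := by
  intro O hO hex
  obtain ⟨O1, a1, a2, a3⟩ := hs O hO (by
    rintro x z hx hz ⟨h1, h2, h3 | ⟨rfl, h3, h4⟩ | ⟨rfl, h3, h4⟩⟩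
    · exact hex x z hx hz h3
    · exact hex x z hx hz ((hSb z hz hx h3).1 h4)
    · exact hex x z hx hz ((hSb x hx hz h3).2 h4))
  have hP : ∀ i x z, x ≠ y → z ≠ y → (O1 i z b ∨ (z = b ∧ i ≠ 0)) → O1 i x z →
      (O1 i x b ∨ (x = b ∧ i ≠ 0)) := by
    rintro i x z _ _ (h1 | ⟨rfl, h1⟩) h2
    · exact Or.inl ((a1 i).tr _ _ _ h2 h1)
    · exact Or.inl h2
  have hb : ∀ i, ¬ O1 i b b := fun i => (a1 i).irr b
  have key : ∀ x, x ≠ b → ∀ i, ((O1 i x b ∨ (x = b ∧ i ≠ 0)) ↔ O1 i x b) := fun x hx i =>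
    ⟨fun h => h.resolve_right fun h' => hx h'.1, Or.inl⟩
  obtain ⟨O2, b1, b2, b3⟩ := insert_orders (v := y) (hirr y) a1
    (fun x z hxz => a2 x z ⟨hxz.2.1, hxz.2.2, Or.inl hxz.1⟩)
    (fun i x => O1 i x b ∨ (x = b ∧ i ≠ 0)) hP (by
      intro x hx
      have hxy : x ≠ y := by rintro rfl; exact hirr _ hx
      by_cases hxb : x = b
      · subst hxb
        exact ⟨0, fun h => h.elim (hb 0) fun h' => h'.2 rfl, fun j hj => Or.inr ⟨rfl, hj⟩⟩
      · obtain ⟨i, h1, h2⟩ := a2 x b ⟨hxy, hyb.symm, Or.inr (Or.inr ⟨rfl, hxb, hx⟩)⟩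
        refine ⟨i, ?_, fun j hj => Or.inl (h2 j hj)⟩
        rw [key x hxb]
        exact (a1 i).asymm h1) (by
      intro x hx
      have hxb : x ≠ b := by rintro rfl; exact hby hx
      have hxy : x ≠ y := by rintro rfl; exact hirr _ hx
      obtain ⟨i, h1, h2⟩ := a2 b x ⟨hyb.symm, hxy, Or.inr (Or.inl ⟨rfl, hxb, hx⟩)⟩
      refine ⟨i, Or.inl h1, fun j hj => ?_⟩
      rw [key x hxb]
      exact (a1 j).asymm (h2 j hj))
  refine ⟨O2, b1, b2, ?_⟩
  intro i x z hx hz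
  have hx' : x ≠ y := by rintro rfl; exact hy hx
  have hz' : z ≠ y := by rintro rfl; exact hy hz
  rw [b3 i x z hx' hz']
  exact a3 i x z hx hz

end Pool.Agent.H65.G4
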