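import Pool.Agent.H65.G4.Img

/-!
# Path contraction: the frame

`u` inner, the quad `u → o → s → i → u` with dummy `d`; delete `u`, contract `o, s, i` to one of
them, `w`, and add arcs at one centre `p0` (`w` or another neighbour of `u`).
-/

set_option autoImplicit false

namespace Pool.Agent.H65.G4

open Relation Pool.Agent.H13.DA Pool.Agent.H72.G4 Pool.Agent.H21.G4 Pool.Agent.H13.G4

variable {V : Type*} [DecidableEq V] {T : Finset (V × V × V)} {D : V → V → Prop} {a b c : V}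

/-- the directed quad `u → o → s → i → u` with dummy `d` -/
structure Qd (T : Finset (V × V × V)) (D : V → V → Prop) (u o s i d : V) : Prop where
  uo : D u o
  os : D o s
  si : D s i
  iu : D i u
  nd : ¬ Re D d
  adj : ∀ q, Adj T d q ↔ q = u ∨ q = o ∨ q = s ∨ q = i

/-- the contracted set -/
def Wq (o s i d : V) (x : V) : Prop := x = o ∨ x = s ∨ x = i ∨ x = d

/-- `w, y1, y2` are `o, s, i` in some order -/
def Prm (o s i w y1 y2 : V) : Prop :=
  (w = o ∧ ((y1 = s ∧ y2 = i) ∨ (y1 = i ∧ y2 = s))) ∨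
  (w = s ∧ ((y1 = o ∧ y2 = i) ∨ (y1 = i ∧ y2 = o))) ∨
  (w = i ∧ ((y1 = o ∧ y2 = s) ∨ (y1 = s ∧ y2 = o)))

omit [DecidableEq V] in
theorem Prm.iff {o s i w y1 y2 : V} (h : Prm o s i w y1 y2) (d x : V) :
    Wq o s i d x ↔ ((x = w ∨ x = d) ∨ x = y1) ∨ x = y2 := by
  unfold Wq
  rcases h with ⟨rfl, ⟨rfl, rfl⟩ | ⟨rfl, rfl⟩⟩ | ⟨rfl, ⟨rfl, rfl⟩ | ⟨rfl, rfl⟩⟩ |
    ⟨rfl, ⟨rfl, rfl⟩ | ⟨rfl, rfl⟩⟩ <;> tauto

omit [DecidableEq V] in
theorem Prm.mem {o s i w y1 y2 : V} (h : Prm o s i w y1 y2) :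
    (w = o ∨ w = s ∨ w = i) ∧ (y1 = o ∨ y1 = s ∨ y1 = i) ∧ (y2 = o ∨ y2 = s ∨ y2 = i) := by
  rcases h with ⟨rfl, ⟨rfl, rfl⟩ | ⟨rfl, rfl⟩⟩ | ⟨rfl, ⟨rfl, rfl⟩ | ⟨rfl, rfl⟩⟩ |
    ⟨rfl, ⟨rfl, rfl⟩ | ⟨rfl, rfl⟩⟩ <;> tauto

omit [DecidableEq V] in
theorem tr_re (hT : Out D a b c) {x : V} (h : Tr a b c x) : Re D x := by
  obtain ⟨h1, h2, h3⟩ := hT
  rcases h with rfl | rfl | rfl
  · exact ⟨b, h1⟩
  · exact ⟨c, h2⟩
  · exact ⟨a, h3⟩

section

variable {u o s i d w y1 y2 : V}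

omit [DecidableEq V] in
theorem Qd.ne (hT : Ts T D a b c) (h : Qd T D u o s i d) :
    u ≠ o ∧ u ≠ s ∧ u ≠ i ∧ u ≠ d ∧ o ≠ s ∧ o ≠ i ∧ o ≠ d ∧ s ≠ i ∧ s ≠ d ∧ i ≠ d := by
  have has := hT.pl.asymm
  have irr : ∀ x, ¬ D x x := fun x h => has x x h h
  refine ⟨?_, ?_, ?_, ?_, ?_, ?_, ?_, ?_, ?_, ?_⟩
  · rintro rfl; exact irr _ h.uo
  · rintro rfl; exact has _ _ h.uo h.os
  · rintro rfl; exact irr _ h.iu
  · rintro rfl; exact h.nd ⟨o, Or.inl h.uo⟩
  · rintro rfl; exact irr _ h.os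
  · rintro rfl; exact has _ _ h.uo h.iu
  · rintro rfl; exact h.nd ⟨s, Or.inl h.os⟩
  · rintro rfl; exact irr _ h.si
  · rintro rfl; exact h.nd ⟨i, Or.inl h.si⟩
  · rintro rfl; exact h.nd ⟨u, Or.inl h.iu⟩

omit [DecidableEq V] in
/-- the condition of `con_step` for a vertex `y` of the path -/
theorem Qd.cond (hT : Ts T D a b c) (h : Qd T D u o s i d)
    (n1 : ∀ q, Adj T o q → Adj T i q → q = u ∨ q = s ∨ q = d) {W : V → Prop} (hWd : W d)
    (hW : ∀ x, W x → Wq o s i d x) {y : V} (hy : y = o ∨ y = s ∨ y = i) (hyT : ¬ Tr a b c y)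
    (hyW : ¬ W y) :
    ∀ q z, ¬ W q → q ≠ y → Adj T y q → W z → Adj T z q → ∃ z', W z' ∧ Face T y z' q := by
  have hdT : ¬ Tr a b c d := fun k => h.nd (tr_re hT.out k)
  have ado : Adj T d y := by
    rw [h.adj]
    tauto
  intro q z hq hqy h1 hz h2
  have fd : Adj T d q → ∃ z', W z' ∧ Face T y z' q := by
    intro k
    rcases hT.fc y d q ado.symm k h1.symm with k' | ⟨_, k', _⟩
    · exact ⟨d, hWd, k'⟩
    · exact absurd k' hdT
  have fz : Adj T y z → ∃ z', W z' ∧ Face T y z' q := by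
    intro k
    rcases hT.fc y z q k h2 h1.symm with k' | ⟨k', _⟩
    · exact ⟨z, hz, k'⟩
    · exact absurd k' hyT
  have aos : Adj T o s := hT.pl.adj _ _ h.os
  have asi : Adj T s i := hT.pl.adj _ _ h.si
  have key : (q = u ∨ q = s ∨ q = d) → ∃ z', W z' ∧ Face T y z' q := by
    rintro (rfl | rfl | rfl)
    · exact fd ((h.adj _).2 (Or.inl rfl))
    · exact fd ((h.adj _).2 (Or.inr (Or.inr (Or.inl rfl))))
    · exact absurd hWd hq
  rcases hW z hz with rfl | rfl | rfl | rfl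
  · rcases hy with rfl | rfl | rfl
    · exact absurd hz hyW
    · exact fz aos.symm
    · exact key (n1 q h2 h1)
  · rcases hy with rfl | rfl | rfl
    · exact fz aos
    · exact absurd hz hyW
    · exact fz asi.symm
  · rcases hy with rfl | rfl | rfl
    · exact key (n1 q h1 h2)
    · exact fz asi
    · exact absurd hz hyW
  · exact fd h2

/-- the carrier after the contraction of the path -/
theorem pc_path [Infinite V] (hT : Ts T D a b c) (h : Qd T D u o s i d)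
    (hp : Prm o s i w y1 y2) (hy1 : ¬ Tr a b c y1) (hy2 : ¬ Tr a b c y2)
    (n1 : ∀ q, Adj T o q → Adj T i q → q = u ∨ q = s ∨ q = d) :
    ∃ T', Im T T' (rp (Wq o s i d) w) := by
  obtain ⟨m1, m2, m3⟩ := hp.mem
  obtain ⟨-, -, -, -, e5, e6, e7, e8, e9, e10⟩ := h.ne hT
  have hdT : ¬ Tr a b c d := fun k => h.nd (tr_re hT.out k)
  have tl : ∀ {x}, ¬ Tr a b c x → x ∉ [a, b, c] := by
    intro x hx k
    apply hx
    simpa [Tr] using k
  have hdw : d ≠ w := by rcases m1 with rfl | rfl | rfl <;> (intro e; simp_all)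
  have had : ∀ x, (x = o ∨ x = s ∨ x = i) → Adj T d x := fun x hx => (h.adj x).2 (Or.inr hx)
  have n12 : y1 ≠ w ∧ y2 ≠ w ∧ y1 ≠ y2 ∧ y1 ≠ d ∧ y2 ≠ d := by
    rcases hp with ⟨rfl, ⟨rfl, rfl⟩ | ⟨rfl, rfl⟩⟩ | ⟨rfl, ⟨rfl, rfl⟩ | ⟨rfl, rfl⟩⟩ |
      ⟨rfl, ⟨rfl, rfl⟩ | ⟨rfl, rfl⟩⟩
    · exact ⟨e5.symm, e6.symm, e8, e9, e10⟩
    · exact ⟨e6.symm, e5.symm, e8.symm, e10, e9⟩
    · exact ⟨e5, e8.symm, e6, e7, e10⟩
    · exact ⟨e8.symm, e5, e6.symm, e10, e7⟩
    · exact ⟨e6, e8, e5, e7, e9⟩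
    · exact ⟨e8, e6, e5.symm, e9, e7⟩
  obtain ⟨q1, q2, q3, q4, q5⟩ := n12
  have I0 : Im T T (rp (fun x => x = w) w) := by
    have e : rp (fun x => x = w) w = fun x : V => x := by
      funext x
      by_cases hx : x = w
      · rw [rp_in (W := fun x => x = w) hx, hx]
      · rw [rp_out (W := fun x => x = w) hx]
    rw [e]
    exact Im.of_id hT.pl.disc
  obtain ⟨T1, I1⟩ := con_step (y := d) (W := fun x => x = w) rfl I0 hT.pl.bd (tl hdT) hdw
    ⟨w, rfl, had w m1⟩ (by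
      rintro q z hq hqd k1 rfl k2
      rcases hT.fc d z q (had z m1) k2 k1.symm with k | ⟨k, _⟩
      · exact ⟨z, rfl, k⟩
      · exact absurd k hdT)
  obtain ⟨T2, I2⟩ := con_step (y := y1) (W := fun x => x = w ∨ x = d) (Or.inl rfl) I1 hT.pl.bd
    (tl hy1) (by rintro (k | k); exacts [q1 k, q4 k]) ⟨d, Or.inr rfl, (had y1 m2).symm⟩
    (h.cond hT n1 (Or.inr rfl) (fun x hx => (hp.iff d x).2 (Or.inl (Or.inl hx))) m2 hy1
      (by rintro (k | k); exacts [q1 k, q4 k]))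
  obtain ⟨T3, I3⟩ := con_step (y := y2) (W := fun x => (x = w ∨ x = d) ∨ x = y1)
    (Or.inl (Or.inl rfl)) I2 hT.pl.bd
    (tl hy2) (by rintro ((k | k) | k); exacts [q2 k, q5 k, q3 k.symm])
    ⟨d, Or.inl (Or.inr rfl), (had y2 m3).symm⟩
    (h.cond hT n1 (Or.inl (Or.inr rfl)) (fun x hx => (hp.iff d x).2 (Or.inl hx)) m3 hy2
      (by rintro ((k | k) | k); exacts [q2 k, q5 k, q3 k.symm]))
  refine ⟨T3, ?_⟩
  have e : Wq o s i d = fun x => ((x = w ∨ x = d) ∨ x = y1) ∨ x = y2 := by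
    funext x
    exact propext (hp.iff d x)
  rw [e]
  exact I3

/-- **The carrier of a path contraction**, with the centre `p0` of the new arcs. -/
theorem pc_carrier [Infinite V] (hT : Ts T D a b c) (h : Qd T D u o s i d)
    (hu : ¬ Tr a b c u)
    (hp : Prm o s i w y1 y2) (hy1 : ¬ Tr a b c y1) (hy2 : ¬ Tr a b c y2)
    (n1 : ∀ q, Adj T o q → Adj T i q → q = u ∨ q = s ∨ q = d)
    (n2 : ∀ q, Adj T u q → Adj T s q → q = o ∨ q = i ∨ q = d)
    {p0 : V} (hp0 : p0 = w ∨ (Adj T u p0 ∧ ¬ Wq o s i d p0)) :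
    ∃ T', Disc T' ∧ (∀ l, IsBd T l → IsBd T' l) ∧
      (∀ x y, Adj T x y → x ≠ u → y ≠ u → rp (Wq o s i d) w x ≠ rp (Wq o s i d) w y →
        Adj T' (rp (Wq o s i d) w x) (rp (Wq o s i d) w y)) ∧
      ∀ n, Adj T u n → rp (Wq o s i d) w n ≠ p0 → Adj T' p0 (rp (Wq o s i d) w n) := by
  obtain ⟨T1, I1⟩ := pc_path hT h hp hy1 hy2 n1
  obtain ⟨e1, e2, e3, e4, -⟩ := h.ne hT
  obtain ⟨m1, -, -⟩ := hp.mem
  have hul : u ∉ [a, b, c] := by
    intro k
    apply hu
    simpa [Tr] using k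
  have huW : ¬ Wq o s i d u := by
    rintro (k | k | k | k)
    · exact e1 k
    · exact e2 k
    · exact e3 k
    · exact e4 k
  have hwW : Wq o s i d w := by
    rcases m1 with k | k | k
    · exact Or.inl k
    · exact Or.inr (Or.inl k)
    · exact Or.inr (Or.inr (Or.inl k))
  have huw : u ≠ w := fun k => huW (k ▸ hwW)
  have auo : Adj T u o := hT.pl.adj _ _ h.uo
  have aui : Adj T u i := (hT.pl.adj _ _ h.iu).symm
  -- a face at u, o or u, i
  have fo : ∀ q, Adj T u q → Adj T o q → Face T u o q := by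
    intro q k1 k2
    rcases hT.fc u o q auo k2 k1.symm with k | ⟨k, _⟩
    · exact k
    · exact absurd k hu
  have fi : ∀ q, Adj T u q → Adj T i q → Face T u i q := by
    intro q k1 k2
    rcases hT.fc u i q aui k2 k1.symm with k | ⟨k, _⟩
    · exact k
    · exact absurd k hu
  rcases hp0 with rfl | ⟨hp1, hp2⟩
  · obtain ⟨T2, I2⟩ := con_step hwW I1 hT.pl.bd hul huW ⟨o, Or.inl rfl, auo⟩ (by
      intro q z hq hqu k1 hz k2
      rcases hz with rfl | rfl | rfl | rfl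
      · exact ⟨z, Or.inl rfl, fo q k1 k2⟩
      · rcases n2 q k1 k2 with rfl | rfl | rfl
        · exact absurd (Or.inl rfl) hq
        · exact absurd (Or.inr (Or.inr (Or.inl rfl))) hq
        · exact absurd (Or.inr (Or.inr (Or.inr rfl))) hq
      · exact ⟨z, Or.inr (Or.inr (Or.inl rfl)), fi q k1 k2⟩
      · rcases (h.adj q).1 k2 with rfl | k | k | k
        · exact absurd rfl hqu
        · exact absurd (Or.inl k) hq
        · exact absurd (Or.inr (Or.inl k)) hq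
        · exact absurd (Or.inr (Or.inr (Or.inl k))) hq)
    have same : ∀ x, x ≠ u → rp (fun z => Wq o s i d z ∨ z = u) p0 x = rp (Wq o s i d) p0 x := by
      intro x hx
      by_cases k : Wq o s i d x
      · rw [rp_in k, rp_in (W := fun z => Wq o s i d z ∨ z = u) (Or.inl k)]
      · rw [rp_out k, rp_out (W := fun z => Wq o s i d z ∨ z = u)
          (by rintro (k' | k'); exacts [k k', hx k'])]
    refine ⟨T2, I2.disc, I2.bd, ?_, ?_⟩
    · intro x y hxy hx hy hne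
      exact (I2.adj _ _).2 ⟨hne, x, y, same x hx, same y hy, hxy⟩
    · intro n hn hne
      exact (I2.adj _ _).2 ⟨hne.symm, u, n,
        rp_in (W := fun z => Wq o s i d z ∨ z = u) (Or.inr rfl),
        same n (adj_ne hT.pl.disc.cx hn).symm, hn⟩
  · have hup : u ≠ p0 := adj_ne hT.pl.disc.cx hp1
    have rp0 : rp (Wq o s i d) w p0 = p0 := rp_out hp2
    have ru : rp (Wq o s i d) w u = u := rp_out huW
    have hpw : p0 ≠ w := fun k => hp2 (k ▸ hwW)
    obtain ⟨T2, I2⟩ := I1.step (y := u) (p := p0) hT.pl.bd hul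
      ((I1.adj u p0).2 ⟨hup, u, p0, ru, rp0, hp1⟩) (by
      intro q hq1 hq2
      obtain ⟨k1, u', q', f1, f2, f3⟩ := (I1.adj u q).1 hq1
      obtain ⟨k2, p', q'', g1, g2, g3⟩ := (I1.adj p0 q).1 hq2
      obtain ⟨rfl, -⟩ := rp_eq f1 huw
      obtain ⟨rfl, -⟩ := rp_eq g1 hpw
      -- a face of T at u', p', z with image q
      have key : ∃ z, Face T u' p' z ∧ rp (Wq o s i d) w z = q := by
        by_cases hqw : q = w
        · subst hqw
          have hz := rp_eq_w hwW g2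
          have g4 : q'' = o ∨ q'' = i := by
            rcases hz with k | k | k | k
            · exact Or.inl k
            · subst k
              rcases n2 p' hp1 g3.symm with k | k | k
              · exact absurd (Or.inl k) hp2
              · exact absurd (Or.inr (Or.inr (Or.inl k))) hp2
              · exact absurd (Or.inr (Or.inr (Or.inr k))) hp2
            · exact Or.inr k
            · subst k
              rcases (h.adj p').1 g3.symm with k | k | k | k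
              · exact absurd k.symm hup
              · exact absurd (Or.inl k) hp2
              · exact absurd (Or.inr (Or.inl k)) hp2
              · exact absurd (Or.inr (Or.inr (Or.inl k))) hp2
          refine ⟨q'', ?_, g2⟩
          rcases g4 with rfl | rfl
          · exact (fo p' hp1 g3.symm).symm
          · exact (fi p' hp1 g3.symm).symm
        · obtain ⟨rfl, hq'⟩ := rp_eq f2 hqw
          obtain ⟨rfl, -⟩ := rp_eq g2 hqw
          refine ⟨q'', ?_, rp_out hq'⟩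
          rcases hT.fc u' p' q'' hp1 g3 f3.symm with k | ⟨k, _⟩
          · exact k
          · exact absurd k hu
      obtain ⟨z, z1, z2⟩ := key
      rcases z1 with z1 | z1
      · left
        have := I1.face _ _ _ z1 (by rw [ru, rp0]; exact hup) (by rw [rp0, z2]; exact k2)
          (by rw [z2, ru]; exact k1.symm)
        rwa [ru, rp0, z2] at this
      · right
        have := I1.face _ _ _ z1 (by rw [ru, z2]; exact k1) (by rw [z2, rp0]; exact k2.symm)
          (by rw [rp0, ru]; exact hup.symm)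
        rwa [ru, rp0, z2] at this)
    have same : ∀ x, x ≠ u → (if rp (Wq o s i d) w x = u then p0 else rp (Wq o s i d) w x) =
        rp (Wq o s i d) w x := by
      intro x hx
      rw [if_neg]
      intro k
      exact hx (rp_eq k huw).1
    refine ⟨T2, I2.disc, I2.bd, ?_, ?_⟩
    · intro x y hxy hx hy hne
      exact (I2.adj _ _).2 ⟨hne, x, y, same x hx, same y hy, hxy⟩
    · intro n hn hne
      refine (I2.adj _ _).2 ⟨hne.symm, u, n, ?_, same n (adj_ne hT.pl.disc.cx hn).symm, hn⟩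
      rw [ru, if_pos rfl]

/-- **Path contraction.** -/
theorem pc_fill [Infinite V] (hM : MCw T D a b c) (hT : Ts T D a b c) (h : Qd T D u o s i d)
    (hu : ¬ Tr a b c u)
    (hp : Prm o s i w y1 y2) (hy1 : ¬ Tr a b c y1) (hy2 : ¬ Tr a b c y2)
    (n1 : ∀ q, Adj T o q → Adj T i q → q = u ∨ q = s ∨ q = d)
    (n2 : ∀ q, Adj T u q → Adj T s q → q = o ∨ q = i ∨ q = d)
    {A : V → V → Prop} {p0 : V} (hp0 : p0 = w ∨ (Adj T u p0 ∧ ¬ Wq o s i d p0))
    (hA : ∀ x y, A x y → Re D x ∧ Re D y ∧ x ≠ u ∧ y ≠ u ∧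
      ((rp (Wq o s i d) w x = p0 ∧ ∃ n, Adj T u n ∧
          rp (Wq o s i d) w n = rp (Wq o s i d) w y) ∨
        (rp (Wq o s i d) w y = p0 ∧ ∃ n, Adj T u n ∧
          rp (Wq o s i d) w n = rp (Wq o s i d) w x)))
    (has : ∀ x y, Imd (rp (Wq o s i d) w) (Fil D u A) x y →
      ¬ Imd (rp (Wq o s i d) w) (Fil D u A) y x)
    (htr : ∀ x y z, Imd (rp (Wq o s i d) w) (Fil D u A) x y →
      Imd (rp (Wq o s i d) w) (Fil D u A) y z → ¬ Imd (rp (Wq o s i d) w) (Fil D u A) z x)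
    (hlift : ∀ O : Fin 3 → V → V → Prop, (∀ i, STO (O i)) →
      (∀ x y, Imd (rp (Wq o s i d) w) (Fil D u A) x y → Ex O x y) →
      ∃ O' : Fin 3 → V → V → Prop, (∀ i, STO (O' i)) ∧ (∀ x y, D x y → Ex O' x y) ∧
        ∀ i x y, x ≠ u → y ≠ u → x ≠ y1 → y ≠ y1 → x ≠ y2 → y ≠ y2 →
          (O' i x y ↔ O i x y)) : False := by
  obtain ⟨T', d1, d2, d3, d4⟩ := pc_carrier hT h hu hp hy1 hy2 n1 n2 hp0
  obtain ⟨m1, m2, m3⟩ := hp.mem
  obtain ⟨e1, e2, e3, e4, e5, e6, e7, e8, e9, e10⟩ := h.ne hT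
  have hdr := h.nd
  have irr : ∀ x, ¬ D x x := fun x k => hT.pl.asymm x x k k
  have hTu : ∀ x, Tr a b c x → x ≠ u := fun x hx k => hu (k ▸ hx)
  -- outer vertices are fixed
  have hfix : ∀ x, Tr a b c x → rp (Wq o s i d) w x = x := by
    intro x hx
    by_cases k : Wq o s i d x
    · rw [rp_in k]
      rcases (hp.iff d x).1 k with ((k | k) | k) | k
      · exact k.symm
      · exact absurd (tr_re hT.out (k ▸ hx)) hdr
      · exact absurd (k ▸ hx) hy1
      · exact absurd (k ▸ hx) hy2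
    · exact rp_out k
  have hP : Pl T' (Imd (rp (Wq o s i d) w) (Fil D u A)) [a, b, c] := by
    refine ⟨d1, d2 _ hT.pl.bd, ?_, has, htr⟩
    rintro x y ⟨hxy, x', y', rfl, rfl, k | k⟩
    · exact d3 x' y' (hT.pl.adj _ _ k.1) k.2.1 k.2.2 hxy
    · obtain ⟨-, -, -, -, ⟨k1, n, k2, k3⟩ | ⟨k1, n, k2, k3⟩⟩ := hA x' y' k
      · rw [k1, ← k3]
        refine d4 n k2 ?_
        rw [k3, ← k1]
        exact hxy.symm
      · rw [k1, ← k3]
        refine (d4 n k2 ?_).symm
        rw [k3, ← k1]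
        exact hxy
  refine reduce hM hP ?_ ?_ ?_
  · intro x y hx hy hxy
    refine ⟨?_, x, y, hfix x hx, hfix y hy, Or.inl ⟨hxy, hTu x hx, hTu y hy⟩⟩
    rintro rfl
    exact irr _ hxy
  · have hwr : Re D w := by
      rcases m1 with rfl | rfl | rfl
      · exact ⟨s, Or.inl h.os⟩
      · exact ⟨i, Or.inl h.si⟩
      · exact ⟨u, Or.inl h.iu⟩
    have hre : ∀ x, Re D x → Re D (rp (Wq o s i d) w x) := by
      intro x hx
      by_cases k : Wq o s i d x
      · rw [rp_in k]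
        exact hwr
      · rw [rp_out k]
        exact hx
    have huw : u ≠ w := by
      rcases m1 with rfl | rfl | rfl
      · exact e1
      · exact e2
      · exact e3
    refine Set.ncard_lt_ncard ?_ hT.pl.re_fin
    refine ⟨?_, fun hsub => ?_⟩
    · have key : ∀ x y, Imd (rp (Wq o s i d) w) (Fil D u A) x y → Re D x ∧ Re D y := by
        rintro x y ⟨_, x', y', rfl, rfl, k | k⟩
        · exact ⟨hre _ ⟨y', Or.inl k.1⟩, hre _ ⟨x', Or.inr k.1⟩⟩
        · obtain ⟨k1, k2, _⟩ := hA x' y' k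
          exact ⟨hre _ k1, hre _ k2⟩
      rintro x ⟨y, k | k⟩
      · exact (key x y k).1
      · exact (key y x k).2
    · have key : ∀ x y, Imd (rp (Wq o s i d) w) (Fil D u A) x y → x ≠ u ∧ y ≠ u := by
        rintro x y ⟨_, x', y', k1, k2, k⟩
        have hne : x' ≠ u ∧ y' ≠ u := by
          rcases k with k | k
          · exact k.2
          · obtain ⟨_, _, k3, k4, _⟩ := hA x' y' k
            exact ⟨k3, k4⟩
        constructor
        · rintro rfl
          exact hne.1 (rp_eq k1 huw).1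
        · rintro rfl
          exact hne.2 (rp_eq k2 huw).1
      obtain ⟨y, k | k⟩ := hsub (show Re D u from ⟨o, Or.inl h.uo⟩)
      · exact (key u y k).1 rfl
      · exact (key y u k).2 rfl
  · intro O hO hE
    obtain ⟨O', o1, o2, o3⟩ := hlift O hO hE
    refine ⟨O', o1, o2, ?_⟩
    intro i x y hx hy
    refine o3 i x y (hTu x hx) (hTu y hy) ?_ ?_ ?_ ?_
    · rintro rfl; exact hy1 hx
    · rintro rfl; exact hy1 hy
    · rintro rfl; exact hy2 hx
    · rintro rfl; exact hy2 hy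

end

end Pool.Agent.H65.G4
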