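import Pool.Agent.H65.G4.Pc

/-!
# Path contraction with an arc across a second quad corner

The star at `w`, and arcs between `p` and `p'` across the second dummy `d2` at `u`.
-/

set_option autoImplicit false

namespace Pool.Agent.H65.G4

open Relation Pool.Agent.H13.DA Pool.Agent.H72.G4 Pool.Agent.H21.G4 Pool.Agent.H13.G4

variable {V : Type*} [DecidableEq V] {T : Finset (V × V × V)} {D : V → V → Prop} {a b c : V}

section

variable {u o s i d w y1 y2 : V}

/-- **The carrier of a path contraction** with centre `w` and a second corner. -/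
theorem pc_carrier2 [Infinite V] (hT : Ts T D a b c) (h : Qd T D u o s i d)
    (hu : ¬ Tr a b c u)
    (hp : Prm o s i w y1 y2) (hy1 : ¬ Tr a b c y1) (hy2 : ¬ Tr a b c y2)
    (n1 : ∀ q, Adj T o q → Adj T i q → q = u ∨ q = s ∨ q = d)
    (n2 : ∀ q, Adj T u q → Adj T s q → q = o ∨ q = i ∨ q = d)
    {d2 p p' : V} (hd2 : ¬ Re D d2) (hdd : d2 ≠ d) (a1 : Adj T u d2) (a2 : Adj T d2 p)
    (a3 : Adj T d2 p') (a4 : Adj T u p) (hpW : ¬ Wq o s i d p) (hpW' : ¬ Wq o s i d p')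
    (hpp : p ≠ p') (hp'u : p' ≠ u) :
    ∃ T', Disc T' ∧ (∀ l, IsBd T l → IsBd T' l) ∧
      (∀ x y, Adj T x y → x ≠ d2 → y ≠ d2 →
        rp (Wq o s i d) w x ≠ rp (Wq o s i d) w y → x ≠ u → y ≠ u →
        Adj T' (rp (Wq o s i d) w x) (rp (Wq o s i d) w y)) ∧
      (∀ n, Adj T u n → n ≠ d2 → rp (Wq o s i d) w n ≠ w →
        Adj T' w (rp (Wq o s i d) w n)) ∧ Adj T' p p' := by
  obtain ⟨T1, I1⟩ := pc_path hT h hp hy1 hy2 n1
  obtain ⟨e1, e2, e3, e4, -⟩ := h.ne hT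
  obtain ⟨m1, -, -⟩ := hp.mem
  have cx := hT.pl.disc.cx
  have hul : u ∉ [a, b, c] := by
    intro k
    apply hu
    simpa [Tr] using k
  have hd2T : ¬ Tr a b c d2 := fun k => hd2 (tr_re hT.out k)
  have hd2l : d2 ∉ [a, b, c] := by
    intro k
    apply hd2T
    simpa [Tr] using k
  have huW : ¬ Wq o s i d u := by
    rintro (k | k | k | k)
    · exact e1 k
    · exact e2 k
    · exact e3 k
    · exact e4 k
  have hwW : Wq o s i d w := by
    rcases m1 with k | k | k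
    · exact Or.inl k
    · exact Or.inr (Or.inl k)
    · exact Or.inr (Or.inr (Or.inl k))
  have huw : u ≠ w := fun k => huW (k ▸ hwW)
  have auo : Adj T u o := hT.pl.adj _ _ h.uo
  have aui : Adj T u i := (hT.pl.adj _ _ h.iu).symm
  have fo : ∀ q, Adj T u q → Adj T o q → Face T u o q := by
    intro q k1 k2
    rcases hT.fc u o q auo k2 k1.symm with k | ⟨k, _⟩
    · exact k
    · exact absurd k hu
  have fi : ∀ q, Adj T u q → Adj T i q → Face T u i q := by
    intro q k1 k2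
    rcases hT.fc u i q aui k2 k1.symm with k | ⟨k, _⟩
    · exact k
    · exact absurd k hu
  obtain ⟨T2, I2⟩ := con_step hwW I1 hT.pl.bd hul huW ⟨o, Or.inl rfl, auo⟩ (by
    intro q z hq hqu k1 hz k2
    rcases hz with rfl | rfl | rfl | rfl
    · exact ⟨z, Or.inl rfl, fo q k1 k2⟩
    · rcases n2 q k1 k2 with rfl | rfl | rfl
      · exact absurd (Or.inl rfl) hq
      · exact absurd (Or.inr (Or.inr (Or.inl rfl))) hq
      · exact absurd (Or.inr (Or.inr (Or.inr rfl))) hq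
    · exact ⟨z, Or.inr (Or.inr (Or.inl rfl)), fi q k1 k2⟩
    · rcases (h.adj q).1 k2 with rfl | k | k | k
      · exact absurd rfl hqu
      · exact absurd (Or.inl k) hq
      · exact absurd (Or.inr (Or.inl k)) hq
      · exact absurd (Or.inr (Or.inr (Or.inl k))) hq)
  -- the second contraction: `d2` into `p`
  have hod : ∀ x, (x = o ∨ x = s ∨ x = i) → Re D x := by
    rintro x (rfl | rfl | rfl)
    · exact ⟨u, Or.inr h.uo⟩
    · exact ⟨_, Or.inl h.si⟩
    · exact ⟨_, Or.inl h.iu⟩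
  have hd2u : d2 ≠ u := (adj_ne cx a1).symm
  have hd2W : ¬ (Wq o s i d d2 ∨ d2 = u) := by
    rintro ((k | k | k | k) | k)
    · exact hd2 (hod d2 (Or.inl k))
    · exact hd2 (hod d2 (Or.inr (Or.inl k)))
    · exact hd2 (hod d2 (Or.inr (Or.inr k)))
    · exact hdd k
    · exact hd2u k
  have hpu : p ≠ u := (adj_ne cx a4).symm
  have hpW2 : ¬ (Wq o s i d p ∨ p = u) := by
    rintro (k | k)
    · exact hpW k
    · exact hpu k
  have hpW2' : ¬ (Wq o s i d p' ∨ p' = u) := by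
    rintro (k | k)
    · exact hpW' k
    · exact hp'u k
  have hd2p : d2 ≠ p := adj_ne cx a2
  have hd2p' : d2 ≠ p' := adj_ne cx a3
  have hwW2 : Wq o s i d w ∨ w = u := Or.inl hwW
  have hd2w : d2 ≠ w := fun k => hd2W (k ▸ hwW2)
  have hpw : p ≠ w := fun k => hpW2 (k ▸ hwW2)
  have r1 : rp (fun z => Wq o s i d z ∨ z = u) w d2 = d2 := rp_out hd2W
  have r2 : rp (fun z => Wq o s i d z ∨ z = u) w p = p := rp_out hpW2
  have r3 : rp (fun z => Wq o s i d z ∨ z = u) w p' = p' := rp_out hpW2'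
  have r4 : rp (fun z => Wq o s i d z ∨ z = u) w u = w := rp_in (W := fun z => Wq o s i d z ∨ z = u) (Or.inr rfl)
  obtain ⟨T3, I3⟩ := I2.step (y := d2) (p := p) hT.pl.bd hd2l
    ((I2.adj d2 p).2 ⟨hd2p, d2, p, r1, r2, a2⟩) (by
    intro q hq1 hq2
    have key : ∃ z, Face T d2 p z ∧ rp (fun z => Wq o s i d z ∨ z = u) w z = q := by
      by_cases hqw : q = w
      · refine ⟨u, ?_, ?_⟩
        · rcases hT.fc d2 p u a2 a4.symm a1 with k | ⟨k, _⟩
          · exact k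
          · exact absurd k hd2T
        · rw [hqw]
          exact r4
      · obtain ⟨k1, x1, q1, f1, f2, f3⟩ := (I2.adj d2 q).1 hq1
        obtain ⟨k2, x2, q2, g1, g2, g3⟩ := (I2.adj p q).1 hq2
        obtain ⟨rfl, -⟩ := rp_eq f1 hd2w
        obtain ⟨rfl, -⟩ := rp_eq g1 hpw
        obtain ⟨rfl, -⟩ := rp_eq f2 hqw
        obtain ⟨rfl, hq'⟩ := rp_eq g2 hqw
        refine ⟨q2, ?_, rp_out hq'⟩
        rcases hT.fc x1 x2 q2 a2 g3 f3.symm with k | ⟨k, _⟩
        · exact k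
        · exact absurd k hd2T
    obtain ⟨z, z1, z2⟩ := key
    have n1 := ((I2.adj d2 q).1 hq1).1
    have n2 := ((I2.adj p q).1 hq2).1
    rcases z1 with z1 | z1
    · left
      have := I2.face _ _ _ z1 (by rw [r1, r2]; exact hd2p) (by rw [r2, z2]; exact n2)
        (by rw [z2, r1]; exact n1.symm)
      rwa [r1, r2, z2] at this
    · right
      have := I2.face _ _ _ z1 (by rw [r1, z2]; exact n1) (by rw [z2, r2]; exact n2.symm)
        (by rw [r2, r1]; exact hd2p.symm)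
      rwa [r1, r2, z2] at this)
  have same : ∀ x, x ≠ u → x ≠ d2 →
      (if rp (fun z => Wq o s i d z ∨ z = u) w x = d2 then p else
        rp (fun z => Wq o s i d z ∨ z = u) w x) = rp (Wq o s i d) w x := by
    intro x hx hx2
    rw [if_neg]
    · by_cases k : Wq o s i d x
      · rw [rp_in k, rp_in (W := fun z => Wq o s i d z ∨ z = u) (Or.inl k)]
      · rw [rp_out k, rp_out (W := fun z => Wq o s i d z ∨ z = u)
          (by rintro (k' | k'); exacts [k k', hx k'])]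
    · intro k
      exact hx2 (rp_eq k hd2w).1
  refine ⟨T3, I3.disc, I3.bd, ?_, ?_, ?_⟩
  · intro x y hxy hx2 hy2' hne hx hy
    exact (I3.adj _ _).2 ⟨hne, x, y, same x hx hx2, same y hy hy2', hxy⟩
  · intro n hn hn2 hne
    refine (I3.adj _ _).2 ⟨hne.symm, u, n, ?_, same n (adj_ne cx hn).symm hn2, hn⟩
    rw [r4, if_neg hd2w.symm]
  · refine (I3.adj _ _).2 ⟨hpp, d2, p', ?_, ?_, a3⟩
    · rw [r1, if_pos rfl]
    · rw [r3, if_neg hd2p'.symm]

/-- **Path contraction, frame**: any carrier of the image of the filled digraph. -/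
theorem pc_frame [Infinite V] (hM : MCw T D a b c) (hT : Ts T D a b c) (h : Qd T D u o s i d)
    (hu : ¬ Tr a b c u)
    (hp : Prm o s i w y1 y2) (hy1 : ¬ Tr a b c y1) (hy2 : ¬ Tr a b c y2)
    {A : V → V → Prop} {T' : Finset (V × V × V)} (d1 : Disc T') (d2 : ∀ l, IsBd T l → IsBd T' l)
    (d3 : ∀ x y, Fil D u A x y → rp (Wq o s i d) w x ≠ rp (Wq o s i d) w y →
      Adj T' (rp (Wq o s i d) w x) (rp (Wq o s i d) w y))
    (hA : ∀ x y, A x y → Re D x ∧ Re D y ∧ x ≠ u ∧ y ≠ u)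
    (has : ∀ x y, Imd (rp (Wq o s i d) w) (Fil D u A) x y →
      ¬ Imd (rp (Wq o s i d) w) (Fil D u A) y x)
    (htr : ∀ x y z, Imd (rp (Wq o s i d) w) (Fil D u A) x y →
      Imd (rp (Wq o s i d) w) (Fil D u A) y z → ¬ Imd (rp (Wq o s i d) w) (Fil D u A) z x)
    (hlift : ∀ O : Fin 3 → V → V → Prop, (∀ i, STO (O i)) →
      (∀ x y, Imd (rp (Wq o s i d) w) (Fil D u A) x y → Ex O x y) →
      ∃ O' : Fin 3 → V → V → Prop, (∀ i, STO (O' i)) ∧ (∀ x y, D x y → Ex O' x y) ∧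
        ∀ i x y, x ≠ u → y ≠ u → x ≠ y1 → y ≠ y1 → x ≠ y2 → y ≠ y2 →
          (O' i x y ↔ O i x y)) : False := by
  obtain ⟨m1, m2, m3⟩ := hp.mem
  obtain ⟨e1, e2, e3, e4, e5, e6, e7, e8, e9, e10⟩ := h.ne hT
  have hdr := h.nd
  have irr : ∀ x, ¬ D x x := fun x k => hT.pl.asymm x x k k
  have hTu : ∀ x, Tr a b c x → x ≠ u := fun x hx k => hu (k ▸ hx)
  have hfix : ∀ x, Tr a b c x → rp (Wq o s i d) w x = x := by
    intro x hx
    by_cases k : Wq o s i d x
    · rw [rp_in k]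
      rcases (hp.iff d x).1 k with ((k | k) | k) | k
      · exact k.symm
      · exact absurd (tr_re hT.out (k ▸ hx)) hdr
      · exact absurd (k ▸ hx) hy1
      · exact absurd (k ▸ hx) hy2
    · exact rp_out k
  have hP : Pl T' (Imd (rp (Wq o s i d) w) (Fil D u A)) [a, b, c] := by
    refine ⟨d1, d2 _ hT.pl.bd, ?_, has, htr⟩
    rintro x y ⟨hxy, x', y', rfl, rfl, k⟩
    exact d3 x' y' k hxy
  refine reduce hM hP ?_ ?_ ?_
  · intro x y hx hy hxy
    refine ⟨?_, x, y, hfix x hx, hfix y hy, Or.inl ⟨hxy, hTu x hx, hTu y hy⟩⟩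
    rintro rfl
    exact irr _ hxy
  · have hwr : Re D w := by
      rcases m1 with rfl | rfl | rfl
      · exact ⟨s, Or.inl h.os⟩
      · exact ⟨i, Or.inl h.si⟩
      · exact ⟨u, Or.inl h.iu⟩
    have hre : ∀ x, Re D x → Re D (rp (Wq o s i d) w x) := by
      intro x hx
      by_cases k : Wq o s i d x
      · rw [rp_in k]
        exact hwr
      · rw [rp_out k]
        exact hx
    have huw : u ≠ w := by
      rcases m1 with rfl | rfl | rfl
      · exact e1
      · exact e2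
      · exact e3
    refine Set.ncard_lt_ncard ?_ hT.pl.re_fin
    refine ⟨?_, fun hsub => ?_⟩
    · have key : ∀ x y, Imd (rp (Wq o s i d) w) (Fil D u A) x y → Re D x ∧ Re D y := by
        rintro x y ⟨_, x', y', rfl, rfl, k | k⟩
        · exact ⟨hre _ ⟨y', Or.inl k.1⟩, hre _ ⟨x', Or.inr k.1⟩⟩
        · obtain ⟨k1, k2, _⟩ := hA x' y' k
          exact ⟨hre _ k1, hre _ k2⟩
      rintro x ⟨y, k | k⟩
      · exact (key x y k).1
      · exact (key y x k).2
    · have key : ∀ x y, Imd (rp (Wq o s i d) w) (Fil D u A) x y → x ≠ u ∧ y ≠ u := by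
        rintro x y ⟨_, x', y', k1, k2, k⟩
        have hne : x' ≠ u ∧ y' ≠ u := by
          rcases k with k | k
          · exact k.2
          · obtain ⟨_, _, k3, k4⟩ := hA x' y' k
            exact ⟨k3, k4⟩
        constructor
        · rintro rfl
          exact hne.1 (rp_eq k1 huw).1
        · rintro rfl
          exact hne.2 (rp_eq k2 huw).1
      obtain ⟨y, k | k⟩ := hsub (show Re D u from ⟨o, Or.inl h.uo⟩)
      · exact (key u y k).1 rfl
      · exact (key y u k).2 rfl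
  · intro O hO hE
    obtain ⟨O', o1, o2, o3⟩ := hlift O hO hE
    refine ⟨O', o1, o2, ?_⟩
    intro i x y hx hy
    refine o3 i x y (hTu x hx) (hTu y hy) ?_ ?_ ?_ ?_
    · rintro rfl; exact hy1 hx
    · rintro rfl; exact hy1 hy
    · rintro rfl; exact hy2 hx
    · rintro rfl; exact hy2 hy

/-- **Path contraction** with the star at `w` and arcs `p p'` across the second quad corner. -/
theorem pc_fill2 [Infinite V] (hM : MCw T D a b c) (hT : Ts T D a b c) (h : Qd T D u o s i d)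
    (hu : ¬ Tr a b c u)
    (hp : Prm o s i w y1 y2) (hy1 : ¬ Tr a b c y1) (hy2 : ¬ Tr a b c y2)
    (n1 : ∀ q, Adj T o q → Adj T i q → q = u ∨ q = s ∨ q = d)
    (n2 : ∀ q, Adj T u q → Adj T s q → q = o ∨ q = i ∨ q = d)
    {d2 p p' : V} (hd2 : ¬ Re D d2) (hdd : d2 ≠ d) (a1 : Adj T u d2) (a2 : Adj T d2 p)
    (a3 : Adj T d2 p') (a4 : Adj T u p) (hpW : ¬ Wq o s i d p) (hpW' : ¬ Wq o s i d p')
    (hpp : p ≠ p') (hp'u : p' ≠ u)
    {A : V → V → Prop}
    (hA : ∀ x y, A x y → Re D x ∧ Re D y ∧ x ≠ u ∧ y ≠ u ∧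
      ((rp (Wq o s i d) w x = w ∧ Adj T u y) ∨ (rp (Wq o s i d) w y = w ∧ Adj T u x) ∨
        (x = p ∧ y = p') ∨ (x = p' ∧ y = p)))
    (has : ∀ x y, Imd (rp (Wq o s i d) w) (Fil D u A) x y →
      ¬ Imd (rp (Wq o s i d) w) (Fil D u A) y x)
    (htr : ∀ x y z, Imd (rp (Wq o s i d) w) (Fil D u A) x y →
      Imd (rp (Wq o s i d) w) (Fil D u A) y z → ¬ Imd (rp (Wq o s i d) w) (Fil D u A) z x)
    (hlift : ∀ O : Fin 3 → V → V → Prop, (∀ i, STO (O i)) →
      (∀ x y, Imd (rp (Wq o s i d) w) (Fil D u A) x y → Ex O x y) →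
      ∃ O' : Fin 3 → V → V → Prop, (∀ i, STO (O' i)) ∧ (∀ x y, D x y → Ex O' x y) ∧
        ∀ i x y, x ≠ u → y ≠ u → x ≠ y1 → y ≠ y1 → x ≠ y2 → y ≠ y2 →
          (O' i x y ↔ O i x y)) : False := by
  obtain ⟨T', d1, d2', d3, d4, d5⟩ :=
    pc_carrier2 hT h hu hp hy1 hy2 n1 n2 hd2 hdd a1 a2 a3 a4 hpW hpW' hpp hp'u
  have nd : ∀ x, Re D x → x ≠ d2 := fun x hx k => hd2 (k ▸ hx)
  have rpW : rp (Wq o s i d) w p = p := rp_out hpW
  have rpW' : rp (Wq o s i d) w p' = p' := rp_out hpW'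
  refine pc_frame hM hT h hu hp hy1 hy2 d1 d2' ?_ (fun x y k => ?_) has htr hlift
  · rintro x y (k | k) hne
    · exact d3 x y (hT.pl.adj _ _ k.1) (nd x ⟨y, Or.inl k.1⟩) (nd y ⟨x, Or.inr k.1⟩) hne k.2.1 k.2.2
    · obtain ⟨k1, k2, k3, k4, ⟨g1, g2⟩ | ⟨g1, g2⟩ | ⟨rfl, rfl⟩ | ⟨rfl, rfl⟩⟩ := hA x y k
      · rw [g1] at hne ⊢
        exact d4 y g2 (nd y k2) hne.symm
      · rw [g1] at hne ⊢
        exact (d4 x g2 (nd x k1) hne).symm
      · rw [rpW, rpW']
        exact d5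
      · rw [rpW, rpW']
        exact d5.symm
  · obtain ⟨k1, k2, k3, k4, _⟩ := hA x y k
    exact ⟨k1, k2, k3, k4⟩

end

end Pool.Agent.H65.G4
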