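import Pool.Agent.H65.G4.Rn

/-!
# One engine for all path contractions

Names: `0` = the far vertex `s` (the contracted vertex), `a` with `1 ≤ a`, `a + 1 < m` = the spoke
`X (a + 1)`, then `m - 1` = `o`, `m` = `i`, `m + 1` = `u`.  `rowOK` is the whole check.
-/

set_option autoImplicit false

namespace Pool.Agent.H65.G4

open Relation Pool.Agent.H13.DA Pool.Agent.H72.G4 Pool.Agent.H21.G4 Pool.Agent.H13.G4
  Pool.Agent.H55.G4

/-- spokes in the fibre of a name -/
def fb : ℕ → List ℕ
  | 0 => [0, 1]
  | a + 1 => [a + 2]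

/-- an old arc between the fibres of two names -/
def marc (m : ℕ) (W : ℕ → CT) (dl : ℕ → Bool) (a b : ℕ) : Bool :=
  (fb a).any fun k => (fb b).any fun l => rarc m W dl k l

/-- membership -/
def inL (A : List (ℕ × ℕ)) (a b : ℕ) : Bool := A.any fun p => Nat.beq p.1 a && Nat.beq p.2 b

/-- an arc between two names -/
def ea (m : ℕ) (W : ℕ → CT) (dl : ℕ → Bool) (A : List (ℕ × ℕ)) (a b : ℕ) : Bool :=
  marc m W dl a b || inL A a b

/-- quad corner -/
def isq : CT → Bool
  | CT.q => true
  | _ => false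

/-- two spokes at a quad corner -/
def cq (m : ℕ) (W : ℕ → CT) (k l : ℕ) : Bool :=
  (Nat.beq l ((k + 1) % m) && isq (W k)) || (Nat.beq k ((l + 1) % m) && isq (W l))

/-- the path through the far vertex of a quad corner -/
def mp (m : ℕ) (W : ℕ → CT) (dl : ℕ → Bool) (a b : ℕ) : Bool :=
  (fb a).any fun k => (fb b).any fun l => dl k && !(dl l) && cq m W k l

/-- a path of length two between names -/
def fa (m : ℕ) (W : ℕ → CT) (dl : ℕ → Bool) (A : List (ℕ × ℕ)) (a b : ℕ) : Bool :=
  mp m W dl a b || (List.range (m - 1)).any fun c =>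
    !(Nat.beq c a) && !(Nat.beq c b) && ea m W dl A a c && ea m W dl A c b

/-- the masks of the survivors only use the arcs `E` and the pairs `F` -/
def okF (E F : ℕ → ℕ → Bool) : ℕ → List (ℕ × ℕ × ℕ × ℕ) → Bool
  | _, [] => true
  | N, (I, O, U, W) :: L =>
    Nat.blt I (2 ^ N) && Nat.blt O (2 ^ N) && Nat.blt U (2 ^ N) && Nat.blt W (2 ^ N) &&
    ((List.range N).all fun x =>
      (!(I.testBit x) || E x N) && (!(O.testBit x) || E N x) &&
      (!(U.testBit x) || F x N) && (!(W.testBit x) || F N x)) &&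
    okF E F (N + 1) L

/-- a new arc between the contracted vertex and the spoke of name `b` is allowed -/
def fok (m : ℕ) (W : ℕ → CT) (b : ℕ) : Bool :=
  (!(Nat.beq b 1) || isq (W 1)) && (!(Nat.beq (b + 1) (m - 1)) || isq (W (m - 1)))

/-- the star of the new arcs: `(false, c)` centre `c`; `(true, k)` centre `0` and arcs across the
quad corner `k` -/
def mdok (md : Bool × ℕ) (p : ℕ × ℕ) : Bool :=
  match md with
  | (false, c) => Nat.beq p.1 c || Nat.beq p.2 c
  | (true, k) => Nat.beq p.1 0 || Nat.beq p.2 0 || (Nat.beq (p.1 + 1) k && Nat.beq p.2 k) ||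
      (Nat.beq p.1 k && Nat.beq (p.2 + 1) k)

/-- the mode is well formed -/
def mdwf (m : ℕ) (W : ℕ → CT) (md : Bool × ℕ) : Bool :=
  match md with
  | (false, c) => Nat.blt c (m - 1)
  | (true, k) => Nat.ble 2 k && Nat.blt (k + 1) m && isq (W k)

/-- the check of the new arcs -/
def arcOK (m : ℕ) (W : ℕ → CT) (dl : ℕ → Bool) (A : List (ℕ × ℕ)) (md : Bool × ℕ)
    (p : ℕ × ℕ) : Bool :=
  Nat.blt p.1 (m - 1) && (Nat.blt p.2 (m - 1) && (!(Nat.beq p.1 p.2) && (!(inL A p.2 p.1) &&
    (!(marc m W dl p.2 p.1) &&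
    (((List.range (m - 1)).all fun c => Nat.beq c p.1 || Nat.beq c p.2 ||
      !(ea m W dl A p.2 c && ea m W dl A c p.1)) &&
    (((fb p.1).all fun k => (fb p.2).all fun l => dl k || !(dl l) || !(cq m W k l)) &&
    ((!(Nat.beq p.1 0) || fok m W p.2) && ((!(Nat.beq p.2 0) || fok m W p.1) &&
    mdok md p))))))))

/-- the check of the masks of `u` -/
def uOK (m : ℕ) (dl : ℕ → Bool) (I J : ℕ) : Bool :=
  I.testBit m && J.testBit (m - 1) &&
    (List.range (m - 2)).all fun t => bif dl (t + 2) then J.testBit (t + 1) else I.testBit (t + 1)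

/-- **the whole check** -/
def rowOK (m : ℕ) (W : ℕ → CT) (dl : ℕ → Bool) (A : List (ℕ × ℕ)) (md : Bool × ℕ)
    (L : List (ℕ × ℕ × ℕ × ℕ)) (I J : ℕ) : Bool :=
  Nat.ble 4 m && (mdwf m W md && (A.all (arcOK m W dl A md) && (Nat.beq (L.length + 1) m &&
    (uOK m dl I J && (okF (ea m W dl A) (fa m W dl A) 0 L &&
    chk L [St.twin 0 true, St.twin 0 false, St.free I J])))))

variable {V : Type*} {T : Finset (V × V × V)} {D : V → V → Prop} {a b c : V}

theorem pre_ofF {n : ℕ → V} {Q : Fin 3 → V → V → Prop} {E F : ℕ → ℕ → Bool} {M : ℕ}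
    (hE : ∀ x y, x < M → y < M → x ≠ y → E x y = true → Ex Q (n x) (n y))
    (hF : ∀ x y, x < M → y < M → x ≠ y → F x y = true → ∃ i, Q i (n x) (n y))
    (L : List (ℕ × ℕ × ℕ × ℕ)) : ∀ N, N + L.length ≤ M → okF E F N L = true → Pre n N L Q := by
  induction L with
  | nil => intro N _ _; trivial
  | cons t L ih =>
    obtain ⟨I, O, U, W⟩ := t
    intro N hN h
    rw [List.length_cons] at hN
    unfold okF at h
    simp only [Bool.and_eq_true, List.all_eq_true, List.mem_range, Bool.or_eq_true,
      Bool.not_eq_true'] at h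
    obtain ⟨⟨⟨⟨⟨h1, h2⟩, h3⟩, h4⟩, h5⟩, h6⟩ := h
    have lt : ∀ {m x : ℕ}, Nat.blt m (2 ^ N) = true → m.testBit x = true → x < N := by
      intro m x k1 k2
      have k1' : m < 2 ^ N := by
        rw [Nat.blt_eq] at k1
        exact k1
      exact tb_lt k1' k2
    refine ⟨fun x hx => ?_, fun x hx => ?_, fun x hx => ?_, fun x hx => ?_,
      ih (N + 1) (by omega) h6⟩
    · have k := lt h1 hx
      refine ⟨k, hE x N (by omega) (by omega) (by omega) ?_⟩
      rcases (h5 x k).1.1.1 with k' | k'
      · rw [hx] at k'; exact absurd k' (by decide)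
      · exact k'
    · have k := lt h2 hx
      refine ⟨k, hE N x (by omega) (by omega) (by omega) ?_⟩
      rcases (h5 x k).1.1.2 with k' | k'
      · rw [hx] at k'; exact absurd k' (by decide)
      · exact k'
    · have k := lt h3 hx
      refine ⟨k, hF x N (by omega) (by omega) (by omega) ?_⟩
      rcases (h5 x k).1.2 with k' | k'
      · rw [hx] at k'; exact absurd k' (by decide)
      · exact k'
    · have k := lt h4 hx
      refine ⟨k, hF N x (by omega) (by omega) (by omega) ?_⟩
      rcases (h5 x k).2 with k' | k'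
      · rw [hx] at k'; exact absurd k' (by decide)
      · exact k'

/-- a path of two exact arcs -/
theorem ex_path2 {O : Fin 3 → V → V → Prop} (hO : ∀ i, STO (O i)) {x y z : V} (h1 : Ex O x y)
    (h2 : Ex O y z) : ∃ i, O i x z := by
  obtain ⟨i, _, i2⟩ := h1
  obtain ⟨j, _, j2⟩ := h2
  have key : ∀ i j : Fin 3, ∃ k : Fin 3, k ≠ i ∧ k ≠ j := by decide
  obtain ⟨k, hk1, hk2⟩ := key i j
  exact ⟨k, (hO k).tr _ _ _ (i2 k hk1) (j2 k hk2)⟩

/-- the names -/
def nmf (X : ℕ → V) (m : ℕ) (s o i u : V) (j : ℕ) : V :=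
  if j = 0 then s else if j + 1 < m then X (j + 1) else if j + 1 = m then o else
    if j = m then i else u

variable [DecidableEq V]

/-- **The engine.** -/
theorem engine [Infinite V] (hM : MCw T D a b c) (hT : Ts T D a b c) {u o s i d : V}
    (hu : ¬ Tr a b c u) (hg : Good T D u) {m : ℕ} {X : ℕ → V} {W : ℕ → CT}
    (R : RN T D u m X W) (h : Qd T D u o s i d) {dl : ℕ → Bool} (hd : Dir D u m X dl)
    (hio : (X 0 = i ∧ X 1 = o) ∨ (X 0 = o ∧ X 1 = i)) (ho : ¬ Tr a b c o) (hi : ¬ Tr a b c i)
    (hb : Pcb T D u o s i d)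
    (hF : ∀ r x, Ar D u r → r ≠ o → r ≠ i → ¬ Ar D r o → ¬ Ar D r i → x ≠ u →
      ¬ Wq o s i d x → Ar D r x → Ar D x s → False)
    {A : List (ℕ × ℕ)} {md : Bool × ℕ} {L : List (ℕ × ℕ × ℕ × ℕ)} {I J : ℕ}
    (hOK : rowOK m W dl A md L I J = true) : False := by
  unfold rowOK at hOK
  simp only [Bool.and_eq_true] at hOK
  obtain ⟨k1, k2, k3, k4, k5, k6, k7⟩ := hOK
  have hm : 4 ≤ m := Nat.le_of_ble_eq_true k1
  have hLm : L.length + 1 = m := Nat.eq_of_beq_eq_true k4
  have as := hT.pl.asymm
  have tri := hT.pl.tri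
  have cx := hT.pl.disc.cx
  have irr : ∀ x, ¬ D x x := fun x k => as x x k k
  obtain ⟨e1, e2, e3, e4, e5, e6, e7, e8, e9, e10⟩ := h.ne hT
  have ax : ∀ k, k < m → Ar D u (X k) := fun k hk => (R.nb _).2 ⟨k, hk, rfl⟩
  have nus : ¬ Ar D u s := by
    rintro (k | k)
    · exact tri _ _ _ k h.si h.iu
    · exact tri _ _ _ h.uo h.os k
  have xs : ∀ k, k < m → X k ≠ s := fun k hk e => nus (e ▸ ax k hk)
  have xu : ∀ k, k < m → X k ≠ u := fun k hk e => ar_ne cx hT.pl (ax k hk) e.symm
  have xd : ∀ k, k < m → X k ≠ d := by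
    intro k hk e
    exact h.nd (e ▸ (ar_re (ax k hk)).2)
  have xoi : ∀ k, 2 ≤ k → k < m → X k ≠ o ∧ X k ≠ i := by
    intro k h2 hk
    have z0 : X k ≠ X 0 := fun e => by have := R.inj _ _ hk (by omega) e; omega
    have z1 : X k ≠ X 1 := fun e => by have := R.inj _ _ hk (by omega) e; omega
    rcases hio with ⟨g1, g2⟩ | ⟨g1, g2⟩
    · rw [← g1, ← g2]; exact ⟨z1, z0⟩
    · rw [← g1, ← g2]; exact ⟨z0, z1⟩
  have xW : ∀ k, 2 ≤ k → k < m → ¬ Wq o s i d (X k) := by
    rintro k h2 hk (g | g | g | g)
    · exact (xoi k h2 hk).1 g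
    · exact xs k hk g
    · exact (xoi k h2 hk).2 g
    · exact xd k hk g
  have oi01 : ∀ k, k < 2 → X k = o ∨ X k = i := by
    intro k hk
    have : k = 0 ∨ k = 1 := by omega
    rcases this with rfl | rfl <;> rcases hio with ⟨g1, g2⟩ | ⟨g1, g2⟩
    · exact Or.inr g1
    · exact Or.inl g1
    · exact Or.inl g2
    · exact Or.inr g2
  have oX : ∃ k, k < 2 ∧ X k = o := by
    rcases hio with ⟨g1, g2⟩ | ⟨g1, g2⟩
    · exact ⟨1, by omega, g2⟩
    · exact ⟨0, by omega, g1⟩
  have iX : ∃ k, k < 2 ∧ X k = i := by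
    rcases hio with ⟨g1, g2⟩ | ⟨g1, g2⟩
    · exact ⟨0, by omega, g1⟩
    · exact ⟨1, by omega, g2⟩
  have Xoi2 : ∀ k, k < m → X k = o ∨ X k = i → k < 2 := by
    intro k hk g
    by_contra hc
    rcases g with g | g
    · exact (xoi k (by omega) hk).1 g
    · exact (xoi k (by omega) hk).2 g
  -- names
  set nm := nmf X m s o i u with hnm
  have n0 : nm 0 = s := rfl
  have nx : ∀ j, 1 ≤ j → j + 1 < m → nm j = X (j + 1) := by
    intro j h1 h2
    rw [hnm]
    unfold nmf
    rw [if_neg (by omega), if_pos h2]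
  have no : nm (m - 1) = o := by
    rw [hnm]
    unfold nmf
    rw [if_neg (by omega), if_neg (by omega), if_pos (by omega)]
  have ni : nm m = i := by
    rw [hnm]
    unfold nmf
    rw [if_neg (by omega), if_neg (by omega), if_neg (by omega), if_pos rfl]
  have nu : nm (m + 1) = u := by
    rw [hnm]
    unfold nmf
    rw [if_neg (by omega), if_neg (by omega), if_neg (by omega), if_neg (by omega)]
  -- fibres of names
  have fbm : ∀ {j k}, j + 1 < m → k ∈ fb j → k < m ∧ (j = 0 → k < 2) ∧ (1 ≤ j → k = j + 1) := by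
    intro j k hj hk
    rcases j with _ | j
    · simp only [fb, List.mem_cons, List.not_mem_nil, or_false] at hk
      rcases hk with rfl | rfl <;> (refine ⟨by omega, fun _ => by omega, fun g => by omega⟩)
    · simp only [fb, List.mem_cons, List.not_mem_nil, or_false] at hk
      subst hk
      exact ⟨by omega, fun g => by omega, fun _ => rfl⟩
  have rps : ∀ {j}, j + 1 < m → rp (Wq o s i d) s (nm j) = nm j := by
    intro j hj
    by_cases h0 : j = 0
    · subst h0
      exact rp_in (Or.inr (Or.inl rfl))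
    · rw [nx j (by omega) hj]
      exact rp_out (xW _ (by omega) (by omega))
  have rpf : ∀ {j k}, j + 1 < m → k ∈ fb j → rp (Wq o s i d) s (X k) = nm j := by
    intro j k hj hk
    obtain ⟨g1, g2, g3⟩ := fbm hj hk
    by_cases h0 : j = 0
    · subst h0
      rw [n0]
      rcases oi01 k (g2 rfl) with g | g
      · rw [g]; exact rp_in (Or.inl rfl)
      · rw [g]; exact rp_in (Or.inr (Or.inr (Or.inl rfl)))
    · have := g3 (by omega)
      subst this
      rw [nx j (by omega) hj]
      exact rp_out (xW _ (by omega) (by omega))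
  have fib : ∀ {j x'}, j + 1 < m → Fb o s i (nm j) x' →
      (j = 0 ∧ x' = s) ∨ ∃ k, k ∈ fb j ∧ x' = X k := by
    intro j x' hj hx
    by_cases h0 : j = 0
    · subst h0
      have f01 : ∀ k, k < 2 → k ∈ fb 0 := by
        intro k hk
        have : k = 0 ∨ k = 1 := by omega
        rcases this with rfl | rfl <;> simp [fb]
      obtain ⟨ko, ho1, ho2⟩ := oX
      obtain ⟨ki, hi1, hi2⟩ := iX
      rcases hx with hx | ⟨_, hx | hx⟩
      · exact Or.inl ⟨rfl, hx⟩
      · exact Or.inr ⟨ko, f01 _ ho1, by rw [hx, ho2]⟩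
      · exact Or.inr ⟨ki, f01 _ hi1, by rw [hx, hi2]⟩
    · rw [nx j (by omega) hj] at hx
      right
      refine ⟨j + 1, ?_, ?_⟩
      · rcases j with _ | j
        · omega
        · simp [fb]
      · rcases hx with hx | ⟨hx, _⟩
        · exact hx
        · exact absurd hx (xs _ (by omega))
  -- injectivity
  have xo' : ∀ k, 2 ≤ k → k < m → X k ≠ o := fun k g1 g2 => (xoi k g1 g2).1
  have xi' : ∀ k, 2 ≤ k → k < m → X k ≠ i := fun k g1 g2 => (xoi k g1 g2).2
  have ninj : ∀ x y, x < m + 2 → y < m + 2 → nm x = nm y → x = y := by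
    have key : ∀ x y, x < y → y < m + 2 → nm x ≠ nm y := by
      intro x y hxy hy
      by_cases x0 : x = 0
      · subst x0
        rw [n0]
        by_cases y1 : y + 1 < m
        · rw [nx y (by omega) y1]; exact (xs _ (by omega)).symm
        · by_cases y2 : y = m - 1
          · rw [y2, no]; exact e5.symm
          · by_cases y3 : y = m
            · rw [y3, ni]; exact e8
            · rw [show y = m + 1 by omega, nu]; exact e2.symm
      · by_cases x1 : x + 1 < m
        · rw [nx x (by omega) x1]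
          by_cases y1 : y + 1 < m
          · rw [nx y (by omega) y1]
            intro e
            have := R.inj _ _ (by omega) (by omega) e
            omega
          · by_cases y2 : y = m - 1
            · rw [y2, no]; exact xo' _ (by omega) (by omega)
            · by_cases y3 : y = m
              · rw [y3, ni]; exact xi' _ (by omega) (by omega)
              · rw [show y = m + 1 by omega, nu]; exact xu _ (by omega)
        · by_cases x2 : x = m - 1
          · rw [x2, no]
            by_cases y3 : y = m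
            · rw [y3, ni]; exact e6
            · rw [show y = m + 1 by omega, nu]; exact e1.symm
          · rw [show x = m by omega, ni, show y = m + 1 by omega, nu]
            exact e3.symm
    intro x y hx hy e
    rcases Nat.lt_trichotomy x y with g | g | g
    · exact absurd e (key x y g hy)
    · exact g
    · exact absurd e.symm (key y x g hx)
  -- arcs between the fibres of names
  have nsx : ∀ k, 2 ≤ k → k < m → ¬ Ar D s (X k) := by
    intro k g1 g2 g3
    rcases hb.n2 (X k) (hT.pl.ar_adj (ax k g2)) (hT.pl.ar_adj g3) with g | g | g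
    · exact xo' k g1 g2 g
    · exact xi' k g1 g2 g
    · exact xd k g2 g
  have toM : ∀ {p q x' y'}, p + 1 < m → q + 1 < m → p ≠ q → Fb o s i (nm p) x' →
      Fb o s i (nm q) y' → D x' y' → marc m W dl p q = true := by
    intro p q x' y' hp hq hpq g1 g2 g3
    rcases fib hp g1 with ⟨rfl, rfl⟩ | ⟨k, hk, rfl⟩
    · rcases fib hq g2 with ⟨rfl, _⟩ | ⟨l, hl, rfl⟩
      · exact absurd rfl hpq
      · obtain ⟨f1, f2, f3⟩ := fbm hq hl
        have := f3 (by omega)
        exact absurd (Or.inl g3) (nsx l (by omega) f1)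
    · rcases fib hq g2 with ⟨rfl, rfl⟩ | ⟨l, hl, rfl⟩
      · obtain ⟨f1, f2, f3⟩ := fbm hp hk
        have := f3 (by omega)
        exact absurd (Or.inr g3) (nsx k (by omega) f1)
      · unfold marc
        rw [List.any_eq_true]
        refine ⟨k, hk, ?_⟩
        rw [List.any_eq_true]
        exact ⟨l, hl, (R.arc hT hd (fbm hp hk).1 (fbm hq hl).1).1 g3⟩
  have ofM : ∀ {p q}, p + 1 < m → q + 1 < m → marc m W dl p q = true →
      ∃ k l, k ∈ fb p ∧ l ∈ fb q ∧ D (X k) (X l) := by
    intro p q hp hq g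
    unfold marc at g
    rw [List.any_eq_true] at g
    obtain ⟨k, hk, g⟩ := g
    rw [List.any_eq_true] at g
    obtain ⟨l, hl, g⟩ := g
    exact ⟨k, l, hk, hl, (R.arc hT hd (fbm hp hk).1 (fbm hq hl).1).2 g⟩
  -- the new arcs
  let A' : V → V → Prop := fun x y => ∃ p ∈ A, x = nm p.1 ∧ y = nm p.2
  rw [List.all_eq_true] at k3
  have K : ∀ p ∈ A, p.1 + 1 < m ∧ p.2 + 1 < m ∧ p.1 ≠ p.2 ∧ inL A p.2 p.1 = false ∧
      marc m W dl p.2 p.1 = false ∧
      (∀ c, c + 1 < m → c ≠ p.1 → c ≠ p.2 → ea m W dl A p.2 c = true →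
        ea m W dl A c p.1 = true → False) ∧
      (∀ k ∈ fb p.1, ∀ l ∈ fb p.2, dl k = false → dl l = true → cq m W k l = true → False) ∧
      (p.1 = 0 → fok m W p.2 = true) ∧ (p.2 = 0 → fok m W p.1 = true) ∧
      mdok md p = true := by
    intro p hp
    have := k3 p hp
    unfold arcOK at this
    simp only [Bool.and_eq_true, Bool.or_eq_true, Bool.not_eq_true', List.all_eq_true,
      List.mem_range, Nat.blt_eq, Nat.beq_eq] at this
    obtain ⟨g1, g2, g3, g4, g5, g6, g7, g8, g9, g10⟩ := this
    refine ⟨by omega, by omega, ?_, g4, g5, ?_, ?_, ?_, ?_, g10⟩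
    · intro e
      rw [e] at g3
      have : Nat.beq p.2 p.2 = true := Nat.beq_refl _
      rw [this] at g3
      exact absurd g3 (by decide)
    · intro c hc1 hc2 hc3 hc4 hc5
      rcases g6 c (by omega) with (g | g) | g
      · exact hc2 g
      · exact hc3 g
      · rw [hc4, hc5] at g
        exact absurd g (by decide)
    · intro k hk l hl h1 h2 h3
      rcases g7 k hk l hl with (g | g) | g
      · rw [h1] at g; exact absurd g (by decide)
      · rw [h2] at g; exact absurd g (by decide)
      · rw [h3] at g; exact absurd g (by decide)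
    · intro e
      rcases g8 with g | g
      · rw [e] at g; exact absurd g (by decide)
      · exact g
    · intro e
      rcases g9 with g | g
      · rw [e] at g; exact absurd g (by decide)
      · exact g
  have inl : ∀ {p q}, p + 1 < m → q + 1 < m → A' (nm p) (nm q) → inL A p q = true := by
    rintro p q hp hq ⟨r, hr, g1, g2⟩
    obtain ⟨f1, f2, -⟩ := K r hr
    have z1 := ninj _ _ (by omega) (by omega) g1
    have z2 := ninj _ _ (by omega) (by omega) g2
    unfold inL
    rw [List.any_eq_true]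
    exact ⟨r, hr, by rw [Bool.and_eq_true, Nat.beq_eq, Nat.beq_eq]; exact ⟨z1.symm, z2.symm⟩⟩
  have lin : ∀ {p q}, inL A p q = true → A' (nm p) (nm q) := by
    intro p q g
    unfold inL at g
    rw [List.any_eq_true] at g
    obtain ⟨r, hr, g⟩ := g
    rw [Bool.and_eq_true, Nat.beq_eq, Nat.beq_eq] at g
    exact ⟨r, hr, by rw [g.1], by rw [g.2]⟩
  have toE : ∀ {p q}, p + 1 < m → q + 1 < m → p ≠ q → Mm D o s i A' (nm p) (nm q) →
      ea m W dl A p q = true := by
    intro p q hp hq hpq g
    unfold ea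
    rw [Bool.or_eq_true]
    rcases g with g | ⟨x', y', g1, g2, g3⟩
    · exact Or.inr (inl hp hq g)
    · exact Or.inl (toM hp hq hpq g1 g2 g3)
  have nmN : ∀ {p}, p + 1 < m → Nm D u o s i (nm p) := by
    intro p hp
    by_cases h0 : p = 0
    · subst h0; exact Or.inl rfl
    · rw [nx p (by omega) hp]
      exact Or.inr ⟨ax _ (by omega), xo' _ (by omega) (by omega), xi' _ (by omega) (by omega)⟩
  have Nnm : ∀ {x}, Nm D u o s i x → ∃ p, p + 1 < m ∧ x = nm p := by
    rintro x (rfl | ⟨g1, g2, g3⟩)
    · exact ⟨0, by omega, rfl⟩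
    · obtain ⟨k, hk, rfl⟩ := (R.nb _).1 g1
      have hk2 : 2 ≤ k := by
        by_contra hc
        rcases oi01 k (by omega) with g | g
        · exact g2 g
        · exact g3 g
      refine ⟨k - 1, by omega, ?_⟩
      rw [nx (k - 1) (by omega) (by omega), show k - 1 + 1 = k by omega]
  have fokN : ∀ {p}, 1 ≤ p → p + 1 < m → fok m W p = true →
      ¬ Ar D (X (p + 1)) o ∧ ¬ Ar D (X (p + 1)) i := by
    intro p hp1 hp2 hf
    unfold fok at hf
    rw [Bool.and_eq_true, Bool.or_eq_true, Bool.or_eq_true, Bool.not_eq_true',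
      Bool.not_eq_true'] at hf
    have key : ∀ k, k < 2 → ¬ Ar D (X (p + 1)) (X k) := by
      intro k hk g
      have isqn : ∀ {t}, isq t = true → t = CT.q := by
        intro t ht
        cases t
        · rfl
        · exact absurd ht (by decide)
        · exact absurd ht (by decide)
        · exact absurd ht (by decide)
      rcases R.adj (p + 1) k (by omega) (by omega) g with ⟨g1, g2⟩ | ⟨g1, g2⟩
      · by_cases hpm : p + 1 + 1 < m
        · rw [Nat.mod_eq_of_lt hpm] at g1
          omega
        · have hpe : p + 1 = m - 1 := by omega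
          rcases hf.2 with z | z
          · rw [hpe] at z
            have : Nat.beq (m - 1) (m - 1) = true := Nat.beq_refl _
            rw [this] at z
            exact absurd z (by decide)
          · rw [hpe] at g2
            exact g2 (isqn z)
      · rw [Nat.mod_eq_of_lt (by omega)] at g1
        have hp : p = 1 := by omega
        subst hp
        have hk1 : k = 1 := by omega
        subst hk1
        rcases hf.1 with z | z
        · exact absurd z (by decide)
        · exact g2 (isqn z)
    obtain ⟨ko, ho1, ho2⟩ := oX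
    obtain ⟨ki, hi1, hi2⟩ := iX
    constructor
    · have := key ko ho1
      rwa [ho2] at this
    · have := key ki hi1
      rwa [hi2] at this
  obtain ⟨has, htr⟩ := ears (A := A') hT h hg hb
    (by
      rintro x y ⟨p, hp, rfl, rfl⟩
      obtain ⟨f1, f2, f3, -⟩ := K p hp
      exact ⟨nmN f1, nmN f2, fun e => f3 (ninj _ _ (by omega) (by omega) e)⟩)
    (by
      rintro x y ⟨p, hp, rfl, rfl⟩
      obtain ⟨f1, f2, f3, f4, f5, -⟩ := K p hp
      refine ⟨fun g => ?_, fun x' y' g1 g2 g3 => ?_⟩
      · rw [inl f2 f1 g] at f4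
        exact absurd f4 (by decide)
      · rw [toM f2 f1 (Ne.symm f3) g2 g1 g3] at f5
        exact absurd f5 (by decide))
    (by
      rintro x y z ⟨p, hp, rfl, rfl⟩ hz hzx hzy g1 g2
      obtain ⟨f1, f2, f3, f4, f5, f6, -⟩ := K p hp
      obtain ⟨q, hq, rfl⟩ := Nnm hz
      have z1 : q ≠ p.1 := fun e => hzx (by rw [e])
      have z2 : q ≠ p.2 := fun e => hzy (by rw [e])
      exact f6 q hq z1 z2 (toE f2 hq (Ne.symm z2) g1) (toE hq f1 z1 g2))
    (by
      rintro x y ⟨p, hp, rfl, rfl⟩ x' y' g1 g2 g3 g4 ⟨e, l1, l2, l3, l4⟩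
      obtain ⟨f1, f2, f3, f4, f5, f6, f7, -⟩ := K p hp
      rcases fib f1 g1 with ⟨_, rfl⟩ | ⟨k, hk, rfl⟩
      · exact nus (Or.inr g3)
      rcases fib f2 g2 with ⟨_, rfl⟩ | ⟨l, hl, rfl⟩
      · exact nus (Or.inl g4)
      have km := (fbm f1 hk).1
      have lm := (fbm f2 hl).1
      have d1 : dl k = false := by
        cases hdk : dl k
        · rfl
        · exact absurd g3 (as _ _ ((hd k km).1 hdk))
      have d2 : dl l = true := by
        cases hdk : dl l
        · exact absurd g4 (as _ _ ((hd l lm).2 hdk))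
        · rfl
      have kl : k ≠ l := by
        rintro rfl
        exact as _ _ g3 g4
      refine f7 k hk l hl d1 d2 ?_
      unfold cq
      rw [Bool.or_eq_true, Bool.and_eq_true, Bool.and_eq_true, Nat.beq_eq, Nat.beq_eq]
      rcases R.du k l e km lm kl l1 l2 l3 l4 with ⟨z1, z2⟩ | ⟨z1, z2⟩
      · exact Or.inl ⟨z1, by rw [z2]; rfl⟩
      · exact Or.inr ⟨z1, by rw [z2]; rfl⟩)
    (by
      rintro x y ⟨p, hp, g1, rfl⟩ hy hyu g2 g3
      obtain ⟨f1, f2, f3, f4, f5, f6, f7, f8, -⟩ := K p hp
      have p0 : p.1 = 0 := (ninj 0 p.1 (by omega) (by omega) g1).symm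
      have p2 : 1 ≤ p.2 := by omega
      have z := fokN p2 f2 (f8 p0)
      rw [nx p.2 p2 f2] at g2
      exact hF _ y (ax _ (by omega)) (xo' _ (by omega) (by omega)) (xi' _ (by omega) (by omega))
        z.1 z.2 hyu hy (Or.inl g2) (Or.inl g3))
    (by
      rintro x y ⟨p, hp, rfl, g1⟩ hy hyu g2 g3
      obtain ⟨f1, f2, f3, f4, f5, f6, f7, f8, f9, -⟩ := K p hp
      have p0 : p.2 = 0 := (ninj 0 p.2 (by omega) (by omega) g1).symm
      have p2 : 1 ≤ p.1 := by omega
      have z := fokN p2 f1 (f9 p0)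
      rw [nx p.1 p2 f1] at g3
      exact hF _ y (ax _ (by omega)) (xo' _ (by omega) (by omega)) (xi' _ (by omega) (by omega))
        z.1 z.2 hyu hy (Or.inr g3) (Or.inr g2))
  -- the lift
  have hlift : ∀ O : Fin 3 → V → V → Prop, (∀ i, STO (O i)) →
      (∀ x y, Imd (rp (Wq o s i d) s) (Fil D u A') x y → Ex O x y) →
      ∃ O' : Fin 3 → V → V → Prop, (∀ i, STO (O' i)) ∧ (∀ x y, D x y → Ex O' x y) ∧
        ∀ j x y, x ≠ u → y ≠ u → x ≠ o → y ≠ o → x ≠ i → y ≠ i → (O' j x y ↔ O j x y) := by
    intro O hO hE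
    have hE' : ∀ p q, p + 1 < m → q + 1 < m → p ≠ q → ea m W dl A p q = true →
        Ex O (nm p) (nm q) := by
      intro p q hp hq hpq g
      have hne : nm p ≠ nm q := fun e => hpq (ninj _ _ (by omega) (by omega) e)
      unfold ea at g
      rw [Bool.or_eq_true] at g
      rcases g with g | g
      · obtain ⟨k, l, g1, g2, g3⟩ := ofM hp hq g
        exact hE _ _ ⟨hne, X k, X l, rpf hp g1, rpf hq g2,
          Or.inl ⟨g3, xu _ (fbm hp g1).1, xu _ (fbm hq g2).1⟩⟩
      · exact hE _ _ ⟨hne, nm p, nm q, rps hp, rps hq, Or.inr (lin g)⟩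
    refine pc_lift (n := nm) hT h k7 (by omega) ?_ n0 ?_ ?_ ?_ ?_ ?_ hO hE
      (pre_ofF (M := m - 1) (E := ea m W dl A) (F := fa m W dl A) ?_ ?_ L 0 (by omega) k6)
    · intro x y hx hy e
      exact ninj x y (by omega) (by omega) e
    · rw [show L.length = m - 1 by omega]; exact no
    · rw [hLm]; exact ni
    · rw [show L.length + 2 = m + 1 by omega]; exact nu
    · -- in-neighbours
      intro x hx
      unfold uOK at k5
      simp only [Bool.and_eq_true, List.all_eq_true, List.mem_range] at k5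
      obtain ⟨k, hk, rfl⟩ := (R.nb x).1 (Or.inr hx)
      have hdk : dl k = false := by
        cases hdk : dl k
        · rfl
        · exact absurd hx (as _ _ ((hd k hk).1 hdk))
      by_cases h2 : k < 2
      · rcases oi01 k h2 with g | g
        · rw [g] at hx
          exact absurd hx (as _ _ h.uo)
        · exact ⟨m, by omega, by rw [ni, g], k5.1.1⟩
      · refine ⟨k - 1, by omega, ?_, ?_⟩
        · rw [nx (k - 1) (by omega) (by omega), show k - 1 + 1 = k by omega]
        · have := k5.2 (k - 2) (by omega)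
          rw [show k - 2 + 2 = k by omega, hdk, show k - 2 + 1 = k - 1 by omega] at this
          exact this
    · intro x hx
      unfold uOK at k5
      simp only [Bool.and_eq_true, List.all_eq_true, List.mem_range] at k5
      obtain ⟨k, hk, rfl⟩ := (R.nb x).1 (Or.inl hx)
      have hdk : dl k = true := by
        cases hdk : dl k
        · exact absurd hx (as _ _ ((hd k hk).2 hdk))
        · rfl
      by_cases h2 : k < 2
      · rcases oi01 k h2 with g | g
        · exact ⟨m - 1, by omega, by rw [no, g], k5.1.2⟩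
        · rw [g] at hx
          exact absurd hx (as _ _ h.iu)
      · refine ⟨k - 1, by omega, ?_, ?_⟩
        · rw [nx (k - 1) (by omega) (by omega), show k - 1 + 1 = k by omega]
        · have := k5.2 (k - 2) (by omega)
          rw [show k - 2 + 2 = k by omega, hdk, show k - 2 + 1 = k - 1 by omega] at this
          exact this
    · intro p q hp hq hpq g
      exact hE' p q (by omega) (by omega) hpq g
    · intro p q hp hq hpq g
      have hp' : p + 1 < m := by omega
      have hq' : q + 1 < m := by omega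
      unfold fa at g
      rw [Bool.or_eq_true] at g
      rcases g with g | g
      · unfold mp at g
        rw [List.any_eq_true] at g
        obtain ⟨k, hk, g⟩ := g
        rw [List.any_eq_true] at g
        obtain ⟨l, hl, g⟩ := g
        rw [Bool.and_eq_true, Bool.and_eq_true, Bool.not_eq_true'] at g
        obtain ⟨⟨g1, g2⟩, g3⟩ := g
        have km := (fbm hp' hk).1
        have lm := (fbm hq' hl).1
        have isqn : ∀ {t}, isq t = true → t = CT.q := by
          intro t ht
          cases t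
          · rfl
          · exact absurd ht (by decide)
          · exact absurd ht (by decide)
          · exact absurd ht (by decide)
        have du : ∃ e, ¬ Re D e ∧ Adj T e u ∧ Adj T e (X k) ∧ Adj T e (X l) := by
          unfold cq at g3
          rw [Bool.or_eq_true, Bool.and_eq_true, Bool.and_eq_true, Nat.beq_eq, Nat.beq_eq] at g3
          rcases g3 with ⟨z1, z2⟩ | ⟨z1, z2⟩
          · have c := R.cor k km
            rw [← z1, isqn z2] at c
            obtain ⟨⟨e, w1, w2, w3⟩, _⟩ := c
            exact ⟨e, w1, Or.inl ⟨_, cx.rot (cx.rot w2)⟩, Or.inr ⟨_, cx.rot w2⟩,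
              Or.inl ⟨_, cx.rot w3⟩⟩
          · have c := R.cor l lm
            rw [← z1, isqn z2] at c
            obtain ⟨⟨e, w1, w2, w3⟩, _⟩ := c
            exact ⟨e, w1, Or.inl ⟨_, cx.rot (cx.rot w2)⟩, Or.inl ⟨_, cx.rot w3⟩,
              Or.inr ⟨_, cx.rot w2⟩⟩
        obtain ⟨e, w1, w2, w3, w4⟩ := du
        obtain ⟨f, z1, z2, z3, z4, z5⟩ := quad_far hT w1 w2 w3 w4 ((hd k km).1 g1) ((hd l lm).2 g2)
        have fo' : f ≠ o := fun e => z3 (e ▸ Or.inl h.uo)
        have fi' : f ≠ i := fun e => z3 (e ▸ Or.inr h.iu)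
        have fd' : f ≠ d := fun e => h.nd (e ▸ (ar_re (Or.inl z2)).1)
        have fs' : f ≠ s := by
          rintro rfl
          rcases Nat.eq_zero_or_pos p with h0 | h0
          · have q1 : 1 ≤ q := by omega
            have := (fbm hq' hl).2.2 q1
            exact nsx l (by omega) lm (Or.inl z2)
          · have := (fbm hp' hk).2.2 h0
            exact nsx k (by omega) km (Or.inr z1)
        have fW : ¬ Wq o s i d f := by
          rintro (z | z | z | z)
          · exact fo' z
          · exact fs' z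
          · exact fi' z
          · exact fd' z
        have nf : ∀ {j}, j + 1 < m → nm j ≠ f := by
          intro j hj
          by_cases h0 : j = 0
          · subst h0
            exact fs'.symm
          · rw [nx j (by omega) hj]
            intro e
            exact z3 (e ▸ ax _ (by omega))
        refine ex_path2 hO (y := f) ?_ ?_
        · exact hE _ _ ⟨nf hp', X k, f, rpf hp' hk, rp_out fW, Or.inl ⟨z1, xu _ km, z4⟩⟩
        · exact hE _ _ ⟨(nf hq').symm, f, X l, rp_out fW, rpf hq' hl, Or.inl ⟨z2, z4, xu _ lm⟩⟩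
      · rw [List.any_eq_true] at g
        obtain ⟨r, hr, g⟩ := g
        rw [List.mem_range] at hr
        simp only [Bool.and_eq_true, Bool.not_eq_true'] at g
        obtain ⟨⟨⟨g1, g2⟩, g3⟩, g4⟩ := g
        have r1 : r ≠ p := by
          rintro rfl
          have : Nat.beq r r = true := Nat.beq_refl _
          rw [this] at g1
          exact absurd g1 (by decide)
        have r2 : r ≠ q := by
          rintro rfl
          have : Nat.beq r r = true := Nat.beq_refl _
          rw [this] at g2
          exact absurd g2 (by decide)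
        exact ex_path2 hO (hE' p r hp' (by omega) (Ne.symm r1) g3)
          (hE' r q (by omega) hq' r2 g4)
  -- the carrier
  have reN : ∀ {p}, p + 1 < m → Re D (nm p) ∧ nm p ≠ u := by
    intro p hp
    refine ⟨?_, fun e => ?_⟩
    · by_cases h0 : p = 0
      · subst h0
        exact ⟨i, Or.inl h.si⟩
      · rw [nx p (by omega) hp]
        exact (ar_re (ax _ (by omega))).2
    · rw [← nu] at e
      have := ninj _ _ (by omega) (by omega) e
      omega
  have auo : Adj T u o := hT.pl.adj _ _ h.uo
  have imN : ∀ {p}, p + 1 < m → ∃ n, Adj T u n ∧ rp (Wq o s i d) s n =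
      rp (Wq o s i d) s (nm p) := by
    intro p hp
    by_cases h0 : p = 0
    · subst h0
      exact ⟨o, auo, by rw [rps hp, n0]; exact rp_in (Or.inl rfl)⟩
    · exact ⟨nm p, by rw [nx p (by omega) hp]; exact hT.pl.ar_adj (ax _ (by omega)), rfl⟩
  have prm : Prm o s i s o i := Or.inr (Or.inl ⟨rfl, Or.inl ⟨rfl, rfl⟩⟩)
  obtain ⟨mb, mc⟩ := md
  cases mb
  · -- a star
    have hc : mc + 1 < m := by
      have : mc < m - 1 := by
        unfold mdwf at k2
        rwa [Nat.blt_eq] at k2
      omega
    refine pc_fill (w := s) (y1 := o) (y2 := i) (p0 := nm mc) (A := A') hM hT h hu prm ho hi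
      hb.n1 hb.n2 ?_ ?_ has htr hlift
    · by_cases h0 : mc = 0
      · subst h0
        exact Or.inl rfl
      · right
        rw [nx mc (by omega) hc]
        exact ⟨hT.pl.ar_adj (ax _ (by omega)), xW _ (by omega) (by omega)⟩
    · rintro x y ⟨p, hp, rfl, rfl⟩
      obtain ⟨f1, f2, f3, f4, f5, f6, f7, f8, f9, f10⟩ := K p hp
      refine ⟨(reN f1).1, (reN f2).1, (reN f1).2, (reN f2).2, ?_⟩
      have f10' : p.1 = mc ∨ p.2 = mc := by
        have := f10
        unfold mdok at this
        simp only [Bool.or_eq_true, Nat.beq_eq] at this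
        exact this
      rcases f10' with e | e
      · left
        rw [rps f1, e]
        exact ⟨rfl, imN f2⟩
      · right
        rw [rps f2, e]
        exact ⟨rfl, imN f1⟩
  · -- a star at `s` and a second corner
    have k2' : 2 ≤ mc ∧ mc + 1 < m ∧ W mc = CT.q := by
      unfold mdwf at k2
      simp only [Bool.and_eq_true, Nat.blt_eq] at k2
      refine ⟨Nat.le_of_ble_eq_true k2.1.1, k2.1.2, ?_⟩
      cases hW : W mc
      · rfl
      · rw [hW] at k2; exact absurd k2.2 (by decide)
      · rw [hW] at k2; exact absurd k2.2 (by decide)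
      · rw [hW] at k2; exact absurd k2.2 (by decide)
    obtain ⟨c1, c2, c3⟩ := k2'
    have cc := R.cor mc (by omega)
    rw [Nat.mod_eq_of_lt c2, c3] at cc
    obtain ⟨⟨e, w1, w2, w3⟩, _⟩ := cc
    have a1 : Adj T u e := Or.inr ⟨_, cx.rot (cx.rot w2)⟩
    have a2 : Adj T e (X mc) := Or.inr ⟨_, cx.rot w2⟩
    have a3 : Adj T e (X (mc + 1)) := Or.inl ⟨_, cx.rot w3⟩
    have hed : e ≠ d := by
      rintro rfl
      rcases (h.adj _).1 a2 with g | g | g | g
      · exact xu _ (by omega) g
      · exact xo' _ c1 (by omega) g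
      · exact xs _ (by omega) g
      · exact xi' _ c1 (by omega) g
    have hpp : X mc ≠ X (mc + 1) := fun e => by
      have := R.inj _ _ (by omega) c2 e
      omega
    have nmc1 : nm (mc - 1) = X mc := by
      rw [nx (mc - 1) (by omega) (by omega), show mc - 1 + 1 = mc by omega]
    have nmc2 : nm mc = X (mc + 1) := nx mc (by omega) c2
    refine pc_fill2 (w := s) (y1 := o) (y2 := i) (A := A') hM hT h hu prm ho hi
      hb.n1 hb.n2 (d2 := e) (p := X mc) (p' := X (mc + 1)) w1 hed a1 a2 a3
      (hT.pl.ar_adj (ax _ (by omega))) (xW _ c1 (by omega)) (xW _ (by omega) c2) hpp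
      (xu _ c2) ?_ has htr hlift
    rintro x y ⟨p, hp, rfl, rfl⟩
    obtain ⟨f1, f2, f3, f4, f5, f6, f7, f8, f9, f10⟩ := K p hp
    refine ⟨(reN f1).1, (reN f2).1, (reN f1).2, (reN f2).2, ?_⟩
    have adu : ∀ {q}, 1 ≤ q → q + 1 < m → Adj T u (nm q) := by
      intro q h1 h2
      rw [nx q h1 h2]
      exact hT.pl.ar_adj (ax _ (by omega))
    have f10' : ((p.1 = 0 ∨ p.2 = 0) ∨ (p.1 + 1 = mc ∧ p.2 = mc)) ∨
        (p.1 = mc ∧ p.2 + 1 = mc) := by
      have := f10
      unfold mdok at this
      simp only [Bool.or_eq_true, Bool.and_eq_true, Nat.beq_eq] at this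
      exact this
    rcases f10' with ((g | g) | ⟨g1, g2⟩) | ⟨g1, g2⟩
    · left
      rw [rps f1, g]
      exact ⟨rfl, adu (by omega) f2⟩
    · right; left
      rw [rps f2, g]
      exact ⟨rfl, adu (by omega) f1⟩
    · right; right; left
      rw [show p.1 = mc - 1 by omega, g2]
      exact ⟨nmc1, nmc2⟩
    · right; right; right
      rw [show p.2 = mc - 1 by omega, g1]
      exact ⟨nmc2, nmc1⟩

end Pool.Agent.H65.G4
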