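import Pool.Agent.H65.G4.Red

/-!
# The order side of the reduction of X1

`v` has in-neighbours `p`, `q` and out-neighbours `b`, `a`; arcs `q → p`, `q → b`, `a → b`, new arc
`a → p`; `q` and `b` are twins.
-/

set_option autoImplicit false

namespace Pool.Agent.H65.G4

open Pool.Agent.H72.G4 Pool.Agent.H21.G4

theorem third : ∀ i j : Fin 3, j ≠ i → ∃ t, t ≠ i ∧ t ≠ j ∧ ∀ u, u = i ∨ u = j ∨ u = t := by
  decide

theorem other : ∀ i : Fin 3, ∃ j, j ≠ i := by decide

theorem mk_cuts {V : Type*} {D : V → V → Prop} {v : V} {O : Fin 3 → V → V → Prop} {i j t : Fin 3}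
    (hji : j ≠ i) (hti : t ≠ i) (htj : t ≠ j) (hall : ∀ u, u = i ∨ u = j ∨ u = t)
    (P1 P2 P3 : V → Prop) (l1 : ∀ x y, P1 y → O i x y → P1 x) (l2 : ∀ x y, P2 y → O j x y → P2 x)
    (l3 : ∀ x y, P3 y → O t x y → P3 x)
    (hin : ∀ x, D x v → (¬ P1 x ∧ P2 x ∧ P3 x) ∨ (P1 x ∧ ¬ P2 x ∧ P3 x) ∨ (P1 x ∧ P2 x ∧ ¬ P3 x))
    (hout : ∀ x, D v x → (P1 x ∧ ¬ P2 x ∧ ¬ P3 x) ∨ (¬ P1 x ∧ P2 x ∧ ¬ P3 x) ∨
      (¬ P1 x ∧ ¬ P2 x ∧ P3 x)) : Cuts D v O := by
  refine ⟨fun u x => (u = i ∧ P1 x) ∨ (u = j ∧ P2 x) ∨ (u = t ∧ P3 x), ?_, ?_, ?_⟩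
  · rintro u x y _ _ (⟨rfl, h⟩ | ⟨rfl, h⟩ | ⟨rfl, h⟩) h'
    · exact Or.inl ⟨rfl, l1 x y h h'⟩
    · exact Or.inr (Or.inl ⟨rfl, l2 x y h h'⟩)
    · exact Or.inr (Or.inr ⟨rfl, l3 x y h h'⟩)
  · intro x hx
    rcases hin x hx with ⟨h1, h2, h3⟩ | ⟨h1, h2, h3⟩ | ⟨h1, h2, h3⟩
    · refine ⟨i, ?_, ?_⟩
      · rintro (⟨_, h⟩ | ⟨h, _⟩ | ⟨h, _⟩)
        · exact h1 h
        · exact hji h.symm
        · exact hti h.symm
      · intro u hu
        rcases hall u with rfl | rfl | rfl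
        · exact absurd rfl hu
        · exact Or.inr (Or.inl ⟨rfl, h2⟩)
        · exact Or.inr (Or.inr ⟨rfl, h3⟩)
    · refine ⟨j, ?_, ?_⟩
      · rintro (⟨h, _⟩ | ⟨_, h⟩ | ⟨h, _⟩)
        · exact hji h
        · exact h2 h
        · exact htj h.symm
      · intro u hu
        rcases hall u with rfl | rfl | rfl
        · exact Or.inl ⟨rfl, h1⟩
        · exact absurd rfl hu
        · exact Or.inr (Or.inr ⟨rfl, h3⟩)
    · refine ⟨t, ?_, ?_⟩
      · rintro (⟨h, _⟩ | ⟨h, _⟩ | ⟨_, h⟩)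
        · exact hti h
        · exact htj h
        · exact h3 h
      · intro u hu
        rcases hall u with rfl | rfl | rfl
        · exact Or.inl ⟨rfl, h1⟩
        · exact Or.inr (Or.inl ⟨rfl, h2⟩)
        · exact absurd rfl hu
  · intro x hx
    rcases hout x hx with ⟨h1, h2, h3⟩ | ⟨h1, h2, h3⟩ | ⟨h1, h2, h3⟩
    · refine ⟨i, Or.inl ⟨rfl, h1⟩, ?_⟩
      rintro u hu (⟨h, _⟩ | ⟨_, h⟩ | ⟨_, h⟩)
      · exact hu h
      · exact h2 h
      · exact h3 h
    · refine ⟨j, Or.inr (Or.inl ⟨rfl, h2⟩), ?_⟩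
      rintro u hu (⟨_, h⟩ | ⟨h, _⟩ | ⟨_, h⟩)
      · exact h1 h
      · exact hu h
      · exact h3 h
    · refine ⟨t, Or.inr (Or.inr ⟨rfl, h3⟩), ?_⟩
      rintro u hu (⟨_, h⟩ | ⟨_, h⟩ | ⟨h, _⟩)
      · exact h1 h
      · exact h2 h
      · exact hu h

/-- the order side of X1: `m → p`, `a → m`, `a → p` exact; there is a choice of the order `e` in
which `b` is below its twin `q` (both in the place of `m`) such that `v` can be inserted -/
theorem x1_ord {V : Type*} {D : V → V → Prop} {v p q b a m : V} {O : Fin 3 → V → V → Prop}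
    (hO : ∀ i, STO (O i)) (hmp : Ex O m p) (ham : Ex O a m) (hap : Ex O a p)
    (hin : ∀ x, D x v → x = p ∨ x = q) (hout : ∀ x, D v x → x = b ∨ x = a) :
    ∃ e : Fin 3, ∀ O' : Fin 3 → V → V → Prop, (∀ i, STO (O' i)) →
      (∀ i, (O' i p a ↔ O i p a) ∧ (O' i a p ↔ O i a p)) →
      (∀ i, (O' i p q ↔ O i p m) ∧ (O' i q p ↔ O i m p)) →
      (∀ i, (O' i p b ↔ O i p m) ∧ (O' i b p ↔ O i m p)) →
      (∀ i, (O' i a q ↔ O i a m) ∧ (O' i q a ↔ O i m a)) →
      (∀ i, (O' i a b ↔ O i a m) ∧ (O' i b a ↔ O i m a)) →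
      (∀ i, (O' i b q ↔ i = e) ∧ (O' i q b ↔ i ≠ e)) → Cuts D v O' := by
  obtain ⟨i, i1, i2⟩ := ham
  obtain ⟨j, j1, j2⟩ := hmp
  obtain ⟨k, k1, k2⟩ := hap
  by_cases hij : j = i
  · -- S1
    subst hij
    have hkj : k = j := by
      by_contra hne
      exact (hO k).irr a ((hO k).tr _ _ _ ((hO k).tr _ _ _ (i2 k hne) (j2 k hne)) k1)
    subst hkj
    obtain ⟨s, hs⟩ := other k
    obtain ⟨t, ht1, ht2, hall⟩ := third k s hs
    refine ⟨s, fun O' hO' e1 e2 e3 e4 e5 e6 => ?_⟩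
    -- order k : p < q < b < a
    have A1 : O' k p q := (e2 k).1.2 j1
    have A2 : O' k q b := (e6 k).2.2 (Ne.symm hs)
    have A3 : O' k b a := (e5 k).2.2 i1
    -- order s : a < q, b < p
    have B1 : O' s a q := (e4 s).1.2 (i2 s hs)
    have B2 : O' s a b := (e5 s).1.2 (i2 s hs)
    have B3 : O' s q p := (e2 s).2.2 (j2 s hs)
    have B4 : O' s b p := (e3 s).2.2 (j2 s hs)
    have C1 : O' t a q := (e4 t).1.2 (i2 t ht1)
    have C2 : O' t a b := (e5 t).1.2 (i2 t ht1)
    have C3 : O' t q p := (e2 t).2.2 (j2 t ht1)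
    refine mk_cuts hs ht1 ht2 hall (fun z => O' k z q ∨ z = q) (fun z => O' s z p ∨ z = p)
      (fun z => O' t z a) ?_ ?_ ?_ ?_ ?_
    · rintro x y (h | rfl) h'
      · exact Or.inl ((hO' k).tr _ _ _ h' h)
      · exact Or.inl h'
    · rintro x y (h | rfl) h'
      · exact Or.inl ((hO' s).tr _ _ _ h' h)
      · exact Or.inl h'
    · intro x y h h'
      exact (hO' t).tr _ _ _ h' h
    · intro x hx
      rcases hin x hx with rfl | rfl
      · exact Or.inr (Or.inr ⟨Or.inl A1, Or.inr rfl,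
          (hO' t).asymm ((hO' t).tr _ _ _ C1 C3)⟩)
      · exact Or.inr (Or.inr ⟨Or.inr rfl, Or.inl B3, (hO' t).asymm C1⟩)
    · intro x hx
      rcases hout x hx with rfl | rfl
      · refine Or.inr (Or.inl ⟨?_, Or.inl B4, (hO' t).asymm C2⟩)
        rintro (h | rfl)
        · exact (hO' k).asymm A2 h
        · exact (hO' k).irr _ A2
      · refine Or.inr (Or.inl ⟨?_, Or.inl ((hO' s).tr _ _ _ B2 B4), (hO' t).irr _⟩)
        have A4 := (hO' k).tr _ _ _ A2 A3
        rintro (h | rfl)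
        · exact (hO' k).asymm A4 h
        · exact (hO' k).irr _ A4
  · obtain ⟨t, ht1, ht2, hall⟩ := third i j hij
    have T1 : O t a m := i2 t ht1
    have T2 : O t m p := j2 t ht2
    have hkt : k ≠ t := by
      rintro rfl
      exact (hO k).irr a ((hO k).tr _ _ _ ((hO k).tr _ _ _ T1 T2) k1)
    have hk : k = i ∨ k = j := by
      rcases hall k with h | h | h
      · exact Or.inl h
      · exact Or.inr h
      · exact absurd h hkt
    rcases hk with rfl | rfl
    · -- S2 : order k : m < p < a ; order j : a < p < m ; order t : a < m < p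
      refine ⟨t, fun O' hO' e1 e2 e3 e4 e5 e6 => ?_⟩
      have A1 : O' k q p := (e2 k).2.2 (j2 k (Ne.symm hij))
      have A2 : O' k b p := (e3 k).2.2 (j2 k (Ne.symm hij))
      have A3 : O' k p a := (e1 k).1.2 k1
      have B1 : O' j a p := (e1 j).2.2 (k2 j hij)
      have B2 : O' j p q := (e2 j).1.2 j1
      have B3 : O' j q b := (e6 j).2.2 (Ne.symm ht2)
      have C1 : O' t a q := (e4 t).1.2 T1
      have C2 : O' t a b := (e5 t).1.2 T1
      have C3 : O' t q p := (e2 t).2.2 T2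
      refine mk_cuts hij ht1 ht2 hall (fun z => O' k z p ∨ z = p) (fun z => O' j z q ∨ z = q)
        (fun z => O' t z a) ?_ ?_ ?_ ?_ ?_
      · rintro x y (h | rfl) h'
        · exact Or.inl ((hO' k).tr _ _ _ h' h)
        · exact Or.inl h'
      · rintro x y (h | rfl) h'
        · exact Or.inl ((hO' j).tr _ _ _ h' h)
        · exact Or.inl h'
      · intro x y h h'
        exact (hO' t).tr _ _ _ h' h
      · intro x hx
        rcases hin x hx with rfl | rfl
        · exact Or.inr (Or.inr ⟨Or.inr rfl, Or.inl B2, (hO' t).asymm ((hO' t).tr _ _ _ C1 C3)⟩)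
        · exact Or.inr (Or.inr ⟨Or.inl A1, Or.inr rfl, (hO' t).asymm C1⟩)
      · intro x hx
        rcases hout x hx with rfl | rfl
        · refine Or.inl ⟨Or.inl A2, ?_, (hO' t).asymm C2⟩
          rintro (h | rfl)
          · exact (hO' j).asymm B3 h
          · exact (hO' j).irr _ B3
        · refine Or.inr (Or.inl ⟨?_, Or.inl ((hO' j).tr _ _ _ B1 B2), (hO' t).irr _⟩)
          rintro (h | rfl)
          · exact (hO' k).asymm A3 h
          · exact (hO' k).irr _ A3
    · -- S3 : order i : m < a < p ; order k : p < a < m ; order t : a < m < p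
      refine ⟨k, fun O' hO' e1 e2 e3 e4 e5 e6 => ?_⟩
      have hik : i ≠ k := fun e => hij e.symm
      have A1 : O' i q b := (e6 i).2.2 hik
      have A2 : O' i b a := (e5 i).2.2 i1
      have A3 : O' i a p := (e1 i).2.2 (k2 i hik)
      have B1 : O' k p a := (e1 k).1.2 k1
      have B2 : O' k a q := (e4 k).1.2 (i2 k hij)
      have B3 : O' k a b := (e5 k).1.2 (i2 k hij)
      have C1 : O' t a q := (e4 t).1.2 T1
      have C3 : O' t q p := (e2 t).2.2 T2
      have C4 : O' t b p := (e3 t).2.2 T2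
      refine mk_cuts hij ht1 ht2 hall (fun z => O' i z q ∨ z = q) (fun z => O' k z p ∨ z = p)
        (fun z => O' t z p ∨ z = p) ?_ ?_ ?_ ?_ ?_
      · rintro x y (h | rfl) h'
        · exact Or.inl ((hO' i).tr _ _ _ h' h)
        · exact Or.inl h'
      · rintro x y (h | rfl) h'
        · exact Or.inl ((hO' k).tr _ _ _ h' h)
        · exact Or.inl h'
      · rintro x y (h | rfl) h'
        · exact Or.inl ((hO' t).tr _ _ _ h' h)
        · exact Or.inl h'
      · intro x hx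
        rcases hin x hx with rfl | rfl
        · refine Or.inl ⟨?_, Or.inr rfl, Or.inr rfl⟩
          have A4 := (hO' i).tr _ _ _ A1 ((hO' i).tr _ _ _ A2 A3)
          rintro (h | rfl)
          · exact (hO' i).asymm A4 h
          · exact (hO' i).irr _ A4
        · refine Or.inr (Or.inl ⟨Or.inr rfl, ?_, Or.inl C3⟩)
          have B4 := (hO' k).tr _ _ _ B1 B2
          rintro (h | rfl)
          · exact (hO' k).asymm B4 h
          · exact (hO' k).irr _ B4
      · intro x hx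
        rcases hout x hx with rfl | rfl
        · refine Or.inr (Or.inr ⟨?_, ?_, Or.inl C4⟩)
          · rintro (h | rfl)
            · exact (hO' i).asymm A1 h
            · exact (hO' i).irr _ A1
          · have B4 := (hO' k).tr _ _ _ B1 B3
            rintro (h | rfl)
            · exact (hO' k).asymm B4 h
            · exact (hO' k).irr _ B4
        · refine Or.inr (Or.inr ⟨?_, ?_, Or.inl ((hO' t).tr _ _ _ C1 C3)⟩)
          · have A4 := (hO' i).tr _ _ _ A1 A2
            rintro (h | rfl)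
            · exact (hO' i).asymm A4 h
            · exact (hO' i).irr _ A4
          · rintro (h | rfl)
            · exact (hO' k).asymm B1 h
            · exact (hO' k).irr _ B1

end Pool.Agent.H65.G4
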